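import Pool.Agent.Lib_helper88.MC.MX
import Pool.Agent.Lib_helper72.MC.GE
import Pool.Agent.Lib_helper65.MC.GA
import Pool.Agent.Lib_helper49.MC.PO
import Pool.Agent.Lib_helper36.MC.CX
import Pool.Agent.Lib_helper42.MC.DS
import Pool.Agent.Lib_helper38.MC.FA

/-! Project MC (MP_b08f5f_an), block VM: a better competitor for every density that is not radial. -/

set_option autoImplicit false

namespace Pool.Agent.Lib_helper68.MC

open MeasureTheory Filter Topology Set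
open scoped ComplexConjugate ENNReal NNReal
open Pool.Agent.Lib_helper25.PV (Conf vel Motion centre inertia NC VFlow)
open Pool.Agent.Lib_helper12.HE (ham rad nrm Gam sig shell turn one LimAvg)

noncomputable section

/-! ### almost everywhere equality -/

theorem VM_sent_congr {ρ ρ' : ℂ → ℝ} (h : ρ =ᵐ[volume] ρ') : Sent ρ = Sent ρ' := by
  unfold Sent
  congr 1
  apply integral_congr_ae
  filter_upwards [h] with x hx
  rw [hx]

theorem VM_en_congr {ρ ρ' : ℂ → ℝ} (h : ρ =ᵐ[volume] ρ') : En ρ ρ = En ρ' ρ' := by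
  unfold En
  congr 1
  apply integral_congr_ae
  have h1 : ∀ᵐ p : ℂ × ℂ, ρ p.1 = ρ' p.1 :=
    (Measure.quasiMeasurePreserving_fst (μ := (volume : Measure ℂ)) (ν := volume)).ae h
  have h2 : ∀ᵐ p : ℂ × ℂ, ρ p.2 = ρ' p.2 :=
    (Measure.quasiMeasurePreserving_snd (μ := (volume : Measure ℂ)) (ν := volume)).ae h
  filter_upwards [h1, h2] with p hp1 hp2
  rw [hp1, hp2]

/-- multiplication by a nonzero number is quasi measure preserving -/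
theorem VM_qmp {c : ℂ} (hc : c ≠ 0) :
    Measure.QuasiMeasurePreserving (fun x : ℂ => c * x) volume volume := by
  have h := Measure.LinearMap.quasiMeasurePreserving (volume : Measure ℂ)
    (((LinearEquiv.smulOfNeZero ℂ ℂ c hc).restrictScalars ℝ : ℂ ≃ₗ[ℝ] ℂ) : ℂ →ₗ[ℝ] ℂ)
    (LinearEquiv.isUnit_det' _).ne_zero
  exact h

theorem VM_qmp_conj : Measure.QuasiMeasurePreserving (fun x : ℂ => conj x) volume volume :=
  (Complex.conjLIE.measurePreserving).quasiMeasurePreserving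

theorem VM_comp_mul {f g : ℂ → ℝ} (h : f =ᵐ[volume] g) {c : ℂ} (hc : c ≠ 0) :
    (fun x => f (c * x)) =ᵐ[volume] fun x => g (c * x) :=
  (VM_qmp hc).ae_eq_comp h

theorem VM_comp_conj {f g : ℂ → ℝ} (h : f =ᵐ[volume] g) :
    (fun x => f (conj x)) =ᵐ[volume] fun x => g (conj x) :=
  VM_qmp_conj.ae_eq_comp h

/-- not invariant under some rotation -/
def VM_NR (ρ : ℂ → ℝ) : Prop := ∃ α : ℂ, ‖α‖ = 1 ∧ ¬ (fun x => ρ (α * x)) =ᵐ[volume] ρ

theorem VM_ne_gau {ρ : ℂ → ℝ} (h : VM_NR ρ) : ¬ ρ =ᵐ[volume] gau := by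
  rintro hg
  obtain ⟨α, hα, hne⟩ := h
  apply hne
  have hα0 : α ≠ 0 := by
    rintro rfl
    simp at hα
  have h1 := VM_comp_mul hg hα0
  have h2 : (fun x => gau (α * x)) = gau := funext fun x => GA_rot α hα x
  rw [h2] at h1
  exact h1.trans hg.symm

theorem VM_mo_nonneg {ρ : ℂ → ℝ} (h : Dens ρ) : 0 ≤ mo ρ := by
  unfold mo
  exact integral_nonneg fun x => mul_nonneg (sq_nonneg _) (h.nonneg x)

theorem VM_NR_dil {ρ : ℂ → ℝ} (h : VM_NR ρ) {s : ℝ} (hs : 0 < s) : VM_NR (dil s ρ) := by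
  obtain ⟨α, hα, hne⟩ := h
  refine ⟨α, hα, fun hcon => hne ?_⟩
  have hs' : (s : ℂ) ≠ 0 := by exact_mod_cast hs.ne'
  have h1 := VM_comp_mul hcon hs'
  filter_upwards [h1] with x hx
  unfold dil at hx
  have e1 : (s : ℂ)⁻¹ * (α * ((s : ℂ) * x)) = α * x := by field_simp
  have e2 : (s : ℂ)⁻¹ * ((s : ℂ) * x) = x := by field_simp
  rw [e1, e2] at hx
  have h3 : (s ^ 2)⁻¹ ≠ 0 := inv_ne_zero (pow_ne_zero _ hs.ne')
  exact mul_left_cancel₀ h3 hx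

/-- some reflection does not preserve the density -/
theorem VM_reflect {ρ : ℂ → ℝ} (h : VM_NR ρ) :
    ∃ β : ℂ, ‖β‖ = 1 ∧ ¬ (fun x => ρ (β * conj x)) =ᵐ[volume] ρ := by
  by_contra hcon
  push Not at hcon
  obtain ⟨α, hα, hne⟩ := h
  apply hne
  have h1 := VM_comp_conj (hcon α hα)
  have h2 := hcon 1 (by simp)
  have e1 : (fun x => ρ (α * conj (conj x))) = fun x => ρ (α * x) := by
    funext x
    rw [Complex.conj_conj]
  have e2 : (fun x => ρ ((1 : ℂ) * conj x)) = fun x => ρ (conj x) := by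
    funext x
    rw [one_mul]
  rw [e2] at h2
  have h1' : (fun x => ρ (α * x)) =ᵐ[volume] fun x => ρ (conj x) := by
    rw [← e1]
    exact h1
  exact h1'.trans h2

/-- the energy of a mixture with parameter is continuous -/
theorem VM_ivt {ρ ρ' : ℂ → ℝ} (h : Dens ρ) (h' : Dens ρ') {v : ℝ}
    (hv : v ∈ uIcc (En ρ ρ) (En ρ' ρ')) :
    ∃ t : ℝ, 0 ≤ t ∧ t ≤ 1 ∧ En (mix t ρ ρ') (mix t ρ ρ') = v := by
  have hc : ContinuousOn (fun t : ℝ => (1 - t) ^ 2 * En ρ ρ + 2 * t * (1 - t) * En ρ ρ' +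
      t ^ 2 * En ρ' ρ') (uIcc 0 1) := by fun_prop
  have h1 := intermediate_value_uIcc hc
  have h2 : v ∈ uIcc ((1 - (0 : ℝ)) ^ 2 * En ρ ρ + 2 * 0 * (1 - 0) * En ρ ρ' + 0 ^ 2 * En ρ' ρ')
      ((1 - (1 : ℝ)) ^ 2 * En ρ ρ + 2 * 1 * (1 - 1) * En ρ ρ' + 1 ^ 2 * En ρ' ρ') := by
    have e1 : (1 - (0 : ℝ)) ^ 2 * En ρ ρ + 2 * 0 * (1 - 0) * En ρ ρ' + 0 ^ 2 * En ρ' ρ' =
        En ρ ρ := by ring
    have e2 : (1 - (1 : ℝ)) ^ 2 * En ρ ρ + 2 * 1 * (1 - 1) * En ρ ρ' + 1 ^ 2 * En ρ' ρ' =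
        En ρ' ρ' := by ring
    rw [e1, e2]
    exact hv
  obtain ⟨t, ht, hte⟩ := h1 h2
  rw [uIcc_of_le zero_le_one] at ht
  exact ⟨t, ht.1, ht.2, by rw [EN_mix h h']; exact hte⟩

theorem VM_gau_max {ρ : ℂ → ℝ} (h : Dens ρ) (hm : mo ρ ≤ 1) : Sent ρ ≤ Sent gau := by
  by_cases hg : ρ =ᵐ[volume] gau
  · exact (VM_sent_congr hg).le
  · exact (GA_max h hm hg).le

theorem VM_mo_mix {ρ ρ' : ℂ → ℝ} (h : Dens ρ) (h' : Dens ρ') (hm : mo ρ ≤ 1) (hm' : mo ρ' ≤ 1)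
    {t : ℝ} (h0 : 0 ≤ t) (h1 : t ≤ 1) : mo (mix t ρ ρ') ≤ 1 := by
  rw [MX_mo h h']
  nlinarith [mul_le_mul_of_nonneg_left hm (sub_nonneg.2 h1), mul_le_mul_of_nonneg_left hm' h0]

/-! ### the upper side -/

/-- contraction to the energy `a` -/
theorem VM_contract (a : ℝ) {ρ : ℂ → ℝ} (h : Dens ρ) (hm : mo ρ ≤ 1)
    (hc : mean ρ = 0) (hrad : VM_NR ρ) :
    ∃ ρ₁ : ℂ → ℝ, Dens ρ₁ ∧ mo ρ₁ ≤ 1 ∧ mean ρ₁ = 0 ∧ a ≤ En ρ₁ ρ₁ ∧ VM_NR ρ₁ ∧
      Sent ρ₁ = Sent ρ - 8 * Real.pi * max (a - En ρ ρ) 0 := by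
  rcases le_or_gt a (En ρ ρ) with h1 | h1
  · refine ⟨ρ, h, hm, hc, h1, hrad, ?_⟩
    rw [max_eq_right (by linarith)]
    ring
  · have hpi := Real.pi_pos
    set s := Real.exp (-(4 * Real.pi * (a - En ρ ρ))) with hs
    have hs0 : 0 < s := Real.exp_pos _
    have hlog : Real.log s = -(4 * Real.pi * (a - En ρ ρ)) := Real.log_exp _
    have hs1 : s ≤ 1 := by
      rw [hs, Real.exp_le_one_iff]
      have : 0 < 4 * Real.pi * (a - En ρ ρ) := by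
        have := sub_pos.2 h1
        positivity
      linarith
    obtain ⟨d1, d2, d3, d4, d5⟩ := GE_dil h hs0
    refine ⟨dil s ρ, d1, ?_, ?_, ?_, VM_NR_dil hrad hs0, ?_⟩
    · rw [d3]
      have := VM_mo_nonneg h
      nlinarith [pow_le_one₀ hs0.le hs1 (n := 2)]
    · rw [d4, hc, mul_zero]
    · rw [d5, hlog]
      have : 1 / (4 * Real.pi) * -(4 * Real.pi * (a - En ρ ρ)) = -(a - En ρ ρ) := by
        field_simp
      rw [this]
      linarith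
    · rw [d2, hlog, max_eq_left (by linarith)]
      ring

/-- strict polarisation in a suitable direction -/
theorem VM_polar {ρ : ℂ → ℝ} (h : Dens ρ) (hc : mean ρ = 0) (hrad : VM_NR ρ) :
    ∃ ρ' : ℂ → ℝ, Dens ρ' ∧ Sent ρ' = Sent ρ ∧ mo ρ' = mo ρ ∧ En ρ ρ < En ρ' ρ' := by
  obtain ⟨β, hβ, hne⟩ := VM_reflect hrad
  obtain ⟨γ, hγ⟩ : ∃ γ : ℂ, γ ^ 2 = β := by
    obtain ⟨z, hz⟩ := IsAlgClosed.exists_pow_nat_eq β (n := 2) (by norm_num)
    exact ⟨z, hz⟩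
  have hγ1 : ‖γ‖ = 1 := by
    have : ‖γ‖ ^ 2 = 1 := by rw [← norm_pow, hγ, hβ]
    have h0 := norm_nonneg γ
    nlinarith
  have hγγ : γ * conj γ = 1 := by
    rw [Complex.mul_conj, Complex.normSq_eq_norm_sq, hγ1]
    norm_num
  obtain ⟨r1, r2, r3, r4, r5⟩ := GE_rot h γ hγ1
  obtain ⟨ρ', p1, p2, p3, p4⟩ := PO_strict r1 (by rw [r4, hc, mul_zero]; rfl) (by
    intro hcon
    apply hne
    have h1 := VM_comp_mul hcon (c := conj γ) (by
      intro h0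
      rw [h0, mul_zero] at hγγ
      exact zero_ne_one hγγ)
    filter_upwards [h1] with x hx
    have e1 : γ * conj (conj γ * x) = β * conj x := by
      rw [map_mul, Complex.conj_conj, ← hγ]
      ring
    have e2 : γ * (conj γ * x) = x := by
      rw [← mul_assoc, hγγ, one_mul]
    rw [e1, e2] at hx
    exact hx)
  exact ⟨ρ', p1, by rw [p2, r2], by rw [p3, r3], by rw [← r5]; exact p4⟩

theorem VM_high {a b : ℝ} (hab : a < b) {ρ : ℂ → ℝ} (h : Dens ρ) (hm : mo ρ ≤ 1)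
    (hc : mean ρ = 0) (hrad : VM_NR ρ) (hG : En gau gau ≤ a) :
    ∃ ρ' : ℂ → ℝ, Dens ρ' ∧ mo ρ' = 1 ∧ mean ρ' = 0 ∧ a < En ρ' ρ' ∧ En ρ' ρ' < b ∧
      Sent ρ - 8 * Real.pi * max (a - En ρ ρ) 0 < Sent ρ' := by
  obtain ⟨ρ₁, a1, a2, a3, a4, a5, a6⟩ := VM_contract a h hm hc hrad
  obtain ⟨ρ₂, b1, b2, b3, b4⟩ : ∃ ρ₂ : ℂ → ℝ, Dens ρ₂ ∧ Sent ρ₂ = Sent ρ₁ ∧ mo ρ₂ ≤ 1 ∧
      a < En ρ₂ ρ₂ := by
    obtain ⟨ρ₂, c1, c2, c3, c4⟩ := VM_polar a1 a3 a5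
    exact ⟨ρ₂, c1, c2, by rw [c3]; exact a2, lt_of_le_of_lt a4 c4⟩
  obtain ⟨g1, g2, g3, g4⟩ := GA_dens
  obtain ⟨v, hv1, hv2⟩ := exists_between (lt_min hab b4)
  have hvb := lt_of_lt_of_le hv2 (min_le_left _ _)
  have hvE := lt_of_lt_of_le hv2 (min_le_right _ _)
  obtain ⟨t, t0, t1, ht⟩ := VM_ivt b1 g1 (v := v) (by
    rw [mem_uIcc]
    right
    constructor
    · linarith
    · linarith)
  have htpos : 0 < t := by
    rcases lt_or_eq_of_le t0 with h0 | h0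
    · exact h0
    · exfalso
      rw [EN_mix b1 g1, ← h0] at ht
      have : (1 - (0 : ℝ)) ^ 2 * En ρ₂ ρ₂ + 2 * 0 * (1 - 0) * En ρ₂ gau + 0 ^ 2 * En gau gau =
          En ρ₂ ρ₂ := by ring
      rw [this] at ht
      linarith
  have hS : Sent ρ₂ < Sent gau := by
    apply GA_max b1 b3
    intro hcon
    have := VM_en_congr hcon
    linarith
  have hS2 : Sent ρ₂ < Sent (mix t ρ₂ gau) := by
    have := MX_sent b1 g1 t0 t1
    nlinarith [mul_pos htpos (sub_pos.2 hS)]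
  obtain ⟨ρ', f1, f2, f3, f4, f5, f6⟩ := FA_fix (MX_dens b1 g1 t0 t1)
    (VM_mo_mix b1 g1 b3 g2.le t0 t1) (a := a) (b := b) (s := Sent ρ₂) (by rw [ht]; exact hv1)
    (by rw [ht]; exact hvb) hS2
  exact ⟨ρ', f1, f2, f3, f4, f5, by rw [← a6, ← b2]; exact f6⟩

/-! ### the lower side -/

theorem VM_en_mix_le {ρ ρ' : ℂ → ℝ} (h : Dens ρ) (h' : Dens ρ') {t : ℝ} (h0 : 0 ≤ t)
    (h1 : t ≤ 1) : En (mix t ρ ρ') (mix t ρ ρ') ≤ (1 - t) * En ρ ρ + t * En ρ' ρ' := by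
  rw [EN_mix h h']
  have := CX_mid h h'
  nlinarith [mul_le_mul_of_nonneg_left this (mul_nonneg h0 (sub_nonneg.2 h1))]

/-- from an energy below `b` to the window, without loss of entropy -/
theorem VM_raise {a b : ℝ} (hab : a < b) {ρ : ℂ → ℝ} (h : Dens ρ) (hm : mo ρ ≤ 1)
    (hE : En ρ ρ < b) (hG : b ≤ En gau gau) {s : ℝ} (hs : s < Sent ρ) :
    ∃ ρ' : ℂ → ℝ, Dens ρ' ∧ mo ρ' = 1 ∧ mean ρ' = 0 ∧ a < En ρ' ρ' ∧ En ρ' ρ' < b ∧
      s < Sent ρ' := by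
  rcases lt_or_ge a (En ρ ρ) with h1 | h1
  · exact FA_fix h hm h1 hE hs
  · obtain ⟨g1, g2, g3, g4⟩ := GA_dens
    obtain ⟨t, t0, t1, ht⟩ := VM_ivt h g1 (v := (a + b) / 2) (by
      rw [mem_uIcc]
      left
      constructor
      · linarith
      · linarith)
    refine FA_fix (MX_dens h g1 t0 t1) (VM_mo_mix h g1 hm g2.le t0 t1) (by rw [ht]; linarith)
      (by rw [ht]; linarith) ?_
    have h2 := MX_sent h g1 t0 t1
    have h3 := VM_gau_max h hm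
    nlinarith [mul_nonneg t0 (sub_nonneg.2 h3)]

theorem VM_low {a b : ℝ} (hab : a < b) (hb : e0 < b) {ρ : ℂ → ℝ} (h : Dens ρ)
    (hm : mo ρ ≤ 1) (hE : En ρ ρ ≤ b) (hrad : VM_NR ρ) (hG : b ≤ En gau gau) :
    ∃ ρ' : ℂ → ℝ, Dens ρ' ∧ mo ρ' = 1 ∧ mean ρ' = 0 ∧ a < En ρ' ρ' ∧ En ρ' ρ' < b ∧
      Sent ρ < Sent ρ' := by
  obtain ⟨α, hα, hne⟩ := hrad
  obtain ⟨r1, r2, r3, r4, r5⟩ := GE_rot h α hα
  set σ : ℂ → ℝ := fun x => ρ (α * x) with hσ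
  have hd1 : Dens (mix (1 / 2) ρ σ) := MX_dens h r1 (by norm_num) (by norm_num)
  have hS1 : Sent ρ < Sent (mix (1 / 2) ρ σ) := by
    have := MX_strict h r1 (t := 1 / 2) (by norm_num) (by norm_num) (fun hc => hne hc.symm)
    rw [r2] at this
    linarith
  have hE1 : En (mix (1 / 2) ρ σ) (mix (1 / 2) ρ σ) ≤ b := by
    have := VM_en_mix_le h r1 (t := 1 / 2) (by norm_num) (by norm_num)
    rw [r5] at this
    linarith
  have hm1 : mo (mix (1 / 2) ρ σ) ≤ 1 :=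
    VM_mo_mix h r1 hm (by rw [r3]; exact hm) (by norm_num) (by norm_num)
  obtain ⟨δ, d1, d2, d3, d4⟩ := DS_disc
  -- a small weight
  obtain ⟨t, t0, t1, ht⟩ : ∃ t : ℝ, 0 < t ∧ t ≤ 1 ∧
      Sent ρ < (1 - t) * Sent (mix (1 / 2) ρ σ) + t * Sent δ := by
    have hcont : Tendsto (fun t : ℝ => (1 - t) * Sent (mix (1 / 2) ρ σ) + t * Sent δ)
        (𝓝[>] 0) (𝓝 (Sent (mix (1 / 2) ρ σ))) := by
      have hc : Continuous fun t : ℝ => (1 - t) * Sent (mix (1 / 2) ρ σ) + t * Sent δ := by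
        fun_prop
      have := hc.tendsto 0
      simp only [sub_zero, one_mul, zero_mul, add_zero] at this
      exact this.mono_left nhdsWithin_le_nhds
    have h1 := hcont.eventually_const_lt hS1
    have h2 : ∀ᶠ t : ℝ in 𝓝[>] 0, t ≤ 1 := by
      have : ∀ᶠ t : ℝ in 𝓝 0, t < 1 := eventually_lt_nhds (by norm_num)
      filter_upwards [mem_nhdsWithin_of_mem_nhds this] with t ht using le_of_lt ht
    obtain ⟨t, ht⟩ := ((h1.and h2).and self_mem_nhdsWithin).exists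
    exact ⟨t, ht.2, ht.1.2, ht.1.1⟩
  have hd2 := MX_dens hd1 d1 t0.le t1
  have hS2 : Sent ρ < Sent (mix t (mix (1 / 2) ρ σ) δ) :=
    lt_of_lt_of_le ht (MX_sent hd1 d1 t0.le t1)
  have hE2 : En (mix t (mix (1 / 2) ρ σ) δ) (mix t (mix (1 / 2) ρ σ) δ) < b := by
    have := VM_en_mix_le hd1 d1 t0.le t1
    rw [d4] at this
    nlinarith [mul_le_mul_of_nonneg_left hE1 (sub_nonneg.2 t1), mul_pos t0 (sub_pos.2 hb)]
  exact VM_raise hab hd2 (VM_mo_mix hd1 d1 hm1 d2.le t0.le t1) hE2 hG hS2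

/-! ### the two results -/

theorem VM_main {a b : ℝ} (hab : a < b) (hb : e0 < b) {ρ : ℂ → ℝ} (h : Dens ρ)
    (hm : mo ρ ≤ 1) (hc : mean ρ = 0) (hE : En ρ ρ ≤ b)
    (hrad : ∃ α : ℂ, ‖α‖ = 1 ∧ ¬ (fun x => ρ (α * x)) =ᵐ[volume] ρ) :
    ∃ ρ' : ℂ → ℝ, Dens ρ' ∧ mo ρ' = 1 ∧ mean ρ' = 0 ∧ a < En ρ' ρ' ∧ En ρ' ρ' < b ∧
      Sent ρ - 8 * Real.pi * max (a - En ρ ρ) 0 < Sent ρ' := by
  have hpi := Real.pi_pos
  have hmax : Sent ρ - 8 * Real.pi * max (a - En ρ ρ) 0 ≤ Sent ρ := by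
    have : 0 ≤ 8 * Real.pi * max (a - En ρ ρ) 0 := by positivity
    linarith
  rcases le_or_gt (En gau gau) a with h1 | h1
  · exact VM_high hab h hm hc hrad h1
  · rcases le_or_gt b (En gau gau) with h2 | h2
    · obtain ⟨ρ', f1, f2, f3, f4, f5, f6⟩ := VM_low hab hb h hm hE hrad h2
      exact ⟨ρ', f1, f2, f3, f4, f5, lt_of_le_of_lt hmax f6⟩
    · obtain ⟨g1, g2, g3, g4⟩ := GA_dens
      exact ⟨gau, g1, g2, g3, h1, h2, lt_of_le_of_lt hmax (GA_max h hm (VM_ne_gau hrad))⟩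

/-- there is at least one competitor -/
theorem VM_some {a b : ℝ} (hab : a < b) (hb : e0 < b) :
    ∃ ρ' : ℂ → ℝ, Dens ρ' ∧ mo ρ' = 1 ∧ mean ρ' = 0 ∧ a < En ρ' ρ' ∧ En ρ' ρ' < b := by
  have hpi := Real.pi_pos
  obtain ⟨g1, g2, g3, g4⟩ := GA_dens
  rcases le_or_gt (En gau gau) a with h1 | h1
  · set s := Real.exp (-(4 * Real.pi * ((a + b) / 2 - En gau gau))) with hs
    have hs0 : 0 < s := Real.exp_pos _
    have hlog : Real.log s = -(4 * Real.pi * ((a + b) / 2 - En gau gau)) := Real.log_exp _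
    have hs1 : s ≤ 1 := by
      rw [hs, Real.exp_le_one_iff]
      have : 0 < (a + b) / 2 - En gau gau := by linarith
      have : 0 < 4 * Real.pi * ((a + b) / 2 - En gau gau) := by positivity
      linarith
    obtain ⟨d1, d2, d3, d4, d5⟩ := GE_dil g1 hs0
    have hEd : En (dil s gau) (dil s gau) = (a + b) / 2 := by
      rw [d5, hlog]
      have : 1 / (4 * Real.pi) * -(4 * Real.pi * ((a + b) / 2 - En gau gau)) =
          -((a + b) / 2 - En gau gau) := by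
        field_simp
      rw [this]
      linarith
    obtain ⟨ρ', f1, f2, f3, f4, f5, f6⟩ := FA_fix d1 (a := a) (b := b)
      (s := Sent (dil s gau) - 1) (by
        rw [d3, g2]
        nlinarith [pow_le_one₀ hs0.le hs1 (n := 2)]) (by rw [hEd]; linarith)
      (by rw [hEd]; linarith) (by linarith)
    exact ⟨ρ', f1, f2, f3, f4, f5⟩
  · rcases le_or_gt b (En gau gau) with h2 | h2
    · obtain ⟨δ, d1, d2, d3, d4⟩ := DS_disc
      obtain ⟨ρ', f1, f2, f3, f4, f5, f6⟩ := VM_raise hab d1 d2.le (by rw [d4]; exact hb) h2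
        (s := Sent δ - 1) (by linarith)
      exact ⟨ρ', f1, f2, f3, f4, f5⟩
    · exact ⟨gau, g1, g2, g3, h1, h2⟩

end

end Pool.Agent.Lib_helper68.MC
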