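import Pool.Agent.Lib_helper72.KC.A

/-!
# Closed elements from a modular certificate: the abstract theorem
-/

set_option autoImplicit false
set_option linter.unusedSectionVars false
set_option linter.unusedVariables false

open scoped TensorProduct

namespace Pool.Agent.MC

open TN MK4
open KC72 (det3)

/-- a matrix with a right inverse modulo `p` has independent rows -/
theorem li_of_mod {ι : Type*} [Fintype ι] {N : ℕ} (v : Fin N → ι → ℤ) (X : ι → Fin N → ℤ) {p : ℕ}
    (hp : 1 < p) (h : ∀ q s, (p : ℤ) ∣ ∑ x, v q x * X x s - if q = s then 1 else 0) :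
    LinearIndependent ℚ (fun q => fun x => ((v q x : ℤ) : ℚ)) := by
  classical
  set V : Matrix (Fin N) ι ℤ := Matrix.of v with hV
  set Y : Matrix ι (Fin N) ℤ := Matrix.of X with hY
  have hdet : (V * Y).det ≠ 0 := by
    have h1 : (V * Y).map (Int.castRingHom (ZMod p)) = 1 := by
      ext q s
      rw [Matrix.map_apply, Matrix.mul_apply, Matrix.one_apply]
      have h2 := (ZMod.intCast_zmod_eq_zero_iff_dvd _ p).mpr (h q s)
      rw [Int.cast_sub, sub_eq_zero] at h2
      rw [eq_intCast]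
      refine h2.trans ?_
      split_ifs <;> simp
    intro h0
    have h2 := (Int.castRingHom (ZMod p)).map_det (V * Y)
    rw [h0, map_zero] at h2
    have h3 : (Int.castRingHom (ZMod p)).mapMatrix (V * Y) = 1 := h1
    rw [h3, Matrix.det_one] at h2
    have : Fact (1 < p) := ⟨hp⟩
    exact zero_ne_one h2
  rw [Fintype.linearIndependent_iff]
  intro β hβ
  have h1 : Matrix.vecMul β ((V * Y).map (Int.cast : ℤ → ℚ)) = 0 := by
    funext s
    rw [Matrix.vecMul, dotProduct]
    simp only [Matrix.map_apply, Matrix.mul_apply, Pi.zero_apply]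
    push_cast
    simp only [Finset.mul_sum]
    rw [Finset.sum_comm]
    refine Finset.sum_eq_zero fun x _ => ?_
    have h2 := congrFun hβ x
    simp only [Finset.sum_apply, Pi.smul_apply, smul_eq_mul, Pi.zero_apply] at h2
    simp only [← mul_assoc, ← Finset.sum_mul]
    rw [hV, hY]
    simp only [Matrix.of_apply]
    rw [h2, zero_mul]
  have h2 : ((V * Y).map (Int.cast : ℤ → ℚ)).det ≠ 0 := by
    have h3 := (Int.castRingHom ℚ).map_det (V * Y)
    have h4 : (Int.castRingHom ℚ).mapMatrix (V * Y) = (V * Y).map (Int.cast : ℤ → ℚ) := rfl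
    rw [← h4, ← h3]
    simpa using hdet
  have h3 := Matrix.eq_zero_of_vecMul_eq_zero h2 h1
  intro i
  exact congrFun h3 i

/-- vectors in the kernel of independent functionals, by counting -/
theorem mem_span_of_rank {ι : Type*} [Fintype ι] {S K : ℕ} (Φ : Fin S → ι → ℚ)
    (hΦ : LinearIndependent ℚ Φ) (τ : Fin K → ι → ℚ) (hτ : LinearIndependent ℚ τ)
    (h0 : ∀ q k, ∑ x, Φ q x * τ k x = 0) (hc : S + K = Fintype.card ι) (y : ι → ℚ)
    (hy : ∀ q, ∑ x, Φ q x * y x = 0) : y ∈ Submodule.span ℚ (Set.range τ) := by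
  classical
  set A : Matrix (Fin S) ι ℚ := Matrix.of Φ with hA
  have hr : A.rank = S := by
    rw [LinearIndependent.rank_matrix (M := A) hΦ, Fintype.card_fin]
  have hker : Module.finrank ℚ (LinearMap.ker A.mulVecLin) = K := by
    have h1 := LinearMap.finrank_range_add_finrank_ker A.mulVecLin
    have h2 : Module.finrank ℚ (LinearMap.range A.mulVecLin) = S := hr
    rw [h2, Module.finrank_fintype_fun_eq_card] at h1
    omega
  have hle : Submodule.span ℚ (Set.range τ) ≤ LinearMap.ker A.mulVecLin := by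
    rw [Submodule.span_le]
    rintro _ ⟨k, rfl⟩
    rw [SetLike.mem_coe, LinearMap.mem_ker, Matrix.mulVecLin_apply]
    funext q
    rw [Matrix.mulVec, dotProduct]
    exact h0 q k
  have hfr : Module.finrank ℚ (Submodule.span ℚ (Set.range τ)) = K := by
    rw [finrank_span_eq_card hτ, Fintype.card_fin]
  have heq := Submodule.eq_of_le_of_finrank_eq hle (hfr.trans hker.symm)
  rw [heq, LinearMap.mem_ker, Matrix.mulVecLin_apply]
  funext q
  rw [Matrix.mulVec, dotProduct]
  exact hy q

variable {V M : Type*} [AddCommGroup V] [Module ℚ V] [AddCommGroup M] [Module ℚ M]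

/-- **closed elements from a modular certificate** -/
theorem abs_closedM {n m S K : ℕ} (r : ℕ) (g : Fin n → V) (hg : LinearIndependent ℚ g)
    (φ : Fin n → V →ₗ[ℚ] ℚ) (hφ : ∀ i j : Fin n, i.val < r → φ i (g j) = if i = j then 1 else 0)
    (a b : Fin m → Fin n → ℤ) (B : Fin m → V →ₗ[ℚ] M)
    (D' : ℤ) (hD' : D' ≠ 0) (G : Fin m → Fin n → Fin n → ℤ)
    (hG0 : ∀ c i j, G c i j ≠ 0 → i.val < r ∧ j.val < r)
    (hG : ∀ c c', ∑ i, ∑ j, G c i j * (b c' i * a c' j - a c' i * b c' j) =
      if c = c' then D' else 0)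
    (N : Submodule ℚ M) (Q : Fin S → Fin n × Fin n × Fin n)
    (hQ : ∀ q, (Q q).1.val < r ∧ (Q q).2.1.val < r)
    (τ : Fin K → Fin m × Fin n → ℤ)
    (hτN : ∀ k, ∑ x : Fin m × Fin n, ((τ k x : ℤ) : ℚ) • B x.1 (g x.2) ∈ N)
    (hτΦ : ∀ k q, ∑ x : Fin m × Fin n, det3 (b x.1) (a x.1) (Pi.single x.2 1) (Q q) * τ k x = 0)
    (hcard : S + K = m * n)
    (hΦ : LinearIndependent ℚ (fun (q : Fin S) => fun (x : Fin m × Fin n) =>
      ((det3 (b x.1) (a x.1) (Pi.single x.2 1) (Q q) : ℤ) : ℚ)))
    (hτ : LinearIndependent ℚ (fun (k : Fin K) => fun (x : Fin m × Fin n) => ((τ k x : ℤ) : ℚ)))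
    (u : Fin m → V) (w : ExteriorAlgebra ℚ V)
    (hw : ∀ i j : Fin n, i.val < r → j.val < r → ct (φ i) (φ j) w = 0)
    (hc : ∑ c, ExteriorAlgebra.ι ℚ (∑ j, (b c j : ℚ) • g j) *
      ExteriorAlgebra.ι ℚ (∑ j, (a c j : ℚ) • g j) * ExteriorAlgebra.ι ℚ (u c) + w = 0) :
    ∑ c, B c (u c) ∈ N := by
  classical
  have hφa : ∀ (a : Fin n → ℤ) (i : Fin n), i.val < r → φ i (∑ j, (a j : ℚ) • g j) = a i := by
    intro a i hi
    rw [map_sum]
    simp only [map_smul, hφ i _ hi, smul_eq_mul, mul_ite, mul_one, mul_zero]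
    rw [Finset.sum_ite_eq]
    simp
  -- the contracted equations
  have eq : ∀ i j : Fin n, i.val < r → j.val < r →
      ∑ c, ((((b c i : ℚ) * a c j - a c i * b c j) • u c) -
        (((b c i : ℚ) * φ j (u c) - φ i (u c) * b c j) • ∑ l, (a c l : ℚ) • g l) +
        (((a c i : ℚ) * φ j (u c) - φ i (u c) * a c j) • ∑ l, (b c l : ℚ) • g l)) = 0 := by
    intro i j hi hj
    have h1 := congrArg (ct (φ i) (φ j)) hc
    rw [map_add, map_sum, map_zero, hw i j hi hj, add_zero] at h1
    simp only [ct_mul3, hφa _ _ hi, hφa _ _ hj] at h1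
    rw [← map_sum] at h1
    have h2 := (ExteriorAlgebra.ι_eq_zero_iff _).mp h1
    exact h2
  -- the unknowns lie in the span of the generators
  have hsp : ∀ c, u c ∈ Submodule.span ℚ (Set.range g) := by
    intro c
    have hgm : ∀ a : Fin n → ℤ, (∑ l, (a l : ℚ) • g l) ∈ Submodule.span ℚ (Set.range g) :=
      fun a => Submodule.sum_mem _ fun l _ => Submodule.smul_mem _ _ (Submodule.subset_span ⟨l, rfl⟩)
    have h1 : (D' : ℚ) • u c = ∑ i, ∑ j, (G c i j : ℚ) • ∑ c', ((b c' i : ℚ) * a c' j -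
        a c' i * b c' j) • u c' := by
      have e1 : ∑ i, ∑ j, (G c i j : ℚ) • ∑ c', ((b c' i : ℚ) * a c' j - a c' i * b c' j) • u c' =
          ∑ c', (∑ i, ∑ j, (G c i j : ℚ) * ((b c' i : ℚ) * a c' j - a c' i * b c' j)) • u c' := by
        simp only [Finset.smul_sum, Finset.sum_smul, smul_smul]
        symm
        rw [Finset.sum_comm]
        refine Finset.sum_congr rfl fun i _ => ?_
        rw [Finset.sum_comm]
      rw [e1]
      have e2 : ∀ c', (∑ i, ∑ j, (G c i j : ℚ) * ((b c' i : ℚ) * a c' j - a c' i * b c' j)) =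
          if c = c' then (D' : ℚ) else 0 := by
        intro c'
        have := hG c c'
        rw [← Int.cast_inj (α := ℚ)] at this
        push_cast at this
        rw [this]
      simp only [e2, ite_smul, zero_smul]
      rw [Finset.sum_ite_eq]
      simp
    have h2 : (D' : ℚ) • u c ∈ Submodule.span ℚ (Set.range g) := by
      rw [h1]
      refine Submodule.sum_mem _ fun i _ => Submodule.sum_mem _ fun j _ => ?_
      by_cases hG' : G c i j = 0
      · rw [hG', Int.cast_zero, zero_smul]; exact Submodule.zero_mem _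
      obtain ⟨hi, hj⟩ := hG0 c i j hG'
      refine Submodule.smul_mem _ _ ?_
      have h3 := eq i j hi hj
      rw [Finset.sum_add_distrib, Finset.sum_sub_distrib] at h3
      have h4 : ∑ c', ((b c' i : ℚ) * a c' j - a c' i * b c' j) • u c' =
          ∑ c', ((b c' i : ℚ) * φ j (u c') - φ i (u c') * b c' j) • ∑ l, (a c' l : ℚ) • g l -
          ∑ c', ((a c' i : ℚ) * φ j (u c') - φ i (u c') * a c' j) • ∑ l, (b c' l : ℚ) • g l := by
        rw [← sub_eq_zero, ← h3]; abel
      rw [h4]
      exact Submodule.sub_mem _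
        (Submodule.sum_mem _ fun c' _ => Submodule.smul_mem _ _ (hgm _))
        (Submodule.sum_mem _ fun c' _ => Submodule.smul_mem _ _ (hgm _))
    have h3 := Submodule.smul_mem _ (D' : ℚ)⁻¹ h2
    rwa [smul_smul, inv_mul_cancel₀ (by exact_mod_cast hD'), one_smul] at h3
  have hsp' : ∀ c, ∃ y : Fin n → ℚ, ∑ j, y j • g j = u c := fun c =>
    (Submodule.mem_span_range_iff_exists_fun ℚ).mp (hsp c)
  choose y hy using hsp'
  have hφu : ∀ c (i : Fin n), i.val < r → φ i (u c) = y c i := by
    intro c i hi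
    rw [← hy, map_sum]
    simp only [map_smul, hφ i _ hi, smul_eq_mul, mul_ite, mul_one, mul_zero]
    rw [Finset.sum_ite_eq]
    simp
  -- the coordinates of the differential vanish
  have hdet : ∀ i j l : Fin n, i.val < r → j.val < r →
      ∑ c, det3 (fun i => (b c i : ℚ)) (fun i => (a c i : ℚ)) (y c) (i, j, l) = 0 := by
    intro i j l hi hj
    have h1 := eq i j hi hj
    have h2 : ∑ l, (∑ c, det3 (fun i => (b c i : ℚ)) (fun i => (a c i : ℚ)) (y c) (i, j, l)) • g l
        = 0 := by
      rw [← h1]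
      simp only [Finset.sum_smul]
      rw [Finset.sum_comm]
      refine Finset.sum_congr rfl fun c _ => ?_
      rw [hφu c i hi, hφu c j hj, ← hy c]
      simp only [Finset.smul_sum, smul_smul, ← Finset.sum_sub_distrib, ← Finset.sum_add_distrib,
        ← sub_smul, ← add_smul]
      rfl
    exact (Fintype.linearIndependent_iff.mp hg) _ h2 l
  -- linearity in `y`
  have hlin : ∀ (c : Fin m) (q : Fin S),
      ∑ j, ((det3 (b c) (a c) (Pi.single j 1) (Q q) : ℤ) : ℚ) * y c j =
        det3 (fun i => (b c i : ℚ)) (fun i => (a c i : ℚ)) (y c) (Q q) := by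
    intro c q
    have key : ∀ l, ∑ j, y c j * (((Pi.single j 1 : Fin n → ℤ) l : ℤ) : ℚ) = y c l := by
      intro l
      simp [Pi.single_apply]
    unfold det3
    rw [← key (Q q).1, ← key (Q q).2.1, ← key (Q q).2.2]
    push_cast
    simp only [Finset.mul_sum, Finset.sum_mul, ← Finset.sum_sub_distrib,
      ← Finset.sum_add_distrib]
    exact Finset.sum_congr rfl fun j _ => by ring
  have hmem := mem_span_of_rank _ hΦ _ hτ
    (fun q k => by
      have h1 := hτΦ k q
      rw [← Int.cast_inj (α := ℚ)] at h1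
      push_cast at h1
      exact_mod_cast h1)
    (by rw [Fintype.card_prod, Fintype.card_fin, Fintype.card_fin]; exact hcard)
    (fun x => y x.1 x.2)
    (fun q => by
      rw [Fintype.sum_prod_type]
      simp only [hlin]
      exact hdet (Q q).1 (Q q).2.1 (Q q).2.2 (hQ q).1 (hQ q).2)
  obtain ⟨α, hα⟩ := (Submodule.mem_span_range_iff_exists_fun ℚ).mp hmem
  have e1 : ∑ c, B c (u c) = ∑ x : Fin m × Fin n, y x.1 x.2 • B x.1 (g x.2) := by
    rw [Fintype.sum_prod_type]
    refine Finset.sum_congr rfl fun c _ => ?_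
    rw [← hy c, map_sum]
    simp only [map_smul]
  rw [e1]
  have e2 : ∀ x : Fin m × Fin n, y x.1 x.2 = ∑ k, α k * ((τ k x : ℤ) : ℚ) := by
    intro x
    have := congrFun hα x
    simp only [Finset.sum_apply, Pi.smul_apply, smul_eq_mul] at this
    exact this.symm
  simp only [e2, Finset.sum_smul]
  rw [Finset.sum_comm]
  refine Submodule.sum_mem _ fun k _ => ?_
  have e3 : ∑ x : Fin m × Fin n, (α k * ((τ k x : ℤ) : ℚ)) • B x.1 (g x.2) =
      α k • ∑ x : Fin m × Fin n, ((τ k x : ℤ) : ℚ) • B x.1 (g x.2) := by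
    rw [Finset.smul_sum]
    exact Finset.sum_congr rfl fun x _ => by rw [smul_smul]
  rw [e3]
  exact Submodule.smul_mem _ _ (hτN k)

end Pool.Agent.MC
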