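import Pool.Agent.Lib_helper40.MC.A
import Pool.Agent.Lib_helper72.KC.D

/-!
# Closed elements from a modular certificate: digits
-/

set_option autoImplicit false
set_option linter.unusedSectionVars false
set_option linter.unusedVariables false

namespace Pool.Agent.MC

open KC72 (Mo min2)

/-! ### entries -/

/-- an entry of a list of integers -/
def nth : List ℤ → ℕ → ℤ
  | [], _ => 0
  | x :: _, 0 => x
  | _ :: xs, n + 1 => nth xs n

lemma nth_eq (v : List ℤ) (i : ℕ) : nth v i = v.getD i 0 := by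
  induction v generalizing i with
  | nil => simp [nth]
  | cons x v ih =>
    cases i with
    | zero => simp [nth]
    | succ i => simp [nth, ih]

/-- an entry of a list of natural numbers -/
def nthN : List ℕ → ℕ → ℕ
  | [], _ => 0
  | x :: _, 0 => x
  | _ :: xs, n + 1 => nthN xs n

/-- the minor -/
def mn (b a : List ℤ) (i j : ℕ) : ℤ := nth b i * nth a j - nth a i * nth b j

lemma mn_eq (b a : List ℤ) (i j : ℕ) : mn b a i j = min2 b a i j := by
  unfold mn min2
  simp only [nth_eq]

/-- the residue -/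
def red (p : ℕ) (z : ℤ) : ℕ := (z % (p : ℤ)).toNat

lemma red_spec {p : ℕ} (hp : 0 < p) (z : ℤ) : (p : ℤ) ∣ z - (red p z : ℕ) := by
  unfold red
  have h1 : (((z % (p : ℤ)).toNat : ℕ) : ℤ) = z % p :=
    Int.toNat_of_nonneg (Int.emod_nonneg _ (by exact_mod_cast hp.ne'))
  rw [h1]
  exact Int.dvd_self_sub_emod

/-- `a X + acc` -/
def ms (a X acc : ℕ) : ℕ :=
  match a with
  | 0 => acc
  | a + 1 => (a + 1) * X + acc

lemma ms_eq (a X acc : ℕ) : ms a X acc = a * X + acc := by
  cases a with
  | zero => simp [ms]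
  | succ a => rfl

/-! ### digits -/

/-- all digits are smaller than `p` -/
def xOk (p w : ℕ) : ℕ → ℕ → Bool
  | 0, W => W == 0
  | l + 1, W => decide (W % w < p) && xOk p w l (W / w)

/-- zero, or all digits are smaller than `p` -/
def xOk0 (p w N X : ℕ) : Bool := X == 0 || xOk p w N X

/-- the digits are `0` modulo `p`, but one of them, which is `1` -/
def rowOk (p w tgt : ℕ) : ℕ → ℕ → Bool
  | 0, _ => true
  | l + 1, W => ((W % w) % p == if l = tgt then 1 else 0) && rowOk p w tgt l (W / w)

lemma xOk_spec {p w : ℕ} (hw : 0 < w) {N X : ℕ} (h : xOk p w N X = true) :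
    X < w ^ N ∧ ∀ s < N, X / w ^ s % w < p := by
  induction N generalizing X with
  | zero =>
    simp only [xOk, beq_iff_eq] at h
    subst h
    exact ⟨by simp, fun s hs => absurd hs (Nat.not_lt_zero _)⟩
  | succ N ih =>
    simp only [xOk, Bool.and_eq_true, decide_eq_true_eq] at h
    obtain ⟨h1, h2⟩ := ih h.2
    refine ⟨?_, fun s hs => ?_⟩
    · rw [pow_succ]
      exact (Nat.div_lt_iff_lt_mul hw).mp h1
    · cases s with
      | zero => rw [pow_zero, Nat.div_one]; exact h.1
      | succ s =>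
        have := h2 s (by omega)
        rwa [Nat.div_div_eq_div_mul, ← pow_succ'] at this

lemma xOk0_spec {p w : ℕ} (hp : 0 < p) (hw : 0 < w) {N X : ℕ} (h : xOk0 p w N X = true) :
    X < w ^ N ∧ ∀ s < N, X / w ^ s % w < p := by
  unfold xOk0 at h
  rw [Bool.or_eq_true] at h
  rcases h with h | h
  · rw [beq_iff_eq] at h
    subst h
    exact ⟨pow_pos hw N, fun s _ => by rw [Nat.zero_div, Nat.zero_mod]; exact hp⟩
  · exact xOk_spec hw h

lemma rowOk_spec {p w tgt N W : ℕ} (h : rowOk p w tgt N W = true) :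
    ∀ s < N, (W / w ^ s % w) % p = if N - 1 - s = tgt then 1 else 0 := by
  induction N generalizing W with
  | zero => exact fun s hs => absurd hs (Nat.not_lt_zero _)
  | succ N ih =>
    simp only [rowOk, Bool.and_eq_true, beq_iff_eq] at h
    intro s hs
    cases s with
    | zero =>
      rw [pow_zero, Nat.div_one, h.1]
      simp
    | succ s =>
      have := ih h.2 s (by omega)
      rw [Nat.div_div_eq_div_mul, ← pow_succ'] at this
      rw [this]
      congr 1
      have : N - 1 - s = N + 1 - 1 - (s + 1) := by omega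
      rw [this]

/-- a number from its digits -/
lemma eq_sum_digits {w : ℕ} (hw : 0 < w) {N X : ℕ} (h : X < w ^ N) :
    X = ∑ s ∈ Finset.range N, (X / w ^ s % w) * w ^ s := by
  induction N generalizing X with
  | zero =>
    rw [pow_zero, Nat.lt_one_iff] at h
    subst h
    simp
  | succ N ih =>
    have h1 : X / w < w ^ N := (Nat.div_lt_iff_lt_mul hw).mpr (by rwa [← pow_succ])
    have h2 := ih h1
    rw [Finset.sum_range_succ', pow_zero, Nat.div_one, mul_one]
    have h3 : ∑ s ∈ Finset.range N, (X / w ^ (s + 1) % w) * w ^ (s + 1) = w * (X / w) := by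
      rw [show w * (X / w) = w * ∑ s ∈ Finset.range N, (X / w / w ^ s % w) * w ^ s by rw [← h2],
        Finset.mul_sum]
      refine Finset.sum_congr rfl fun s _ => ?_
      rw [Nat.div_div_eq_div_mul, ← pow_succ', pow_succ]
      ring
    rw [h3]
    exact (Nat.div_add_mod X w).symm

/-- the digits of a sum -/
lemma digit_sum {w : ℕ} (hw : 0 < w) {N : ℕ} (r : ℕ → ℕ) (hr : ∀ s < N, r s < w) {t : ℕ}
    (ht : t < N) : (∑ s ∈ Finset.range N, r s * w ^ s) / w ^ t % w = r t := by
  induction N generalizing r t with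
  | zero => exact absurd ht (Nat.not_lt_zero _)
  | succ N ih =>
    have h1 : ∑ s ∈ Finset.range (N + 1), r s * w ^ s =
        r 0 + w * ∑ s ∈ Finset.range N, r (s + 1) * w ^ s := by
      rw [Finset.sum_range_succ', pow_zero, mul_one, add_comm, Finset.mul_sum]
      congr 1
      refine Finset.sum_congr rfl fun s _ => ?_
      rw [pow_succ]; ring
    have h0 := hr 0 (Nat.succ_pos _)
    rw [h1]
    cases t with
    | zero => rw [pow_zero, Nat.div_one, Nat.add_mul_mod_self_left, Nat.mod_eq_of_lt h0]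
    | succ t =>
      rw [pow_succ', ← Nat.div_div_eq_div_mul, Nat.add_mul_div_left _ _ hw,
        Nat.div_eq_of_lt h0, zero_add]
      exact ih (fun s => r (s + 1)) (fun s hs => hr (s + 1) (by omega)) (by omega)

/-- **digits of a combination** -/
theorem digits_comb {ι : Type*} [Fintype ι] {p w N tgt : ℕ} (hp : 0 < p) (hw : 0 < w)
    (A X : ι → ℕ) (hX : ∀ x, xOk0 p w N (X x) = true) (hwt : (∑ x, A x) * (p - 1) < w)
    (hrow : rowOk p w tgt N (∑ x, A x * X x) = true) (s : ℕ) (hs : s < N) :
    (∑ x, A x * (X x / w ^ s % w)) % p = if N - 1 - s = tgt then 1 else 0 := by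
  have h1 : ∑ x, A x * X x =
      ∑ s ∈ Finset.range N, (∑ x, A x * (X x / w ^ s % w)) * w ^ s := by
    have h2 : ∀ x, A x * X x = ∑ s ∈ Finset.range N, A x * ((X x / w ^ s % w) * w ^ s) := by
      intro x
      conv_lhs => rw [eq_sum_digits hw (xOk0_spec hp hw (hX x)).1]
      rw [Finset.mul_sum]
    simp only [h2]
    rw [Finset.sum_comm]
    refine Finset.sum_congr rfl fun s _ => ?_
    rw [Finset.sum_mul]
    exact Finset.sum_congr rfl fun x _ => by ring
  have h3 : ∀ s < N, (∑ x, A x * (X x / w ^ s % w)) < w := by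
    intro s hs
    refine lt_of_le_of_lt ?_ hwt
    rw [Finset.sum_mul]
    refine Finset.sum_le_sum fun x _ => Nat.mul_le_mul_left _ ?_
    have := (xOk0_spec hp hw (hX x)).2 s hs
    omega
  have h4 := rowOk_spec hrow s hs
  rw [h1, digit_sum hw _ h3 hs] at h4
  exact h4

/-- **independence from a packed right inverse** -/
theorem li_of_packed {ι : Type*} [Fintype ι] {p w N : ℕ} (hp : 1 < p) (hw : 0 < w)
    (v : Fin N → ι → ℤ) (A : Fin N → ι → ℕ) (hA : ∀ q x, (p : ℤ) ∣ v q x - (A q x : ℕ)) (X : ι → ℕ)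
    (hX : ∀ x, xOk0 p w N (X x) = true) (hwt : ∀ q, (∑ x, A q x) * (p - 1) < w)
    (hrow : ∀ q, rowOk p w (N - 1 - q.val) N (∑ x, A q x * X x) = true) :
    LinearIndependent ℚ (fun q => fun x => ((v q x : ℤ) : ℚ)) := by
  refine li_of_mod v (fun x s => ((X x / w ^ s.val % w : ℕ) : ℤ)) hp fun q s => ?_
  have h1 := digits_comb (by omega) hw (A q) X hX (hwt q) (hrow q) s.val s.isLt
  have h2 : (N - 1 - s.val = N - 1 - q.val) ↔ q = s := by
    have := s.isLt
    have := q.isLt
    rw [Fin.ext_iff]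
    omega
  simp only [h2] at h1
  have h3 : (p : ℤ) ∣ ((∑ x, A q x * (X x / w ^ s.val % w) : ℕ) : ℤ) - if q = s then 1 else 0 := by
    have h4 := Int.emod_emod_of_dvd ((∑ x, A q x * (X x / w ^ s.val % w) : ℕ) : ℤ) (dvd_refl (p : ℤ))
    have h5 : ((∑ x, A q x * (X x / w ^ s.val % w) : ℕ) : ℤ) % p = if q = s then 1 else 0 := by
      rw [← Int.natCast_mod, h1]
      split_ifs <;> simp
    rw [← h5]
    exact Int.dvd_self_sub_emod
  have h6 : (p : ℤ) ∣ ∑ x, v q x * ((X x / w ^ s.val % w : ℕ) : ℤ) -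
      ((∑ x, A q x * (X x / w ^ s.val % w) : ℕ) : ℤ) := by
    push_cast
    rw [← Finset.sum_sub_distrib]
    refine Finset.dvd_sum fun x _ => ?_
    rw [← sub_mul]
    exact Dvd.dvd.mul_right (hA q x) _
  have h7 := dvd_add h6 h3
  rwa [sub_add_sub_cancel] at h7

end Pool.Agent.MC
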