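import Pool.Agent.Lib_helper40.MC.B

/-!
# Closed elements from a modular certificate: rows
-/

set_option autoImplicit false
set_option linter.unusedSectionVars false
set_option linter.unusedVariables false

namespace Pool.Agent.MC

open KC72 (Mo min2 axpy comb isZ)

/-- the row of the coordinate `(i, j, l)` -/
def rowQ (p i j l : ℕ) : List (Mo × Mo) → List (List ℕ) → ℕ
  | e :: L, X :: XL =>
    ms (red p (mn e.2.2 e.1.2 i j)) (nthN X l) (ms (red p (-mn e.2.2 e.1.2 i l)) (nthN X j)
      (ms (red p (mn e.2.2 e.1.2 j l)) (nthN X i) (rowQ p i j l L XL)))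
  | _, _ => 0

/-- the product with a list of exponents -/
def dotA (p : ℕ) : List ℤ → List ℕ → ℕ
  | a :: as, x :: xs => ms (red p a) x (dotA p as xs)
  | _, _ => 0

/-- the row of a trivial relation -/
def rowT (p : ℕ) (a : List ℤ) : List ℤ → List (List ℕ) → ℕ
  | r :: rs, X :: XL => ms (red p r) (dotA p a X) (rowT p a rs XL)
  | _, _ => 0

/-- a table of ones -/
def ones (m n : ℕ) : List (List ℕ) := List.replicate m (List.replicate n 1)

@[simp] lemma nthN_nil (j : ℕ) : nthN [] j = 0 := by cases j <;> rfl

lemma rowQ_sum {α : Type*} (F : α → Mo × Mo) (p i j l : ℕ) (L : List α) (XL : List (List ℕ)) :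
    rowQ p i j l (L.map F) XL = ∑ c : Fin L.length,
      (red p (mn (F (L.get c)).2.2 (F (L.get c)).1.2 i j) * nthN (XL.getD c.val []) l +
        (red p (-mn (F (L.get c)).2.2 (F (L.get c)).1.2 i l) * nthN (XL.getD c.val []) j +
          red p (mn (F (L.get c)).2.2 (F (L.get c)).1.2 j l) * nthN (XL.getD c.val []) i)) := by
  induction L generalizing XL with
  | nil => simp [rowQ]
  | cons e L ih =>
    cases XL with
    | nil => simp [rowQ]
    | cons X XL =>
      rw [List.map_cons, rowQ, ms_eq, ms_eq, ms_eq, ih]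
      refine Eq.trans ?_ (Fin.sum_univ_succ _).symm
      simp only [List.length_cons, Fin.val_zero, Fin.val_succ, List.getD_cons_zero,
        List.getD_cons_succ, List.get_eq_getElem, List.getElem_cons_zero, List.getElem_cons_succ]
      ring

lemma dotA_sum (p : ℕ) {n : ℕ} (a : List ℤ) (ha : a.length = n) (X : List ℕ) :
    dotA p a X = ∑ j : Fin n, red p (a.getD j.val 0) * nthN X j.val := by
  subst ha
  induction a generalizing X with
  | nil => simp [dotA]
  | cons x a ih =>
    cases X with
    | nil => simp [dotA]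
    | cons y X =>
      rw [dotA, ms_eq, ih]
      refine Eq.trans ?_ (Fin.sum_univ_succ _).symm
      simp only [Fin.val_zero, Fin.val_succ, List.getD_cons_zero, List.getD_cons_succ, nthN]

lemma rowT_sum (p : ℕ) {m n : ℕ} (a : List ℤ) (ha : a.length = n) (ρ : List ℤ) (hρ : ρ.length = m)
    (XL : List (List ℕ)) :
    rowT p a ρ XL = ∑ c : Fin m, red p (ρ.getD c.val 0) *
      ∑ j : Fin n, red p (a.getD j.val 0) * nthN (XL.getD c.val []) j.val := by
  subst hρ
  induction ρ generalizing XL with
  | nil => simp [rowT]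
  | cons x ρ ih =>
    cases XL with
    | nil => simp [rowT]
    | cons y XL =>
      rw [rowT, ms_eq, ih, dotA_sum p a ha]
      refine Eq.trans ?_ (Fin.sum_univ_succ _).symm
      simp only [Fin.val_zero, Fin.val_succ, List.getD_cons_zero, List.getD_cons_succ]

lemma nthN_getElem {l : List ℕ} {j : ℕ} (hj : j < l.length) : nthN l j = l[j] := by
  induction l generalizing j with
  | nil => simp at hj
  | cons x l ih =>
    cases j with
    | zero => rfl
    | succ j => exact ih (by simpa using hj)

lemma ones_nth {m n c j : ℕ} (hc : c < m) (hj : j < n) : nthN ((ones m n).getD c []) j = 1 := by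
  unfold ones
  rw [List.getD_eq_getElem?_getD, List.getElem?_replicate, if_pos hc, Option.getD_some,
    nthN_getElem (by simpa using hj)]
  simp

lemma xOk0_nth {p w N : ℕ} (XL : List (List ℕ)) (h : XL.all (fun X => X.all (xOk0 p w N)) = true)
    (c j : ℕ) : xOk0 p w N (nthN (XL.getD c []) j) = true := by
  have h0 : xOk0 p w N 0 = true := by simp [xOk0]
  rw [List.getD_eq_getElem?_getD]
  rcases hX : XL[c]? with _ | X
  · simpa using h0
  · rw [Option.getD_some]
    rw [List.all_eq_true] at h
    have h1 := h X (List.mem_of_getElem? hX)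
    rw [List.all_eq_true] at h1
    by_cases hj : j < X.length
    · rw [nthN_getElem hj]
      exact h1 _ (List.getElem_mem hj)
    · have : nthN X j = 0 := by
        clear h1 hX
        induction X generalizing j with
        | nil => simp
        | cons x X ih =>
          cases j with
          | zero => simp at hj
          | succ j => exact ih j (by simpa using hj)
      rw [this]; exact h0

/-- the coefficient of a coordinate in the row of `(i, j, l)` -/
def cfQ (p i j l : ℕ) (e : Mo × Mo) (x : ℕ) : ℕ :=
  if x = l then red p (mn e.2.2 e.1.2 i j) else if x = j then red p (-mn e.2.2 e.1.2 i l) else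
    if x = i then red p (mn e.2.2 e.1.2 j l) else 0

lemma rowQ_eq {α : Type*} (F : α → Mo × Mo) {p i j l n : ℕ} (hij : i < j) (hjl : j < l) (hl : l < n)
    (L : List α) (XL : List (List ℕ)) :
    rowQ p i j l (L.map F) XL = ∑ x : Fin L.length × Fin n,
      cfQ p i j l (F (L.get x.1)) x.2.val * nthN (XL.getD x.1.val []) x.2.val := by
  rw [rowQ_sum, Fintype.sum_prod_type]
  refine Finset.sum_congr rfl fun c _ => ?_
  have hd : ∀ x : Fin n, cfQ p i j l (F (L.get c)) x.val * nthN (XL.getD c.val []) x.val =
      (if x = (⟨l, hl⟩ : Fin n) then red p (mn (F (L.get c)).2.2 (F (L.get c)).1.2 i j) *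
        nthN (XL.getD c.val []) l else 0) +
      ((if x = (⟨j, by omega⟩ : Fin n) then red p (-mn (F (L.get c)).2.2 (F (L.get c)).1.2 i l) *
        nthN (XL.getD c.val []) j else 0) +
      (if x = (⟨i, by omega⟩ : Fin n) then red p (mn (F (L.get c)).2.2 (F (L.get c)).1.2 j l) *
        nthN (XL.getD c.val []) i else 0)) := by
    intro x
    unfold cfQ
    simp only [Fin.ext_iff]
    by_cases h1 : x.val = l
    · have h2 : ¬ x.val = j := by omega
      have h3 : ¬ x.val = i := by omega
      rw [if_pos h1, if_pos h1, if_neg h2, if_neg h3, h1]; ring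
    · rw [if_neg h1, if_neg h1]
      by_cases h2 : x.val = j
      · have h3 : ¬ x.val = i := by omega
        rw [if_pos h2, if_pos h2, if_neg h3, h2]; ring
      · rw [if_neg h2, if_neg h2]
        by_cases h3 : x.val = i
        · rw [if_pos h3, if_pos h3, h3]; ring
        · rw [if_neg h3, if_neg h3]; ring
  simp only [hd]
  rw [Finset.sum_add_distrib, Finset.sum_add_distrib, Finset.sum_ite_eq', Finset.sum_ite_eq',
    Finset.sum_ite_eq', if_pos (Finset.mem_univ _), if_pos (Finset.mem_univ _),
    if_pos (Finset.mem_univ _)]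

/-- the coefficient is the determinant, modulo `p` -/
lemma cfQ_det {p i j l n : ℕ} (hp : 0 < p) (hij : i < j) (hjl : j < l) (hl : l < n) (e : Mo × Mo)
    (x : Fin n) : (p : ℤ) ∣ KC72.det3 (fun y : Fin n => e.2.2.getD y.val 0)
      (fun y : Fin n => e.1.2.getD y.val 0) (Pi.single x 1)
      (⟨i, by omega⟩, ⟨j, by omega⟩, ⟨l, hl⟩) - ((cfQ p i j l e x.val : ℕ) : ℤ) := by
  have hd : KC72.det3 (fun y : Fin n => e.2.2.getD y.val 0)
      (fun y : Fin n => e.1.2.getD y.val 0) (Pi.single x 1)
      ((⟨i, by omega⟩ : Fin n), (⟨j, by omega⟩ : Fin n), (⟨l, hl⟩ : Fin n)) =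
      if x.val = l then mn e.2.2 e.1.2 i j else if x.val = j then -mn e.2.2 e.1.2 i l else
        if x.val = i then mn e.2.2 e.1.2 j l else 0 := by
    unfold KC72.det3 mn
    simp only [nth_eq, Pi.single_apply, Fin.ext_iff]
    by_cases h1 : x.val = l
    · have h2 : ¬ j = x.val := by omega
      have h3 : ¬ i = x.val := by omega
      rw [if_pos h1, if_pos h1.symm, if_neg h2, if_neg h3]; ring
    · rw [if_neg h1, if_neg (fun h => h1 h.symm)]
      by_cases h2 : x.val = j
      · have h3 : ¬ i = x.val := by omega
        rw [if_pos h2, if_pos h2.symm, if_neg h3]; ring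
      · rw [if_neg h2, if_neg (fun h => h2 h.symm)]
        by_cases h3 : x.val = i
        · rw [if_pos h3, if_pos h3.symm]; ring
        · rw [if_neg h3, if_neg (fun h => h3 h.symm)]; ring
  rw [hd]
  unfold cfQ
  split_ifs
  · exact red_spec hp _
  · exact red_spec hp _
  · exact red_spec hp _
  · simp

lemma rowT_eq (p : ℕ) {m n : ℕ} (a : List ℤ) (ha : a.length = n) (ρ : List ℤ) (hρ : ρ.length = m)
    (XL : List (List ℕ)) :
    rowT p a ρ XL = ∑ x : Fin m × Fin n, (red p (ρ.getD x.1.val 0) * red p (a.getD x.2.val 0)) *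
      nthN (XL.getD x.1.val []) x.2.val := by
  rw [rowT_sum p a ha ρ hρ, Fintype.sum_prod_type]
  refine Finset.sum_congr rfl fun c _ => ?_
  rw [Finset.mul_sum]
  exact Finset.sum_congr rfl fun j _ => by ring

/-! ### entries of combinations -/

lemma axpy_getD (a : ℤ) (x y : List ℤ) (i : ℕ) :
    (axpy a x y).getD i 0 = a * x.getD i 0 + y.getD i 0 := by
  induction x generalizing y i with
  | nil => simp [axpy]
  | cons x xs ih =>
    cases y with
    | nil =>
      cases i with
      | zero => simp [axpy]
      | succ i =>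
        have := ih [] i
        simpa [axpy] using this
    | cons y ys =>
      cases i with
      | zero => simp [axpy]
      | succ i =>
        have := ih ys i
        simpa [axpy] using this

lemma comb_getD (c : List ℤ) {α : Type*} (L : List α) (f : α → List ℤ) (i : ℕ) {m : ℕ}
    (hm : L.length = m) :
    (comb c (L.map f)).getD i 0 = ∑ x : Fin L.length, c.getD x.val 0 * (f (L.get x)).getD i 0 := by
  clear hm
  induction c generalizing L with
  | nil => simp [comb]
  | cons c cs ih =>
    cases L with
    | nil => simp [comb]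
    | cons v vs =>
      rw [List.map_cons]
      refine Eq.trans ?_ (Fin.sum_univ_succ _).symm
      simp only [List.length_cons, Fin.val_zero, Fin.val_succ, List.getD_cons_zero,
        List.getD_cons_succ, List.get_eq_getElem, List.getElem_cons_zero, List.getElem_cons_succ]
      unfold comb
      split_ifs with h
      · rw [ih, h]; simp
      · rw [axpy_getD, ih]; simp

lemma isZ_getD {v : List ℤ} (h : isZ v = true) (i : ℕ) : v.getD i 0 = 0 := by
  induction v generalizing i with
  | nil => simp
  | cons x v ih =>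
    simp only [isZ, List.all_cons, Bool.and_eq_true, decide_eq_true_eq] at h
    cases i with
    | zero => simpa using h.1
    | succ i => simpa using ih h.2 i

/-- the pairs -/
def PL (r n : ℕ) : List (ℕ × ℕ) :=
  (List.range r).flatMap (fun i => ((List.range n).filter (fun l => i < l)).map (fun l => (i, l)))

lemma mem_PL {r n i l : ℕ} (hi : i < r) (hl : l < n) (h : i < l) : (i, l) ∈ PL r n := by
  unfold PL
  rw [List.mem_flatMap]
  refine ⟨i, List.mem_range.mpr hi, ?_⟩
  rw [List.mem_map]
  exact ⟨l, by rw [List.mem_filter]; exact ⟨List.mem_range.mpr hl, by simpa using h⟩, rfl⟩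

/-- the minors of a class -/
def mv (P : List (ℕ × ℕ)) (e : Mo × Mo) : List ℤ := P.map (fun x => mn e.2.2 e.1.2 x.1 x.2)

lemma mv_eq {α : Type*} {P : List (ℕ × ℕ)} (L : List α) (F : α → Mo × Mo) (D : ℤ) (e : Mo × Mo)
    (ρ : List ℤ) (h : isZ (axpy (-D) (mv P e) (comb ρ (L.map (fun i => mv P (F i))))) = true)
    {i l : ℕ} (hil : (i, l) ∈ P) :
    ∑ c : Fin L.length, ρ.getD c.val 0 * mn (F (L.get c)).2.2 (F (L.get c)).1.2 i l =
      D * mn e.2.2 e.1.2 i l := by
  obtain ⟨k, hk, he⟩ := List.getElem_of_mem hil
  have h1 := isZ_getD h k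
  rw [axpy_getD, comb_getD ρ L (fun i => mv P (F i)) k rfl] at h1
  have h2 : ∀ e : Mo × Mo, (mv P e).getD k 0 = mn e.2.2 e.1.2 i l := by
    intro e
    unfold mv
    rw [List.getD_eq_getElem?_getD, List.getElem?_map, List.getElem?_eq_getElem hk, he]
    rfl
  simp only [h2] at h1
  linarith

end Pool.Agent.MC
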