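import Pool.Agent.Lib_helper40.MC.C
import Pool.Agent.Lib_helper72.KC.X

/-!
# Closed elements from a modular certificate: the theorem
-/

set_option autoImplicit false
set_option linter.unusedSectionVars false
set_option linter.unusedVariables false

open scoped TensorProduct

namespace Pool.Agent.MC

open TN MK4 KC72

/-- the combination of basis classes -/
def rh (C : Cert) (c : ℕ) : List ℤ := (C.rho.getD c default).2.2

/-- the exponents in a trivial relation -/
def Ta (C : Cert) (t : ℕ × Bool) : List ℤ := if t.2 then (C.cl t.1).2.2 else (C.cl t.1).1.2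

/-- the coefficient of a coordinate in the row of `(i, j, l)` -/
def cz (i j l : ℕ) (e : Mo × Mo) (x : ℕ) : ℤ :=
  if x = l then mn e.2.2 e.1.2 i j else if x = j then -mn e.2.2 e.1.2 i l else
    if x = i then mn e.2.2 e.1.2 j l else 0

lemma det3_cz {i j l n : ℕ} (hij : i < j) (hjl : j < l) (hl : l < n) (e : Mo × Mo)
    (x : Fin n) : KC72.det3 (fun y : Fin n => e.2.2.getD y.val 0)
      (fun y : Fin n => e.1.2.getD y.val 0) (Pi.single x 1)
      ((⟨i, by omega⟩ : Fin n), (⟨j, by omega⟩ : Fin n), (⟨l, hl⟩ : Fin n)) =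
      cz i j l e x.val := by
  unfold KC72.det3 cz
  simp only [nth_eq, Pi.single_apply, Fin.ext_iff, mn]
  by_cases h1 : x.val = l
  · have h2 : ¬ j = x.val := by omega
    have h3 : ¬ i = x.val := by omega
    rw [if_pos h1, if_pos h1.symm, if_neg h2, if_neg h3]; ring
  · rw [if_neg h1, if_neg (fun h => h1 h.symm)]
    by_cases h2 : x.val = j
    · have h3 : ¬ i = x.val := by omega
      rw [if_pos h2, if_pos h2.symm, if_neg h3]; ring
    · rw [if_neg h2, if_neg (fun h => h2 h.symm)]
      by_cases h3 : x.val = i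
      · rw [if_pos h3, if_pos h3.symm]; ring
      · rw [if_neg h3, if_neg (fun h => h3 h.symm)]; ring

/-- the two ranks -/
structure OkN (C : Cert) (Q : List (ℕ × ℕ × ℕ)) (T : List (ℕ × Bool)) : Prop where
  rn : C.r ≤ C.n
  DG : C.DG ≠ 0
  c3 : ∀ c < C.bas.length, ∀ c' < C.bas.length, C.chk3 c c' = true
  c3' : C.chk3' = true
  c7 : C.chk7 = true
  card : Q.length + T.length = C.bas.length * C.n
  q0 : ∀ q ∈ Q, q.1 < q.2.1 ∧ q.2.1 < q.2.2 ∧ q.2.1 < C.r ∧ q.2.2 < C.n
  t0 : ∀ t ∈ T, t.1 < C.cls.length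
  liQ : LinearIndependent ℚ (fun (q : Fin Q.length) => fun (x : Fin C.bas.length × Fin C.n) =>
    ((cz (Q.get q).1 (Q.get q).2.1 (Q.get q).2.2 (C.cl (C.bas.get x.1)) x.2.val : ℤ) : ℚ))
  liT : LinearIndependent ℚ (fun (t : Fin T.length) => fun (x : Fin C.bas.length × Fin C.n) =>
    (((rh C (T.get t).1).getD x.1.val 0 * (Ta C (T.get t)).getD x.2.val 0 : ℤ) : ℚ))
  td : ∀ t ∈ T, ∀ i l, i < C.r → l < C.n →
    ∑ c : Fin C.bas.length, (rh C t.1).getD c.val 0 * mn (C.cl (C.bas.get c)).2.2
      (C.cl (C.bas.get c)).1.2 i l = (C.rho.getD t.1 default).1 * mn (C.cl t.1).2.2 (C.cl t.1).1.2 i l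

lemma det3_lin {n : ℕ} (b a α : Fin n → ℤ) (q : Fin n × Fin n × Fin n) :
    ∑ j, det3 b a (Pi.single j 1) q * α j = det3 b a α q := by
  have key : ∀ l, ∑ j, α j * (Pi.single j 1 : Fin n → ℤ) l = α l := by
    intro l
    simp [Pi.single_apply]
  unfold det3
  rw [← key q.1, ← key q.2.1, ← key q.2.2]
  simp only [Finset.mul_sum, Finset.sum_mul, ← Finset.sum_sub_distrib, ← Finset.sum_add_distrib]
  exact Finset.sum_congr rfl fun j _ => by ring

section

variable {k : Type*} [Field k] {F : Type*} [Field F] [Algebra k F]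

/-- **closed elements from a certificate** -/
theorem cert_mainM [CharZero F] (C : Cert) {Q : List (ℕ × ℕ × ℕ)} {T : List (ℕ × Bool)}
    (hC : OkN C Q T) {G : Fin C.n → F} (hG : ∀ i, G i ≠ 0)
    (hρ : ∀ c < C.cls.length, (C.rho.getD c default).1 ≠ 0 ∧
      ((C.rho.getD c default).1 : ℚ) • (EW k (List.ofFn G) C.cls).getD c 0 =
        pl (Bl C k (List.ofFn G)) (C.rho.getD c default).2.2)
    (hk : ∀ x ∈ (List.ofFn G).drop C.r, ∃ c : k, x = algebraMap k F c)
    (hI : ∀ q : Fin C.n → ℚ, ∑ i, q i • lg (G i) ∈ V0 k F → ∀ i : Fin C.n, i.val < C.r → q i = 0)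
    (hJ : LinearIndependent ℚ (fun i => lg (G i)))
    (H : Sols (List.ofFn G) C.cls) (u : Fin C.cls.length → FT F) {κ : HK F} (hκ : κ ∈ KC k F)
    (hc : Closed (∑ c, MK4.hk (sy (ev (List.ofFn G) (C.cls.get c).1)) (u c) + κ)) :
    (KC k F).mkQ (∑ c, MK4.hk (sy (ev (List.ofFn G) (C.cls.get c).1)) (u c)) = 0 := by
  classical
  set g := List.ofFn G with hgdef
  have hg : ∀ x ∈ g, x ≠ 0 := by
    intro x hx
    rw [hgdef, List.mem_ofFn] at hx
    obtain ⟨i, rfl⟩ := hx
    exact hG i
  -- the basis classes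
  have h7 := hC.c7
  unfold Cert.chk7 at h7
  rw [List.all_eq_true] at h7
  have h7' : ∀ i : Fin C.bas.length, C.bas.get i < C.cls.length ∧
      (C.cl (C.bas.get i)).1.2.length = C.n ∧ (C.cl (C.bas.get i)).2.2.length = C.n := by
    intro i
    have := h7 (C.bas.get i) (List.get_mem _ _)
    simp only [Bool.and_eq_true, decide_eq_true_eq] at this
    exact ⟨this.1.1, this.1.2, this.2⟩
  set B : Fin C.bas.length → FT F →ₗ[ℚ] (HK F ⧸ KC k F) :=
    fun i => TT F k (sy (ev g (C.cl (C.bas.get i)).1)) with hB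
  have hBl : Bl C k g = List.ofFn B := by
    unfold Bl
    refine List.ext_getElem (by simp) fun i h1 h2 => ?_
    rw [List.getElem_map, List.getElem_ofFn]
    have h3 : i < C.bas.length := by simpa using h1
    exact EW_getD (k := k) (g := g) (h7' ⟨i, h3⟩).1
  -- expansion of the classes
  have hexp : ∀ (c : Fin C.cls.length) (x : FT F),
      TT F k (sy (ev g (C.cls.get c).1)) x = ∑ i, B i
        ((((C.rho.getD c.val default).2.2.getD i.val 0 : ℤ) : ℚ) •
          (((C.rho.getD c.val default).1 : ℚ)⁻¹ • x)) := by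
    intro c x
    obtain ⟨h1, h2⟩ := hρ c.val c.isLt
    rw [EW_getD c.isLt, hBl, pl_ofFn] at h2
    have h3 : (C.cls.getD c.val default) = C.cls.get c := by
      rw [List.getD_eq_getElem?_getD, List.getElem?_eq_getElem c.isLt]
      rfl
    rw [h3] at h2
    have h4 : ((C.rho.getD c.val default).1 : ℚ) ≠ 0 := by exact_mod_cast h1
    have h5 : TT F k (sy (ev g (C.cls.get c).1)) =
        ((C.rho.getD c.val default).1 : ℚ)⁻¹ • ∑ i, (((C.rho.getD c.val default).2.2.getD i.val 0
          : ℤ) : ℚ) • B i := by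
      rw [← h2, smul_smul, inv_mul_cancel₀ h4, one_smul]
    rw [h5, LinearMap.smul_apply, LinearMap.sum_apply, Finset.smul_sum]
    refine Finset.sum_congr rfl fun i _ => ?_
    rw [LinearMap.smul_apply, map_smul, map_smul, smul_comm]
  set u' : Fin C.bas.length → FT F := fun i => ∑ c, (((C.rho.getD c.val default).2.2.getD i.val 0
    : ℤ) : ℚ) • (((C.rho.getD c.val default).1 : ℚ)⁻¹ • u c) with hu'
  have e1 : (KC k F).mkQ (∑ c, MK4.hk (sy (ev g (C.cls.get c).1)) (u c)) = ∑ i, B i (u' i) := by
    rw [map_sum]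
    have : ∀ c, (KC k F).mkQ (MK4.hk (sy (ev g (C.cls.get c).1)) (u c)) =
        TT F k (sy (ev g (C.cls.get c).1)) (u c) := fun c => rfl
    simp only [this, hexp]
    rw [Finset.sum_comm]
    refine Finset.sum_congr rfl fun i _ => ?_
    rw [hu', map_sum]
  -- the element of `KC`
  set z' : HK F := ∑ i, MK4.hk (sy (ev g (C.cl (C.bas.get i)).1)) (u' i) with hz'
  have e2 : (KC k F).mkQ z' = ∑ i, B i (u' i) := by
    rw [hz', map_sum]; rfl
  set κ' : HK F := (∑ c, MK4.hk (sy (ev g (C.cls.get c).1)) (u c)) + κ - z' with hκ'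
  have hκm : κ' ∈ KC k F := by
    rw [← Submodule.ker_mkQ (KC k F), LinearMap.mem_ker, hκ', map_sub, map_add, e1, e2,
      (Submodule.Quotient.mk_eq_zero _).mpr hκ |> fun h => (show (KC k F).mkQ κ = 0 from h)]
    abel
  have hc' : Closed (z' + κ') := by
    rw [hκ', add_sub_cancel]
    exact hc
  rw [closed_dE, map_add, hz', map_sum] at hc'
  -- logarithms
  have hl : ∀ (i : Fin C.bas.length), lg (ev g (C.cl (C.bas.get i)).1) =
      ∑ j : Fin C.n, (((C.cl (C.bas.get i)).1.2.getD j.val 0 : ℤ) : ℚ) • lg (G j) := by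
    intro i
    rw [lg_ev hg, hgdef, List.map_ofFn, pl_ofFn]
    rfl
  have hl' : ∀ (i : Fin C.bas.length), lg (1 - ev g (C.cl (C.bas.get i)).1) =
      ∑ j : Fin C.n, (((C.cl (C.bas.get i)).2.2.getD j.val 0 : ℤ) : ℚ) • lg (G j) := by
    intro i
    have hS := H.getD (h7' i).1
    have e : 1 - ev g (C.cl (C.bas.get i)).1 = ev g (C.cl (C.bas.get i)).2 := by
      unfold Cert.cl
      linear_combination -hS
    rw [e, lg_ev hg, hgdef, List.map_ofFn, pl_ofFn]
    rfl
  simp only [dE_sy, hl, hl'] at hc'
  -- functionals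
  obtain ⟨φ₀, hφ₀, hd₀⟩ := exists_dual (n := C.r) (V0 k F)
    (fun i => lg (G (Fin.castLE hC.rn i))) (by
      intro q hq
      have h1 : ∑ i : Fin C.r, q i • lg (G (Fin.castLE hC.rn i)) =
          ∑ j : Fin C.n, (if h : j.val < C.r then q ⟨j.val, h⟩ else 0) • lg (G j) := by
        rw [← Finset.sum_subset (Finset.subset_univ
          (Finset.univ.map (Fin.castLEEmb hC.rn)))]
        · rw [Finset.sum_map]
          refine Finset.sum_congr rfl fun i _ => ?_
          have : (Fin.castLEEmb hC.rn i).val < C.r := by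
            simp
          rw [dif_pos this]
          rfl
        · intro j _ hj
          have : ¬ j.val < C.r := by
            intro h
            apply hj
            rw [Finset.mem_map]
            exact ⟨⟨j.val, h⟩, Finset.mem_univ _, Fin.ext rfl⟩
          rw [dif_neg this, zero_smul]
      rw [h1] at hq
      funext i
      have := hI _ hq (Fin.castLE hC.rn i) (by simp)
      simpa using this)
  set φ : Fin C.n → FT F →ₗ[ℚ] ℚ := fun j => if h : j.val < C.r then φ₀ ⟨j.val, h⟩ else 0 with hφd
  have hφ0 : ∀ (j : Fin C.n) (w : FT F), w ∈ V0 k F → φ j w = 0 := by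
    intro j w hw
    rw [hφd]
    by_cases h : j.val < C.r
    · simp only [dif_pos h]; exact hφ₀ _ _ hw
    · simp only [dif_neg h]; rfl
  have hφ : ∀ i j : Fin C.n, i.val < C.r → φ i (lg (G j)) = if i = j then 1 else 0 := by
    intro i j hi
    by_cases hj : j.val < C.r
    · have h1 := hd₀ ⟨i.val, hi⟩ ⟨j.val, hj⟩
      rw [hφd]
      simp only [dif_pos hi]
      have e : Fin.castLE hC.rn ⟨j.val, hj⟩ = j := Fin.ext rfl
      rw [e] at h1
      rw [h1]
      by_cases hij : i = j
      · subst hij; simp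
      · rw [if_neg, if_neg hij]
        intro h
        apply hij
        rw [Fin.mk.injEq] at h
        exact Fin.ext h
    · rw [if_neg (by rintro rfl; exact hj hi)]
      apply hφ0
      obtain ⟨c, hc1⟩ := hk (G j) (by
        rw [hgdef, List.mem_drop_iff_getElem]
        refine ⟨j.val - C.r, by simp; omega, ?_⟩
        rw [List.getElem_ofFn]
        congr 1
        apply Fin.ext
        simp only
        omega)
      rw [hc1]
      exact lg_mem_V0 c
  -- coordinates
  have h3' := hC.c3'
  unfold Cert.chk3' at h3'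
  simp only [List.all_eq_true, Bool.and_eq_true, decide_eq_true_eq] at h3'
  have rn := hC.rn
  have q0 : ∀ q : Fin Q.length, (Q.get q).1 < (Q.get q).2.1 ∧
      (Q.get q).2.1 < (Q.get q).2.2 ∧ (Q.get q).2.1 < C.r ∧ (Q.get q).2.2 < C.n :=
    fun q => hC.q0 _ (List.get_mem _ _)
  have t0 : ∀ t : Fin T.length, (T.get t).1 < C.cls.length := fun t => hC.t0 _ (List.get_mem _ _)
  have hfin := abs_closedM (n := C.n) (m := C.bas.length) (S := Q.length) (K := T.length) C.r
    (fun i => lg (G i)) hJ φ hφ
    (fun i j => (C.cl (C.bas.get i)).1.2.getD j.val 0)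
    (fun i j => (C.cl (C.bas.get i)).2.2.getD j.val 0) B C.DG hC.DG
    (fun c i j => ((C.G.getD c.val []).map (fun e => if e.1 = i.val ∧ e.2.1 = j.val then e.2.2
      else 0)).sum)
    (by
      intro c i j hne
      by_contra hcon
      apply hne
      apply List.sum_eq_zero
      intro x hx
      rw [List.mem_map] at hx
      obtain ⟨e, he, rfl⟩ := hx
      rw [if_neg]
      rintro ⟨h1, h2⟩
      apply hcon
      have hmem : C.G.getD c.val [] ∈ C.G := by
        rw [List.getD_eq_getElem?_getD] at he ⊢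
        rcases hgo : C.G[c.val]? with _ | l
        · rw [hgo] at he; simp at he
        · simpa using List.mem_of_getElem? hgo
      have := h3' _ hmem e he
      rw [← h1, ← h2]
      exact this)
    (by
      intro c c'
      have h1 := hC.c3 c.val c.isLt c'.val c'.isLt
      unfold Cert.chk3 at h1
      rw [decide_eq_true_eq] at h1
      have h2 : C.bas.getD c'.val 0 = C.bas.get c' := by
        rw [List.getD_eq_getElem?_getD, List.getElem?_eq_getElem c'.isLt]; rfl
      rw [h2] at h1
      have h3 : (if c = c' then C.DG else 0) = if c.val = c'.val then C.DG else 0 := by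
        simp only [Fin.ext_iff]
      rw [h3, ← h1]
      have hmem : ∀ e ∈ C.G.getD c.val [], e.1 < C.r ∧ e.2.1 < C.r := by
        intro e he
        have hmem : C.G.getD c.val [] ∈ C.G := by
          rw [List.getD_eq_getElem?_getD] at he ⊢
          rcases hgo : C.G[c.val]? with _ | l
          · rw [hgo] at he; simp at he
          · simpa using List.mem_of_getElem? hgo
        exact h3' _ hmem e he
      have gen : ∀ (X : ℕ → ℕ → ℤ) (L : List (ℕ × ℕ × ℤ)), (∀ e ∈ L, e.1 < C.r ∧ e.2.1 < C.r) →
          ∑ i : Fin C.n, ∑ j : Fin C.n, (L.map (fun e => if e.1 = i.val ∧ e.2.1 = j.val then e.2.2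
            else 0)).sum * X i.val j.val = (L.map (fun e => e.2.2 * X e.1 e.2.1)).sum := by
        intro X L hL
        induction L with
        | nil => simp
        | cons e L ih =>
          rw [List.map_cons, List.sum_cons, ← ih fun e' he' => hL e' (by simp [he'])]
          obtain ⟨l1, l2⟩ := hL e (by simp)
          have h5 : e.2.2 * X e.1 e.2.1 = ∑ i : Fin C.n, ∑ j : Fin C.n,
              (if e.1 = i.val ∧ e.2.1 = j.val then e.2.2 else 0) * X i.val j.val := by
            rw [Finset.sum_eq_single ⟨e.1, by omega⟩]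
            · rw [Finset.sum_eq_single ⟨e.2.1, by omega⟩]
              · simp
              · intro j _ hj
                rw [if_neg, zero_mul]
                rintro ⟨-, h6⟩
                exact hj (Fin.ext h6.symm)
              · intro h; exact absurd (Finset.mem_univ _) h
            · intro i _ hi
              refine Finset.sum_eq_zero fun j _ => ?_
              rw [if_neg, zero_mul]
              rintro ⟨h6, -⟩
              exact hi (Fin.ext h6.symm)
            · intro h; exact absurd (Finset.mem_univ _) h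
          rw [h5, ← Finset.sum_add_distrib]
          refine Finset.sum_congr rfl fun i _ => ?_
          rw [← Finset.sum_add_distrib]
          refine Finset.sum_congr rfl fun j _ => ?_
          rw [List.map_cons, List.sum_cons, add_mul]
      exact gen (fun i j => min2 (C.cl (C.bas.get c')).2.2 (C.cl (C.bas.get c')).1.2 i j) _ hmem)
    ⊥ (fun q => (⟨(Q.get q).1, by have := q0 q; omega⟩,
      ⟨(Q.get q).2.1, by have := q0 q; omega⟩, ⟨(Q.get q).2.2, (q0 q).2.2.2⟩))
    (fun q => ⟨(q0 q).1.trans (q0 q).2.2.1, (q0 q).2.2.1⟩)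
    (fun t x => (rh C (T.get t).1).getD x.1.val 0 * (Ta C (T.get t)).getD x.2.val 0)
    (by
      intro t
      rw [Submodule.mem_bot]
      set ρ := rh C (T.get t).1 with hρ'
      set α := Ta C (T.get t) with hα
      have h7 := t0 t
      obtain ⟨D0, hD0⟩ := hρ _ h7
      rw [EW_getD h7, hBl, pl_ofFn] at hD0
      have e1 : ∑ x : Fin C.bas.length × Fin C.n,
          (((ρ.getD x.1.val 0 * α.getD x.2.val 0 : ℤ)) : ℚ) • B x.1 (lg (G x.2)) =
          (∑ i : Fin C.bas.length, ((ρ.getD i.val 0 : ℤ) : ℚ) • B i)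
            (∑ j : Fin C.n, ((α.getD j.val 0 : ℤ) : ℚ) • lg (G j)) := by
        rw [Fintype.sum_prod_type, LinearMap.sum_apply]
        refine Finset.sum_congr rfl fun i _ => ?_
        rw [LinearMap.smul_apply, map_sum, Finset.smul_sum]
        refine Finset.sum_congr rfl fun j _ => ?_
        rw [map_smul, smul_smul]
        push_cast
        rfl
      rw [e1]
      have e2 : (∑ i : Fin C.bas.length, ((ρ.getD i.val 0 : ℤ) : ℚ) • B i) =
          ((C.rho.getD (T.get t).1 default).1 : ℚ) •
            TT F k (sy (ev (List.ofFn G) (C.cls.getD (T.get t).1 default).1)) := hD0.symm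
      rw [e2, LinearMap.smul_apply]
      have hS := H.getD h7
      set f := ev (List.ofFn G) (C.cls.getD (T.get t).1 default).1 with hf
      have f0 : f ≠ 0 := ev_ne hg _
      have f1 : f ≠ 1 := by
        intro h
        apply ev_ne hg (C.cls.getD (T.get t).1 default).2
        linear_combination hS - h
      have z : TT F k (sy f) (∑ j : Fin C.n, ((α.getD j.val 0 : ℤ) : ℚ) • lg (G j)) = 0 := by
        rw [TT_apply]
        have e3 : ∑ j : Fin C.n, ((α.getD j.val 0 : ℤ) : ℚ) • lg (G j) =
            pl ((List.ofFn G).map lg) α := by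
          rw [List.map_ofFn, pl_ofFn]; rfl
        by_cases hb : (T.get t).2 = true
        · have e4 : pl ((List.ofFn G).map lg) α = lg (1 - f) := by
            have e2 : (1 - f) = ev (List.ofFn G) (C.cls.getD (T.get t).1 default).2 := by
              linear_combination -hS
            rw [e2, lg_ev hg, hα]
            unfold Ta
            rw [if_pos hb]
            rfl
          rw [e3, e4, hk_compl f0 f1, map_zero]
        · have e4 : pl ((List.ofFn G).map lg) α = lg f := by
            rw [hf, lg_ev hg, hα]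
            unfold Ta
            rw [if_neg hb]
            rfl
          rw [e3, e4, hk_self f0 f1, map_zero]
      rw [z, smul_zero])
    (by
      intro t q
      obtain ⟨h1, h2, h3, h4⟩ := q0 q
      have hd := hC.td _ (List.get_mem T t)
      have d1 := hd (Q.get q).1 (Q.get q).2.1 (by omega) (by omega)
      have d2 := hd (Q.get q).1 (Q.get q).2.2 (by omega) h4
      have d3 := hd (Q.get q).2.1 (Q.get q).2.2 h3 h4
      rw [Fintype.sum_prod_type]
      have e1 : ∀ c : Fin C.bas.length, ∑ j : Fin C.n,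
          det3 (fun j : Fin C.n => (C.cl (C.bas.get c)).2.2.getD j.val 0)
            (fun j : Fin C.n => (C.cl (C.bas.get c)).1.2.getD j.val 0) (Pi.single j 1)
            (⟨(Q.get q).1, by omega⟩, ⟨(Q.get q).2.1, by omega⟩, ⟨(Q.get q).2.2, h4⟩) *
            ((rh C (T.get t).1).getD c.val 0 * (Ta C (T.get t)).getD j.val 0) =
          (rh C (T.get t).1).getD c.val 0 *
            (mn (C.cl (C.bas.get c)).2.2 (C.cl (C.bas.get c)).1.2 (Q.get q).1 (Q.get q).2.1 *
              (Ta C (T.get t)).getD (Q.get q).2.2 0 -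
            mn (C.cl (C.bas.get c)).2.2 (C.cl (C.bas.get c)).1.2 (Q.get q).1 (Q.get q).2.2 *
              (Ta C (T.get t)).getD (Q.get q).2.1 0 +
            mn (C.cl (C.bas.get c)).2.2 (C.cl (C.bas.get c)).1.2 (Q.get q).2.1 (Q.get q).2.2 *
              (Ta C (T.get t)).getD (Q.get q).1 0) := by
        intro c
        have h5 := det3_lin (fun j : Fin C.n => (C.cl (C.bas.get c)).2.2.getD j.val 0)
            (fun j : Fin C.n => (C.cl (C.bas.get c)).1.2.getD j.val 0)
            (fun j : Fin C.n => (Ta C (T.get t)).getD j.val 0)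
            (⟨(Q.get q).1, by omega⟩, ⟨(Q.get q).2.1, by omega⟩, ⟨(Q.get q).2.2, h4⟩)
        have h6 : ∀ X : Fin C.n → ℤ, ∑ j : Fin C.n, X j *
            ((rh C (T.get t).1).getD c.val 0 * (Ta C (T.get t)).getD j.val 0) =
            (rh C (T.get t).1).getD c.val 0 * ∑ j : Fin C.n, X j *
              (Ta C (T.get t)).getD j.val 0 := by
          intro X
          rw [Finset.mul_sum]
          exact Finset.sum_congr rfl fun j _ => by ring
        rw [h6, h5]
        unfold det3 mn
        simp only [nth_eq]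
        ring
      simp only [e1]
      have e2 : ∀ (X Y Z : Fin C.bas.length → ℤ) (x y z : ℤ),
          ∑ c : Fin C.bas.length, (rh C (T.get t).1).getD c.val 0 *
            (X c * x - Y c * y + Z c * z) =
          (∑ c : Fin C.bas.length, (rh C (T.get t).1).getD c.val 0 * X c) * x -
          (∑ c : Fin C.bas.length, (rh C (T.get t).1).getD c.val 0 * Y c) * y +
          (∑ c : Fin C.bas.length, (rh C (T.get t).1).getD c.val 0 * Z c) * z := by
        intro X Y Z x y z
        rw [Finset.sum_mul, Finset.sum_mul, Finset.sum_mul, ← Finset.sum_sub_distrib,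
          ← Finset.sum_add_distrib]
        exact Finset.sum_congr rfl fun c _ => by ring
      rw [e2, d1, d2, d3]
      unfold Ta mn
      simp only [nth_eq]
      split_ifs <;> ring)
    hC.card
    (by
      have e : (fun (q : Fin Q.length) => fun (x : Fin C.bas.length × Fin C.n) =>
          ((det3 (fun j : Fin C.n => (C.cl (C.bas.get x.1)).2.2.getD j.val 0)
            (fun j : Fin C.n => (C.cl (C.bas.get x.1)).1.2.getD j.val 0) (Pi.single x.2 1)
            (⟨(Q.get q).1, by have := q0 q; omega⟩, ⟨(Q.get q).2.1, by have := q0 q; omega⟩,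
              ⟨(Q.get q).2.2, (q0 q).2.2.2⟩) : ℤ) : ℚ)) =
          fun (q : Fin Q.length) => fun (x : Fin C.bas.length × Fin C.n) =>
          ((cz (Q.get q).1 (Q.get q).2.1 (Q.get q).2.2 (C.cl (C.bas.get x.1)) x.2.val : ℤ) : ℚ) := by
        funext q x
        exact congrArg (Int.cast : ℤ → ℚ) (det3_cz (q0 q).1 (q0 q).2.1 (q0 q).2.2.2
          (C.cl (C.bas.get x.1)) x.2)
      rw [e]
      exact hC.liQ)
    hC.liT
    u' (dE F κ') (fun i j _ _ => ct_KC (hφ0 i) (hφ0 j) hκm) hc'
  rw [e1]
  exact (Submodule.mem_bot ℚ).mp hfin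

end

end Pool.Agent.MC
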