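import Pool.Agent.Lib_helper40.MC.D
import Pool.Agent.Lib_helper72.KC.P

/-!
# Closed elements from a modular certificate: functions for the kernel
-/

set_option autoImplicit false
set_option linter.unusedSectionVars false
set_option linter.unusedVariables false

namespace Pool.Agent.MC

open KC72 (Mo min2 axpy comb isZ outer pk decN)

/-! ### masks -/

/-- the digits `2 ^ a - 2 ^ c` -/
def mk (a c : ℕ) : ℕ → ℕ
  | 0 => 0
  | N + 1 => (2 ^ a - 2 ^ c) + 2 ^ a * mk a c N

lemma and_small {a c x : ℕ} (hc : c ≤ a) (hx : x < 2 ^ a) (h : x &&& (2 ^ a - 2 ^ c) = 0) :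
    x < 2 ^ c := by
  have h1 : (x &&& (2 ^ a - 2 ^ c)) / 2 ^ c = 0 := by rw [h, Nat.zero_div]
  rw [Nat.and_div_two_pow] at h1
  have h2 : (2 ^ a - 2 ^ c) / 2 ^ c = 2 ^ (a - c) - 1 := by
    have : 2 ^ a = 2 ^ c * 2 ^ (a - c) := by rw [← pow_add]; congr 1; omega
    rw [this, show 2 ^ c * 2 ^ (a - c) - 2 ^ c = 2 ^ c * (2 ^ (a - c) - 1) by
      rw [Nat.mul_sub, mul_one], Nat.mul_div_cancel_left _ (by positivity)]
  rw [h2, Nat.and_two_pow_sub_one_eq_mod] at h1
  have h3 : x / 2 ^ c < 2 ^ (a - c) := by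
    rw [Nat.div_lt_iff_lt_mul (by positivity), ← pow_add]
    rwa [show a - c + c = a by omega]
  rw [Nat.mod_eq_of_lt h3] at h1
  exact (Nat.div_eq_zero_iff_lt (by positivity)).mp h1

lemma mk_spec {a c : ℕ} (hc : c ≤ a) {N E : ℕ} (h : E &&& mk a c N = 0) :
    ∀ s < N, E / (2 ^ a) ^ s % 2 ^ a < 2 ^ c := by
  induction N generalizing E with
  | zero => exact fun s hs => absurd hs (Nat.not_lt_zero _)
  | succ N ih =>
    intro s hs
    have hlt : 2 ^ a - 2 ^ c < 2 ^ a := Nat.sub_lt (by positivity) (by positivity)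
    cases s with
    | zero =>
      rw [pow_zero, Nat.div_one]
      have h1 : (E &&& mk a c (N + 1)) % 2 ^ a = 0 := by rw [h, Nat.zero_mod]
      rw [Nat.and_mod_two_pow, mk, Nat.add_mul_mod_self_left, Nat.mod_eq_of_lt hlt] at h1
      exact and_small hc (Nat.mod_lt _ (by positivity)) h1
    | succ s =>
      have h1 : (E &&& mk a c (N + 1)) / 2 ^ a = 0 := by rw [h, Nat.zero_div]
      rw [Nat.and_div_two_pow, mk, Nat.add_mul_div_left _ _ (by positivity),
        Nat.div_eq_of_lt hlt, zero_add] at h1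
      have := ih h1 s (by omega)
      rwa [Nat.div_div_eq_div_mul, ← pow_succ'] at this

/-- the mask in closed form -/
def mkc (a c N : ℕ) : ℕ :=
  Nat.mul (Nat.sub (Nat.pow 2 a) (Nat.pow 2 c))
    (Nat.div (Nat.sub (Nat.pow (Nat.pow 2 a) N) 1) (Nat.sub (Nat.pow 2 a) 1))

lemma mkc_eq {a : ℕ} (ha : 0 < a) (c N : ℕ) : mkc a c N = mk a c N := by
  have hb : 2 ≤ 2 ^ a := by
    calc 2 = 2 ^ 1 := rfl
      _ ≤ 2 ^ a := Nat.pow_le_pow_right (by norm_num) ha
  show (2 ^ a - 2 ^ c) * (((2 ^ a) ^ N - 1) / (2 ^ a - 1)) = mk a c N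
  rw [← Nat.geomSum_eq hb]
  induction N with
  | zero => simp [mk]
  | succ N ih =>
    rw [Finset.sum_range_succ', mk, ← ih]
    simp only [pow_succ, pow_zero, ← Finset.sum_mul]
    ring

/-- the table entries are small -/
def xm (a c N X : ℕ) : Bool := Nat.blt X (Nat.pow (Nat.pow 2 a) N) && Nat.beq (Nat.land X (mkc a c N)) 0

lemma xm_spec {a c : ℕ} (ha : 0 < a) (hc : c ≤ a) {N X : ℕ} (h : xm a c N X = true) :
    X < (2 ^ a) ^ N ∧ ∀ s < N, X / (2 ^ a) ^ s % 2 ^ a < 2 ^ c := by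
  unfold xm at h
  rw [Bool.and_eq_true] at h
  refine ⟨?_, mk_spec hc ?_⟩
  · have := h.1
    rw [Nat.blt_eq] at this
    exact this
  · rw [← mkc_eq ha]
    exact Nat.eq_of_beq_eq_true h.2

/-- the quotient of a row -/
def qt (p a q R : ℕ) : ℕ := Nat.div (Nat.sub R (Nat.pow (Nat.pow 2 a) q)) p

/-- the digits of `R` are `0` modulo `p`, but one of them, which is `1` -/
def rc (p a c N q R : ℕ) : Bool :=
  Nat.beq R (Nat.add (Nat.mul p (qt p a q R)) (Nat.pow (Nat.pow 2 a) q)) && xm a c N (qt p a q R)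

lemma rc_spec {p a c N q R : ℕ} (ha : 0 < a) (hc : c ≤ a) (hp : p * 2 ^ c < 2 ^ a) (hp0 : 1 < p) (hq : q < N)
    (h : rc p a c N q R = true) :
    ∀ s < N, (R / (2 ^ a) ^ s % 2 ^ a) % p = if s = q then 1 else 0 := by
  unfold rc at h
  rw [Bool.and_eq_true] at h
  have h1 : R = p * qt p a q R + (2 ^ a) ^ q := Nat.eq_of_beq_eq_true h.1
  obtain ⟨h2, h3⟩ := xm_spec ha hc h.2
  set E := qt p a q R with hE
  have hw : 0 < 2 ^ a := by positivity
  have e1 := eq_sum_digits hw h2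
  have e2 : R = ∑ s ∈ Finset.range N, (p * (E / (2 ^ a) ^ s % 2 ^ a) + if s = q then 1 else 0) *
      (2 ^ a) ^ s := by
    rw [h1]
    simp only [add_mul, Finset.sum_add_distrib, ite_mul, one_mul, zero_mul]
    rw [Finset.sum_ite_eq', if_pos (Finset.mem_range.mpr hq)]
    congr 1
    conv_lhs => rw [e1]
    rw [Finset.mul_sum]
    exact Finset.sum_congr rfl fun s _ => by ring
  have hlt : ∀ s < N, (p * (E / (2 ^ a) ^ s % 2 ^ a) + if s = q then 1 else 0) < 2 ^ a := by
    intro s hs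
    have h4 := h3 s hs
    have h5 : p * (E / (2 ^ a) ^ s % 2 ^ a) + p ≤ p * 2 ^ c := by
      have := Nat.mul_le_mul_left p h4
      rwa [Nat.mul_succ] at this
    have h6 : (if s = q then 1 else 0) < p := by split_ifs <;> omega
    omega
  intro s hs
  have e3 := digit_sum hw (fun s => p * (E / (2 ^ a) ^ s % 2 ^ a) + if s = q then 1 else 0) hlt hs
  rw [← e2] at e3
  rw [e3, Nat.mul_add_mod]
  split_ifs
  · exact Nat.mod_eq_of_lt hp0
  · exact Nat.zero_mod _

/-- **independence from a packed right inverse** -/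
theorem li_of_mask {ι : Type*} [Fintype ι] {p a c d N : ℕ} (ha : 0 < a) (hp : 1 < p)
    (hc : c ≤ a) (hd : d ≤ a)
    (hpc : p * 2 ^ c < 2 ^ a)
    (v : Fin N → ι → ℤ) (A : Fin N → ι → ℕ) (hA : ∀ q x, (p : ℤ) ∣ v q x - (A q x : ℕ)) (X : ι → ℕ)
    (hX : ∀ x, xm a d N (X x) = true) (hwt : ∀ q, (∑ x, A q x) * (2 ^ d - 1) < 2 ^ a)
    (hrow : ∀ q : Fin N, rc p a c N q.val (∑ x, A q x * X x) = true) :
    LinearIndependent ℚ (fun q => fun x => ((v q x : ℤ) : ℚ)) := by
  have hw : 0 < 2 ^ a := by positivity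
  refine li_of_mod v (fun x s => ((X x / (2 ^ a) ^ s.val % 2 ^ a : ℕ) : ℤ)) hp fun q s => ?_
  have h1 : ∑ x, A q x * X x =
      ∑ s ∈ Finset.range N, (∑ x, A q x * (X x / (2 ^ a) ^ s % 2 ^ a)) * (2 ^ a) ^ s := by
    have h2 : ∀ x, A q x * X x =
        ∑ s ∈ Finset.range N, A q x * ((X x / (2 ^ a) ^ s % 2 ^ a) * (2 ^ a) ^ s) := by
      intro x
      conv_lhs => rw [eq_sum_digits hw (xm_spec ha hd (hX x)).1]
      rw [Finset.mul_sum]
    simp only [h2]
    rw [Finset.sum_comm]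
    refine Finset.sum_congr rfl fun s _ => ?_
    rw [Finset.sum_mul]
    exact Finset.sum_congr rfl fun x _ => by ring
  have h3 : ∀ s < N, (∑ x, A q x * (X x / (2 ^ a) ^ s % 2 ^ a)) < 2 ^ a := by
    intro s hs
    refine lt_of_le_of_lt ?_ (hwt q)
    rw [Finset.sum_mul]
    exact Finset.sum_le_sum fun x _ => Nat.mul_le_mul_left _
      (Nat.le_sub_one_of_lt ((xm_spec ha hd (hX x)).2 s hs))
  have h4 := rc_spec ha hc hpc hp q.isLt (hrow q) s.val s.isLt
  rw [h1, digit_sum hw _ h3 s.isLt] at h4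
  have h2 : (s.val = q.val) ↔ q = s := by
    rw [Fin.ext_iff]
    exact eq_comm
  simp only [h2] at h4
  have h3 : (p : ℤ) ∣ ((∑ x, A q x * (X x / (2 ^ a) ^ s.val % 2 ^ a) : ℕ) : ℤ) -
      if q = s then 1 else 0 := by
    have h5 : ((∑ x, A q x * (X x / (2 ^ a) ^ s.val % 2 ^ a) : ℕ) : ℤ) % p =
        if q = s then 1 else 0 := by
      rw [← Int.natCast_mod, h4]
      split_ifs <;> simp
    rw [← h5]
    exact Int.dvd_self_sub_emod
  have h6 : (p : ℤ) ∣ ∑ x, v q x * ((X x / (2 ^ a) ^ s.val % 2 ^ a : ℕ) : ℤ) -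
      ((∑ x, A q x * (X x / (2 ^ a) ^ s.val % 2 ^ a) : ℕ) : ℤ) := by
    push_cast
    rw [← Finset.sum_sub_distrib]
    refine Finset.dvd_sum fun x _ => ?_
    rw [← sub_mul]
    exact Dvd.dvd.mul_right (hA q x) _
  have h7 := dvd_add h6 h3
  rwa [sub_add_sub_cancel] at h7

/-! ### functions with recursors -/

/-- an entry -/
noncomputable def nr (l : List ℕ) (i : ℕ) : ℕ :=
  List.rec (motive := fun _ => ℕ → ℕ) (fun _ => 0)
    (fun x _ ih i => Nat.rec (motive := fun _ => ℕ) x (fun i _ => ih i) i) l i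

lemma nr_eq (l : List ℕ) (i : ℕ) : nr l i = nthN l i := by
  induction l generalizing i with
  | nil => simp [nr]
  | cons x l ih =>
    cases i with
    | zero => rfl
    | succ i => exact ih i

/-- `a X + acc` -/
noncomputable def mr (a X acc : ℕ) : ℕ :=
  Nat.rec (motive := fun _ => ℕ) acc (fun a _ => Nat.add (Nat.mul (Nat.succ a) X) acc) a

lemma mr_eq (a X acc : ℕ) : mr a X acc = a * X + acc := by
  cases a with
  | zero => show acc = 0 * X + acc; simp
  | succ a => rfl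

/-- a digit in base eight -/
def dg (W d : ℕ) : ℕ := Nat.mod (Nat.div W d) 8

/-- the row of the coordinate `(i, j, l)` from the packed residues of the minors -/
noncomputable def rQ (p i j l d1 d2 d3 : ℕ) (PR : List ℕ) (XL : List (List ℕ)) : ℕ :=
  List.rec (motive := fun _ => List (List ℕ) → ℕ) (fun _ => 0)
    (fun W _ ih XL => List.rec (motive := fun _ => ℕ) 0
      (fun X XL' _ => mr (dg W d1) (nr X l) (mr (Nat.mod (Nat.sub p (dg W d2)) p) (nr X j)
        (mr (dg W d3) (nr X i) (ih XL')))) XL) PR XL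

lemma rQ_nil (p i j l d1 d2 d3 : ℕ) (XL : List (List ℕ)) : rQ p i j l d1 d2 d3 [] XL = 0 := rfl

lemma rQ_nil' (p i j l d1 d2 d3 : ℕ) (W : ℕ) (PR : List ℕ) :
    rQ p i j l d1 d2 d3 (W :: PR) [] = 0 := rfl

lemma rQ_cons (p i j l d1 d2 d3 : ℕ) (W : ℕ) (PR : List ℕ) (X : List ℕ) (XL : List (List ℕ)) :
    rQ p i j l d1 d2 d3 (W :: PR) (X :: XL) =
      dg W d1 * nthN X l + ((p - dg W d2) % p * nthN X j + (dg W d3 * nthN X i +
        rQ p i j l d1 d2 d3 PR XL)) := by
  show mr (dg W d1) (nr X l) (mr (Nat.mod (Nat.sub p (dg W d2)) p) (nr X j)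
        (mr (dg W d3) (nr X i) (rQ p i j l d1 d2 d3 PR XL))) = _
  rw [mr_eq, mr_eq, mr_eq, nr_eq, nr_eq, nr_eq]
  rfl

lemma red_lt {p : ℕ} (hp : 0 < p) (z : ℤ) : red p z < p := by
  unfold red
  have h1 := Int.emod_lt_of_pos z (show (0 : ℤ) < p by exact_mod_cast hp)
  have h2 := Int.emod_nonneg z (show (p : ℤ) ≠ 0 by exact_mod_cast hp.ne')
  omega

lemma red_neg {p : ℕ} (hp : 0 < p) (z : ℤ) : (p - red p z) % p = red p (-z) := by
  have h1 := red_spec hp z
  have h2 := red_lt hp z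
  have h3 := red_spec hp (-z)
  have h4 := red_lt hp (-z)
  have h5 : (p : ℤ) ∣ (((p - red p z) % p : ℕ) : ℤ) - (red p (-z) : ℕ) := by
    have h6 : (p : ℤ) ∣ ((p - red p z : ℕ) : ℤ) - (((p - red p z) % p : ℕ) : ℤ) := by
      rw [Int.natCast_mod]
      exact Int.dvd_self_sub_emod
    have h7 : ((p - red p z : ℕ) : ℤ) = p - (red p z : ℕ) := by
      rw [Nat.cast_sub h2.le]
    rw [h7] at h6
    have h8 : (((p - red p z) % p : ℕ) : ℤ) - (red p (-z) : ℕ) =
        -(((p : ℤ) - (red p z : ℕ)) - (((p - red p z) % p : ℕ) : ℤ)) +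
          ((p : ℤ) + (z - (red p z : ℕ)) + (-z - (red p (-z) : ℕ))) := by ring
    rw [h8]
    exact dvd_add ((dvd_neg).mpr h6) (dvd_add (dvd_add (dvd_refl _) h1) h3)
  have h9 : (p - red p z) % p < p := Nat.mod_lt _ hp
  obtain ⟨t, ht⟩ := h5
  have h10 : t = 0 := by
    have a1 : (p : ℤ) * t < p := by rw [← ht]; omega
    have a2 : -(p : ℤ) < p * t := by rw [← ht]; omega
    have a3 : (0 : ℤ) < p := by exact_mod_cast hp
    have a4 : t < 1 := by nlinarith
    have a5 : -1 < t := by nlinarith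
    omega
  rw [h10, mul_zero] at ht
  omega

lemma rQ_eq {α : Type*} {p n r i j l : ℕ} (hp : 0 < p) (F : α → Mo × Mo) (pf : Mo × Mo → ℕ)
    (hpf : ∀ e i l, i < r → l < n → dg (pf e) (8 ^ (i * n + l)) = red p (mn e.2.2 e.1.2 i l))
    (hi : i < r) (hj : j < r) (hl : l < n) (hrn : r ≤ n) (L : List α) (XL : List (List ℕ)) :
    rQ p i j l (8 ^ (i * n + j)) (8 ^ (i * n + l)) (8 ^ (j * n + l)) (L.map (fun x => pf (F x))) XL =
      rowQ p i j l (L.map F) XL := by
  induction L generalizing XL with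
  | nil => rfl
  | cons e L ih =>
    cases XL with
    | nil => rfl
    | cons X XL =>
      rw [List.map_cons, rQ_cons, ih, List.map_cons, rowQ, ms_eq, ms_eq, ms_eq,
        hpf _ _ _ hi (lt_of_lt_of_le hj hrn), hpf _ _ _ hi hl, hpf _ _ _ hj hl, red_neg hp]

/-- the product with packed exponents -/
noncomputable def dA (al : ℕ) (X : List ℕ) : ℕ :=
  List.rec (motive := fun _ => ℕ → ℕ) (fun _ => 0)
    (fun x _ ih al => mr (Nat.mod al 8) x (ih (Nat.div al 8))) X al

/-- packed residues of exponents -/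
noncomputable def pa (p : ℕ) (a : List ℤ) : ℕ :=
  List.rec (motive := fun _ => ℕ) 0 (fun x _ ih => Nat.add (red p x) (Nat.mul 8 ih)) a

lemma dA_zero (X : List ℕ) : dA 0 X = 0 := by
  induction X with
  | nil => rfl
  | cons x X ih =>
    show mr (0 % 8) x (dA (0 / 8) X) = 0
    rw [Nat.zero_div, ih, mr_eq]
    simp

lemma dA_eq {p : ℕ} (hp : 0 < p) (hp8 : p ≤ 8) (a : List ℤ) (X : List ℕ) :
    dA (pa p a) X = dotA p a X := by
  induction a generalizing X with
  | nil =>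
    show dA 0 X = _
    rw [dA_zero]
    cases X <;> rfl
  | cons y a ih =>
    cases X with
    | nil => rfl
    | cons x X =>
      have h1 : pa p (y :: a) = red p y + 8 * pa p a := rfl
      have h2 := red_lt hp y
      show mr (pa p (y :: a) % 8) x (dA (pa p (y :: a) / 8) X) = _
      rw [h1, Nat.add_mul_mod_self_left, Nat.mod_eq_of_lt (by omega),
        Nat.add_mul_div_left _ _ (by norm_num), Nat.div_eq_of_lt (by omega), zero_add, ih, mr_eq,
        dotA, ms_eq]

/-- the row of a trivial relation from packed data -/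
noncomputable def rT (p b k al : ℕ) (XL : List (List ℕ)) (W : ℕ) : ℕ :=
  List.rec (motive := fun _ => ℕ → ℕ) (fun _ => 0)
    (fun X _ ih W => mr (Nat.mod (Nat.add (Nat.mod W b) k) p) (dA al X) (ih (Nat.div W b))) XL W

lemma rT_eq {p b o : ℕ} (hp : 0 < p) (hp8 : p ≤ 8) (a : List ℤ) (XL : List (List ℕ)) (W : ℕ) :
    rT p b (o * (p - 1)) (pa p a) XL W = rowT p a (decN b o XL.length W) XL := by
  induction XL generalizing W with
  | nil => rfl
  | cons X XL ih =>
    show mr ((W % b + o * (p - 1)) % p) (dA (pa p a) X) (rT p b (o * (p - 1)) (pa p a) XL (W / b)) = _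
    rw [List.length_cons, decN, rowT, ms_eq, mr_eq, dA_eq hp hp8, ih]
    congr 2
    have h1 : (((W % b + o * (p - 1)) % p : ℕ) : ℤ) = (Int.subNatNat (W % b) o) % (p : ℤ) := by
      rw [Int.natCast_mod, Int.subNatNat_eq_coe]
      push_cast
      rw [Nat.cast_sub (by omega)]
      push_cast
      have : ((W : ℤ) % b + o * (p - 1)) = ((W : ℤ) % b - o) + o * p := by ring
      rw [this, Int.add_mul_emod_self_right]
    unfold red
    rw [← h1]
    rfl

end Pool.Agent.MC
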