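import Pool.Agent.Lib_helper40.MC.E

/-!
# Closed elements from a modular certificate: relations in elimination order
-/

set_option autoImplicit false
set_option linter.unusedSectionVars false
set_option linter.unusedVariables false

open scoped TensorProduct

namespace Pool.Agent.MC

open TN MK4 KC72

/-! ### values of relations -/

section Val

variable {M : Type*} [AddCommGroup M] [Module ℚ M]

/-- one term -/
def vt (f : ℕ → M) (s : ℤ) (p : ℕ × ℕ) : M := ((s * sg6 p.2 : ℤ) : ℚ) • f p.1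

/-- one optional term -/
def vo (f : ℕ → M) (s : ℤ) : Option (ℕ × ℕ) → M
  | some p => vt f s p
  | none => 0

/-- the value of a relation -/
def val (f : ℕ → M) (R : Rel) : M :=
  vt f 1 R.x + (vt f (-1) R.y + (vt f 1 R.z + (vo f (-1) R.u + vo f 1 R.w)))

lemma val_relv (E : List M) (R : Rel) : pl E (relv R) = val (fun c => E.getD c 0) R := by
  have h1 : ∀ (s : ℤ) (p : ℕ × ℕ), pl E (ovec s p) = vt (fun c => E.getD c 0) s p := by
    intro s p
    unfold ovec
    rw [pl_sgl]; rfl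
  have h2 : ∀ (s : ℤ) (p : Option (ℕ × ℕ)), pl E (ovecO s p) = vo (fun c => E.getD c 0) s p := by
    intro s p
    cases p with
    | none => simp [ovecO, vo]
    | some p => exact h1 s p
  unfold relv val
  rw [pl_axpy, pl_axpy, pl_axpy, pl_axpy, h1, h1, h1, h2, h2]
  simp

lemma sg6_ne (σ : ℕ) : sg6 σ ≠ 0 := by
  rcases σ with _ | _ | _ | _ | _ | σ <;> simp [sg6]

/-- smaller class -/
def isL (c : ℕ) (p : ℕ × ℕ) : Bool := Nat.blt p.1 c

/-- the class -/
def isE (c : ℕ) (p : ℕ × ℕ) : Bool := Nat.beq p.1 c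

/-- smaller class, or a constant -/
def oL (c : ℕ) : Option (ℕ × ℕ) → Bool
  | some p => isL c p
  | none => true

/-- the class -/
def oE (c : ℕ) : Option (ℕ × ℕ) → Bool
  | some p => isE c p
  | none => false

/-- the class `c` occurs once, the others are smaller -/
def pos (c : ℕ) (R : Rel) : Bool :=
  (isE c R.x && isL c R.y && isL c R.z && oL c R.u && oL c R.w) ||
  (isL c R.x && isE c R.y && isL c R.z && oL c R.u && oL c R.w) ||
  (isL c R.x && isL c R.y && isE c R.z && oL c R.u && oL c R.w) ||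
  (isL c R.x && isL c R.y && isL c R.z && oE c R.u && oL c R.w) ||
  (isL c R.x && isL c R.y && isL c R.z && oL c R.u && oE c R.w)

lemma vt_L {f : ℕ → M} {c : ℕ} (hf : ∀ d < c, f d = 0) (s : ℤ) {p : ℕ × ℕ}
    (h : isL c p = true) : vt f s p = 0 := by
  unfold isL at h
  rw [Nat.blt_eq] at h
  unfold vt
  rw [hf _ h, smul_zero]

lemma vo_L {f : ℕ → M} {c : ℕ} (hf : ∀ d < c, f d = 0) (s : ℤ) {p : Option (ℕ × ℕ)}
    (h : oL c p = true) : vo f s p = 0 := by
  cases p with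
  | none => rfl
  | some p => exact vt_L hf s h

lemma vt_E {f : ℕ → M} {c : ℕ} {s : ℤ} (hs : s ≠ 0) {p : ℕ × ℕ}
    (h : isE c p = true) (h0 : vt f s p = 0) : f c = 0 := by
  have h1 : p.1 = c := Nat.eq_of_beq_eq_true h
  unfold vt at h0
  rw [h1] at h0
  rcases smul_eq_zero.mp h0 with h2 | h2
  · exfalso
    have : s * sg6 p.2 = 0 := by exact_mod_cast h2
    rcases mul_eq_zero.mp this with h3 | h3
    · exact hs h3
    · exact sg6_ne _ h3
  · exact h2

lemma vo_E {f : ℕ → M} {c : ℕ} {s : ℤ} (hs : s ≠ 0) {p : Option (ℕ × ℕ)}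
    (h : oE c p = true) (h0 : vo f s p = 0) : f c = 0 := by
  cases p with
  | none => simp [oE] at h
  | some p => exact vt_E hs h h0

/-- the new class -/
lemma pos_spec {f : ℕ → M} {c : ℕ} (hf : ∀ d < c, f d = 0) {R : Rel} (h : pos c R = true)
    (hv : val f R = 0) : f c = 0 := by
  unfold pos at h
  simp only [Bool.or_eq_true, Bool.and_eq_true] at h
  unfold val at hv
  rcases h with (((h | h) | h) | h) | h
  · obtain ⟨⟨⟨⟨h1, h2⟩, h3⟩, h4⟩, h5⟩ := h
    rw [vt_L hf _ h2, vt_L hf _ h3, vo_L hf _ h4, vo_L hf _ h5] at hv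
    simp only [add_zero] at hv
    exact vt_E (by norm_num) h1 hv
  · obtain ⟨⟨⟨⟨h1, h2⟩, h3⟩, h4⟩, h5⟩ := h
    rw [vt_L hf _ h1, vt_L hf _ h3, vo_L hf _ h4, vo_L hf _ h5] at hv
    simp only [add_zero, zero_add] at hv
    exact vt_E (by norm_num) h2 hv
  · obtain ⟨⟨⟨⟨h1, h2⟩, h3⟩, h4⟩, h5⟩ := h
    rw [vt_L hf _ h1, vt_L hf _ h2, vo_L hf _ h4, vo_L hf _ h5] at hv
    simp only [add_zero, zero_add] at hv
    exact vt_E (by norm_num) h3 hv
  · obtain ⟨⟨⟨⟨h1, h2⟩, h3⟩, h4⟩, h5⟩ := h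
    rw [vt_L hf _ h1, vt_L hf _ h2, vt_L hf _ h3, vo_L hf _ h5] at hv
    simp only [add_zero, zero_add] at hv
    exact vo_E (by norm_num) h4 hv
  · obtain ⟨⟨⟨⟨h1, h2⟩, h3⟩, h4⟩, h5⟩ := h
    rw [vt_L hf _ h1, vt_L hf _ h2, vt_L hf _ h3, vo_L hf _ h4] at hv
    simp only [zero_add] at hv
    exact vo_E (by norm_num) h5 hv

lemma val_add (f g : ℕ → M) (R : Rel) : val (fun c => f c + g c) R = val f R + val g R := by
  have h1 : ∀ (s : ℤ) (p : ℕ × ℕ), vt (fun c => f c + g c) s p = vt f s p + vt g s p := by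
    intro s p; unfold vt; rw [smul_add]
  have h2 : ∀ (s : ℤ) (p : Option (ℕ × ℕ)), vo (fun c => f c + g c) s p = vo f s p + vo g s p := by
    intro s p
    cases p with
    | none => simp [vo]
    | some p => exact h1 s p
  unfold val
  simp only [h1, h2]
  abel

lemma val_neg (f : ℕ → M) (R : Rel) : val (fun c => -f c) R = -val f R := by
  have h1 : ∀ (s : ℤ) (p : ℕ × ℕ), vt (fun c => -f c) s p = -vt f s p := by
    intro s p; unfold vt; rw [smul_neg]
  have h2 : ∀ (s : ℤ) (p : Option (ℕ × ℕ)), vo (fun c => -f c) s p = -vo f s p := by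
    intro s p
    cases p with
    | none => simp [vo]
    | some p => exact h1 s p
  unfold val
  simp only [h1, h2]
  abel

lemma val_sum {ι : Type*} (s : Finset ι) (f : ι → ℕ → M) (R : Rel) :
    val (fun c => ∑ i ∈ s, f i c) R = ∑ i ∈ s, val (f i) R := by
  classical
  induction s using Finset.induction_on with
  | empty =>
    have h1 : ∀ (s : ℤ) (p : ℕ × ℕ), vt (fun _ => (0 : M)) s p = 0 := by
      intro s p; unfold vt; rw [smul_zero]
    have h2 : ∀ (s : ℤ) (p : Option (ℕ × ℕ)), vo (fun _ => (0 : M)) s p = 0 := by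
      intro s p
      cases p with
      | none => rfl
      | some p => exact h1 s p
    simp only [Finset.sum_empty]
    unfold val
    simp only [h1, h2, add_zero]
  | insert a s ha ih =>
    simp only [Finset.sum_insert ha]
    rw [val_add, ih]

lemma val_smul (z : ℕ → ℤ) (m : M) (R : Rel) :
    val (fun c => ((z c : ℤ) : ℚ) • m) R = (val (fun c => ((z c : ℤ) : ℚ)) R : ℚ) • m := by
  have h1 : ∀ (s : ℤ) (p : ℕ × ℕ), vt (fun c => ((z c : ℤ) : ℚ) • m) s p =
      (vt (fun c => ((z c : ℤ) : ℚ)) s p : ℚ) • m := by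
    intro s p; unfold vt; rw [smul_smul, smul_eq_mul]
  have h2 : ∀ (s : ℤ) (p : Option (ℕ × ℕ)), vo (fun c => ((z c : ℤ) : ℚ) • m) s p =
      (vo (fun c => ((z c : ℤ) : ℚ)) s p : ℚ) • m := by
    intro s p
    cases p with
    | none => simp [vo]
    | some p => exact h1 s p
  unfold val
  simp only [h1, h2, add_smul]

end Val

/-! ### integral values -/

/-- one term -/
def zt (f : ℕ → ℤ) (s : ℤ) (p : ℕ × ℕ) : ℤ := Int.mul (Int.mul s (sg6 p.2)) (f p.1)

/-- one optional term -/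
def zo (f : ℕ → ℤ) (s : ℤ) : Option (ℕ × ℕ) → ℤ
  | some p => zt f s p
  | none => 0

/-- the value of a relation -/
def zv (f : ℕ → ℤ) (R : Rel) : ℤ :=
  Int.add (zt f 1 R.x) (Int.add (zt f (-1) R.y) (Int.add (zt f 1 R.z)
    (Int.add (zo f (-1) R.u) (zo f 1 R.w))))

lemma zv_cast (f : ℕ → ℤ) (R : Rel) : ((zv f R : ℤ) : ℚ) = val (fun c => ((f c : ℤ) : ℚ)) R := by
  have h1 : ∀ (s : ℤ) (p : ℕ × ℕ), ((zt f s p : ℤ) : ℚ) = vt (fun c => ((f c : ℤ) : ℚ)) s p := by
    intro s p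
    show (((s * sg6 p.2) * f p.1 : ℤ) : ℚ) = _
    unfold vt
    push_cast
    rfl
  have h2 : ∀ (s : ℤ) (p : Option (ℕ × ℕ)), ((zo f s p : ℤ) : ℚ) =
      vo (fun c => ((f c : ℤ) : ℚ)) s p := by
    intro s p
    cases p with
    | none => simp [zo, vo]
    | some p => exact h1 s p
  show (((zt f 1 R.x) + ((zt f (-1) R.y) + ((zt f 1 R.z) + ((zo f (-1) R.u) + (zo f 1 R.w)))) : ℤ)
    : ℚ) = _
  unfold val
  push_cast
  rw [h1, h1, h1, h2, h2]

lemma zv_sum {m : ℕ} (z : ℕ → ℕ → ℤ) (b : ℤ) (R : Rel) :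
    zv (fun c => ∑ i ∈ Finset.range m, z i c * b ^ i) R =
      ∑ i ∈ Finset.range m, zv (z i) R * b ^ i := by
  have h1 : ∀ (s : ℤ) (p : ℕ × ℕ), zt (fun c => ∑ i ∈ Finset.range m, z i c * b ^ i) s p =
      ∑ i ∈ Finset.range m, zt (z i) s p * b ^ i := by
    intro s p
    show (s * sg6 p.2) * ∑ i ∈ Finset.range m, z i p.1 * b ^ i =
      ∑ i ∈ Finset.range m, ((s * sg6 p.2) * z i p.1) * b ^ i
    rw [Finset.mul_sum]
    exact Finset.sum_congr rfl fun i _ => by ring
  have h2 : ∀ (s : ℤ) (p : Option (ℕ × ℕ)), zo (fun c => ∑ i ∈ Finset.range m, z i c * b ^ i) s p =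
      ∑ i ∈ Finset.range m, zo (z i) s p * b ^ i := by
    intro s p
    cases p with
    | none => simp [zo]
    | some p => exact h1 s p
  show zt _ 1 R.x + (zt _ (-1) R.y + (zt _ 1 R.z + (zo _ (-1) R.u + zo _ 1 R.w))) =
    ∑ i ∈ Finset.range m, (zt (z i) 1 R.x + (zt (z i) (-1) R.y + (zt (z i) 1 R.z +
      (zo (z i) (-1) R.u + zo (z i) 1 R.w)))) * b ^ i
  simp only [h1, h2, add_mul, Finset.sum_add_distrib]

lemma zv_bd {f : ℕ → ℤ} {o : ℤ} (ho : 0 ≤ o) (hf : ∀ c, |f c| ≤ o) (R : Rel) : |zv f R| ≤ 5 * o := by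
  have h1 : ∀ (s : ℤ) (p : ℕ × ℕ), |s| ≤ 1 → |zt f s p| ≤ o := by
    intro s p hs
    show |(s * sg6 p.2) * f p.1| ≤ o
    rw [abs_mul]
    have h2 := sg6_abs p.2 s hs
    have h3 := hf p.1
    have h4 := abs_nonneg (f p.1)
    nlinarith [abs_nonneg (s * sg6 p.2)]
  have h2 : ∀ (s : ℤ) (p : Option (ℕ × ℕ)), |s| ≤ 1 → |zo f s p| ≤ o := by
    intro s p hs
    cases p with
    | none => simpa [zo] using ho
    | some p => exact h1 s p hs
  show |zt f 1 R.x + (zt f (-1) R.y + (zt f 1 R.z + (zo f (-1) R.u + zo f 1 R.w)))| ≤ 5 * o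
  have a1 := h1 1 R.x (by norm_num)
  have a2 := h1 (-1) R.y (by norm_num)
  have a3 := h1 1 R.z (by norm_num)
  have a4 := h2 (-1) R.u (by norm_num)
  have a5 := h2 1 R.w (by norm_num)
  rw [abs_le] at *
  constructor <;> linarith [a1.1, a1.2, a2.1, a2.2, a3.1, a3.2, a4.1, a4.2, a5.1, a5.2]

/-- uniqueness of signed digits -/
lemma digits_zero {b K : ℤ} (hb : 2 * K < b) (m : ℕ) (z : ℕ → ℤ) (hz : ∀ i < m, |z i| ≤ K)
    (h : ∑ i ∈ Finset.range m, z i * b ^ i = 0) : ∀ i < m, z i = 0 := by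
  induction m generalizing z with
  | zero => exact fun i hi => absurd hi (Nat.not_lt_zero _)
  | succ m ih =>
    have h0 := hz 0 (Nat.succ_pos _)
    have hK : 0 ≤ K := (abs_nonneg _).trans h0
    have h1 : ∑ i ∈ Finset.range (m + 1), z i * b ^ i =
        z 0 + b * ∑ i ∈ Finset.range m, z (i + 1) * b ^ i := by
      rw [Finset.sum_range_succ', pow_zero, mul_one, add_comm, Finset.mul_sum]
      congr 1
      refine Finset.sum_congr rfl fun s _ => ?_
      rw [pow_succ]; ring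
    rw [h1] at h
    set S := ∑ i ∈ Finset.range m, z (i + 1) * b ^ i with hS
    have hS0 : S = 0 := by
      by_contra hne
      have h2 : 1 ≤ |S| := Int.one_le_abs hne
      have h3 : |z 0| = b * |S| := by
        rw [show z 0 = -(b * S) by linarith, abs_neg, abs_mul, abs_of_pos (by linarith)]
      nlinarith
    have hz0 : z 0 = 0 := by rw [hS0] at h; linarith
    have h2 := ih (fun i => z (i + 1)) (fun i hi => hz (i + 1) (by omega)) hS0
    intro i hi
    cases i with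
    | zero => exact hz0
    | succ i => exact h2 i (by omega)

/-! ### packed vectors with an offset -/

/-- the packed offset -/
def opk (b o m : ℕ) : ℕ := Nat.mul o (Nat.div (Nat.sub (Nat.pow b m) 1) (Nat.sub b 1))

lemma opk_eq {b : ℕ} (hb : 1 < b) (o m : ℕ) :
    ((opk b o m : ℕ) : ℤ) = ∑ i ∈ Finset.range m, (o : ℤ) * (b : ℤ) ^ i := by
  have h1 : ∑ i ∈ Finset.range m, b ^ i = (b ^ m - 1) / (b - 1) := Nat.geomSum_eq hb m
  show ((o * ((b ^ m - 1) / (b - 1)) : ℕ) : ℤ) = _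
  rw [← h1]
  push_cast
  rw [Finset.mul_sum]

/-- the digits of a packed vector -/
lemma packed_sum {b o m W : ℕ} (hb : 1 < b) (hW : W < b ^ m) :
    (W : ℤ) - (opk b o m : ℕ) = ∑ i ∈ Finset.range m, (((W / b ^ i % b : ℕ) : ℤ) - o) * (b : ℤ) ^ i := by
  rw [opk_eq hb]
  have h1 := eq_sum_digits (by omega : 0 < b) hW
  have h2 : (W : ℤ) = ∑ i ∈ Finset.range m, ((W / b ^ i % b : ℕ) : ℤ) * (b : ℤ) ^ i := by
    conv_lhs => rw [h1]
    push_cast
    rfl
  rw [h2, ← Finset.sum_sub_distrib]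
  exact Finset.sum_congr rfl fun i _ => by ring

lemma decN_getD (b o m W i : ℕ) (hi : i < m) :
    (decN b o m W).getD i 0 = ((W / b ^ i % b : ℕ) : ℤ) - o := by
  induction m generalizing W i with
  | zero => exact absurd hi (Nat.not_lt_zero _)
  | succ m ih =>
    rw [decN]
    cases i with
    | zero =>
      rw [List.getD_cons_zero, pow_zero, Nat.div_one, Int.subNatNat_eq_coe]
    | succ i =>
      rw [List.getD_cons_succ, ih (W / b) i (by omega), Nat.div_div_eq_div_mul, ← pow_succ']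

end Pool.Agent.MC
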