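import Pool.Agent.Lib_helper40.MC.F

/-!
# Closed elements from a modular certificate: the certificate
-/

set_option autoImplicit false
set_option linter.unusedSectionVars false
set_option linter.unusedVariables false

open scoped TensorProduct

namespace Pool.Agent.MC

open TN MK4 KC72

/-- a certificate: the first `m` of the `N` classes are the basis, the class `m + k` is determined
by the relation `k` -/
structure RCert where
  /-- number of generators -/
  n : ℕ
  /-- number of units -/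
  r : ℕ
  /-- number of basis classes -/
  m : ℕ
  /-- number of classes -/
  N : ℕ
  /-- the classes `(f, 1 - f)` -/
  cls : List (Mo × Mo)
  /-- five term relations -/
  rels : List Rel
  /-- the base of the packing is `2 ^ kb` -/
  kb : ℕ
  /-- the digits are smaller than `2 ^ ko` -/
  ko : ℕ
  /-- the offset -/
  o : ℕ
  /-- combinations of basis classes, packed -/
  Om : ℕ
  /-- denominator of the left inverse -/
  DG : ℤ
  /-- the left inverse -/
  G : List (List (ℕ × ℕ × ℤ))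
  /-- independent coordinates of the triple wedge -/
  Q : List (ℕ × ℕ × ℕ)
  /-- independent trivial relations -/
  T : List (ℕ × Bool)

namespace RCert

variable (R : RCert)

/-- the packed combination for a class -/
def W (c : ℕ) : ℕ := Nat.mod (Nat.div R.Om (Nat.pow (Nat.pow (Nat.pow 2 R.kb) R.m) c))
  (Nat.pow (Nat.pow 2 R.kb) R.m)

/-- the certificate -/
def toCert : Cert where
  n := R.n
  r := R.r
  cls := R.cls
  rels := []
  bas := List.range R.m
  rho := (List.range R.N).map (fun c => (1, [], decN (2 ^ R.kb) R.o R.m (R.W c)))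
  DG := R.DG
  G := R.G
  D := 1
  Q := []
  xi := []
  beta := []
  T := []
  lam := []

/-- a coefficient -/
def rz (i c : ℕ) : ℤ := ((R.W c / (2 ^ R.kb) ^ i % 2 ^ R.kb : ℕ) : ℤ) - R.o

end RCert

/-- the checks of the relations -/
structure ROk0 (R : RCert) : Prop where
  nN : R.cls.length = R.N
  mN : R.m ≤ R.N
  rl : R.rels.length + R.m = R.N
  o2 : 2 * R.o = 2 ^ R.ko
  kk : R.ko ≤ R.kb
  ob : 10 * R.o < 2 ^ R.kb
  o1 : 1 ≤ R.o
  c1 : R.rels.all (chkR R.r R.cls) = true
  om : xm R.kb R.ko (R.m * R.N) R.Om = true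
  wb : ∀ c < R.m, R.W c = opk (2 ^ R.kb) R.o R.m + (2 ^ R.kb) ^ c
  ws : ∀ k (h : k < R.rels.length), pos (R.m + k) R.rels[k] = true ∧
    zv (fun c => (R.W c : ℤ) - (opk (2 ^ R.kb) R.o R.m : ℕ)) R.rels[k] = 0

/-- all checks -/
structure ROk (R : RCert) : Prop extends ROk0 R where
  ok : OkN R.toCert R.Q R.T

lemma mod_digit {b m X i : ℕ} (hb : 0 < b) (hi : i < m) : X % b ^ m / b ^ i % b = X / b ^ i % b := by
  have h1 : b ^ m = b ^ i * b ^ (m - i) := by rw [← pow_add]; congr 1; omega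
  rw [h1, Nat.mod_mul_right_div_self]
  refine Nat.mod_mod_of_dvd _ ?_
  exact dvd_pow_self _ (by omega)

section

variable {R : RCert}

lemma one_lt_b (h : ROk0 R) : 1 < 2 ^ R.kb := by
  have := h.ob
  have := h.o1
  omega

lemma kb_pos (h : ROk0 R) : 0 < R.kb := by
  have := one_lt_b h
  by_contra h0
  have h1 : R.kb = 0 := by omega
  rw [h1, pow_zero] at this
  omega

lemma W_lt (h : ROk0 R) (c : ℕ) : R.W c < (2 ^ R.kb) ^ R.m :=
  Nat.mod_lt _ (pow_pos (lt_trans Nat.zero_lt_one (one_lt_b h)) _)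

lemma rz_abs (h : ROk0 R) {i : ℕ} (hi : i < R.m) (c : ℕ) : |R.rz i c| ≤ R.o := by
  have hb := one_lt_b h
  obtain ⟨h1, h2⟩ := xm_spec (kb_pos h) h.kk h.om
  have h3 : R.W c / (2 ^ R.kb) ^ i % 2 ^ R.kb = R.Om / (2 ^ R.kb) ^ (R.m * c + i) % 2 ^ R.kb := by
    show (R.Om / ((2 ^ R.kb) ^ R.m) ^ c % (2 ^ R.kb) ^ R.m) / (2 ^ R.kb) ^ i % 2 ^ R.kb = _
    rw [mod_digit (by omega) hi, Nat.div_div_eq_div_mul, ← pow_mul, ← pow_add]
  have h4 : R.Om / (2 ^ R.kb) ^ (R.m * c + i) % 2 ^ R.kb < 2 ^ R.ko := by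
    by_cases hs : R.m * c + i < R.m * R.N
    · exact h2 _ hs
    · have h5 : R.Om < (2 ^ R.kb) ^ (R.m * c + i) :=
        lt_of_lt_of_le h1 (Nat.pow_le_pow_right (by omega) (by omega))
      rw [Nat.div_eq_of_lt h5, Nat.zero_mod]
      positivity
  have h5 := h.o2
  unfold RCert.rz
  rw [h3, abs_le]
  constructor <;> omega

lemma W_sum (h : ROk0 R) (c : ℕ) : (R.W c : ℤ) - (opk (2 ^ R.kb) R.o R.m : ℕ) =
    ∑ i ∈ Finset.range R.m, R.rz i c * ((2 ^ R.kb : ℕ) : ℤ) ^ i :=
  packed_sum (one_lt_b h) (W_lt h c)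

lemma rz_basis (h : ROk0 R) {c : ℕ} (hc : c < R.m) {i : ℕ} (hi : i < R.m) :
    R.rz i c = if i = c then 1 else 0 := by
  have h1 := W_sum h c
  rw [h.wb c hc] at h1
  have h2 : ∑ i ∈ Finset.range R.m, (R.rz i c - if i = c then 1 else 0) *
      ((2 ^ R.kb : ℕ) : ℤ) ^ i = 0 := by
    simp only [sub_mul, Finset.sum_sub_distrib, ite_mul, one_mul, zero_mul]
    rw [← h1, Finset.sum_ite_eq', if_pos (Finset.mem_range.mpr hc)]
    push_cast
    ring
  have h3 := digits_zero (K := R.o + 1) (by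
    have := h.ob
    have := h.o1
    push_cast
    have h5 : (10 : ℤ) * R.o < 2 ^ R.kb := by exact_mod_cast h.ob
    have h6 : (1 : ℤ) ≤ R.o := by exact_mod_cast h.o1
    linarith) R.m _ (by
      intro i hi
      have h4 := rz_abs h hi c
      rw [abs_le] at h4 ⊢
      split_ifs <;> constructor <;> linarith [h4.1, h4.2]) h2 i hi
  linarith

lemma rz_rel (h : ROk0 R) {k : ℕ} (hk : k < R.rels.length) {i : ℕ} (hi : i < R.m) :
    zv (R.rz i) R.rels[k] = 0 := by
  have h1 := (h.ws k hk).2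
  have h2 : (fun c => (R.W c : ℤ) - (opk (2 ^ R.kb) R.o R.m : ℕ)) =
      fun c => ∑ i ∈ Finset.range R.m, R.rz i c * ((2 ^ R.kb : ℕ) : ℤ) ^ i :=
    funext fun c => W_sum h c
  rw [h2, zv_sum] at h1
  exact digits_zero (K := 5 * R.o) (by
    have h5 : (10 : ℤ) * R.o < 2 ^ R.kb := by exact_mod_cast h.ob
    push_cast
    linarith) R.m _ (by
      intro i hi
      -- bounded coefficients
      exact zv_bd (Int.natCast_nonneg _) (fun c => rz_abs h hi c) _) h1 i hi

variable {k : Type*} [Field k] {F : Type*} [Field F] [Algebra k F]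

/-- every class is a combination of the basis classes -/
theorem tri [CharZero F] (h : ROk0 R) {g : List F} (hg : ∀ x ∈ g, x ≠ 0)
    (hk : ∀ x ∈ g.drop R.r, ∃ c : k, x = algebraMap k F c) (H : Sols g R.cls) :
    ∀ c < R.N, (EW k g R.cls).getD c 0 =
      ∑ i ∈ Finset.range R.m, ((R.rz i c : ℤ) : ℚ) • (EW k g R.cls).getD i 0 := by
  set E : ℕ → (FT F →ₗ[ℚ] (HK F ⧸ KC k F)) := fun c => (EW k g R.cls).getD c 0 with hE
  suffices H' : ∀ c < R.N, E c + -(∑ i ∈ Finset.range R.m, ((R.rz i c : ℤ) : ℚ) • E i) = 0 by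
    intro c hc
    have := H' c hc
    rw [← sub_eq_add_neg, sub_eq_zero] at this
    exact this
  intro c
  induction c using Nat.strong_induction_on with
  | _ c ih =>
    intro hc
    by_cases hcm : c < R.m
    · have h1 : ∑ i ∈ Finset.range R.m, ((R.rz i c : ℤ) : ℚ) • E i = E c := by
        have h2 : ∀ i ∈ Finset.range R.m, ((R.rz i c : ℤ) : ℚ) • E i = if i = c then E i else 0 := by
          intro i hi
          rw [rz_basis h hcm (Finset.mem_range.mp hi)]
          split_ifs <;> simp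
        rw [Finset.sum_congr rfl h2, Finset.sum_ite_eq', if_pos (Finset.mem_range.mpr hcm)]
      rw [h1, add_neg_cancel]
    · obtain ⟨j, rfl⟩ : ∃ j, c = R.m + j := ⟨c - R.m, by omega⟩
      have hj : j < R.rels.length := by have := h.rl; omega
      obtain ⟨hpos, -⟩ := h.ws j hj
      have c1 := h.c1
      rw [List.all_eq_true] at c1
      have hR := relv_zero (k := k) hg hk H (c1 _ (List.getElem_mem hj))
      rw [val_relv] at hR
      refine pos_spec (f := fun c => E c + -(∑ i ∈ Finset.range R.m, ((R.rz i c : ℤ) : ℚ) • E i))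
        (fun d hd => ih d hd (by omega)) hpos ?_
      rw [val_add, val_neg, val_sum (Finset.range R.m) (fun i c => ((R.rz i c : ℤ) : ℚ) • E i)]
      have h1 : ∀ i ∈ Finset.range R.m,
          val (fun c => ((R.rz i c : ℤ) : ℚ) • E i) R.rels[j] = 0 := by
        intro i hi
        rw [val_smul, ← zv_cast, rz_rel h hj (Finset.mem_range.mp hi), Int.cast_zero, zero_smul]
      rw [Finset.sum_eq_zero h1, neg_zero, add_zero]
      exact hR

lemma rho_get (h : ROk0 R) {c : ℕ} (hc : c < R.N) :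
    R.toCert.rho.getD c default = (1, [], decN (2 ^ R.kb) R.o R.m (R.W c)) := by
  show ((List.range R.N).map (fun c => ((1 : ℤ), ([] : List ℤ),
    decN (2 ^ R.kb) R.o R.m (R.W c)))).getD c default = _
  rw [List.getD_eq_getElem?_getD, List.getElem?_map, List.getElem?_range hc]
  rfl

/-- the hypothesis of `cert_mainM` -/
theorem rho_ok [CharZero F] (h : ROk0 R) {g : List F} (hg : ∀ x ∈ g, x ≠ 0)
    (hk : ∀ x ∈ g.drop R.r, ∃ c : k, x = algebraMap k F c) (H : Sols g R.cls) (c : ℕ)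
    (hc : c < R.toCert.cls.length) : (R.toCert.rho.getD c default).1 ≠ 0 ∧
      ((R.toCert.rho.getD c default).1 : ℚ) • (EW k g R.toCert.cls).getD c 0 =
        pl (Bl R.toCert k g) (R.toCert.rho.getD c default).2.2 := by
  have hc' : c < R.N := by rw [← h.nN]; exact hc
  rw [rho_get h hc']
  refine ⟨one_ne_zero, ?_⟩
  have h1 : Bl R.toCert k g = List.ofFn (fun i : Fin R.m => (EW k g R.cls).getD i.val 0) := by
    unfold Bl
    show (List.range R.m).map (fun i => (EW (F := F) k g R.cls).getD i 0) = _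
    refine List.ext_getElem (by simp) fun i h1 h2 => ?_
    simp
  rw [h1, pl_ofFn]
  show ((1 : ℤ) : ℚ) • (EW k g R.cls).getD c 0 = _
  rw [Int.cast_one, one_smul, tri h hg hk H c hc', Finset.sum_range]
  refine Finset.sum_congr rfl fun i _ => ?_
  show _ = (((decN (2 ^ R.kb) R.o R.m (R.W c)).getD i.val 0 : ℤ) : ℚ) • _
  rw [decN_getD _ _ _ _ _ i.isLt]
  rfl

/-- **closed elements from a modular certificate**, if all symbols are combinations of the
classes -/
theorem closed_of_rcertX [CharZero F] (hR : ROk R) {n r : ℕ} (hn : R.n = n) (hr : R.r = r)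
    {cls : List (Mo × Mo)} (hcl : R.cls = cls) {G : Fin n → F}
    (hG : ∀ i, G i ≠ 0) (hk : ∀ i : Fin n, r ≤ i.val → ∃ c : k, G i = algebraMap k F c)
    (hI : ∀ q : Fin n → ℚ, ∑ i, q i • lg (G i) ∈ V0 k F → ∀ i : Fin n, i.val < r → q i = 0)
    (hJ : LinearIndependent ℚ (fun i => lg (G i)))
    (H : Sols (List.ofFn G) cls) (U : F → Prop)
    (hU : ∀ h, U h → U (1 - h) → sy h ∈ SC k F ⊔
      Submodule.span ℚ {a : B2 F | ∃ p ∈ cls, a = sy (ev (List.ofFn G) p.1)})
    {z : HK F} (hz : z ∈ Submodule.span ℚ {z : HK F | ∃ (f : F) (u : FT F),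
      U f ∧ U (1 - f) ∧ z = MK4.hk (sy f) u}) (hc : Closed z) : z ∈ KC k F := by
  subst hn hr hcl
  have hset : {a : B2 F | ∃ p ∈ R.cls, a = sy (ev (List.ofFn G) p.1)} ⊆
      Set.range fun i : Fin R.toCert.cls.length =>
        sy (ev (List.ofFn G) (R.toCert.cls.get i).1) := by
    rintro a ⟨p, hp, rfl⟩
    obtain ⟨i, hi, rfl⟩ := List.getElem_of_mem hp
    exact ⟨⟨i, hi⟩, rfl⟩
  have hle : SC k F ⊔ Submodule.span ℚ {a : B2 F | ∃ p ∈ R.cls, a = sy (ev (List.ofFn G) p.1)} ≤
      SC k F ⊔ Submodule.span ℚ (Set.range fun i : Fin R.toCert.cls.length =>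
        sy (ev (List.ofFn G) (R.toCert.cls.get i).1)) := sup_le_sup_left (Submodule.span_mono hset) _
  obtain ⟨u, κ, hκ, rfl⟩ := decompX (k := k) U
    (fun i : Fin R.toCert.cls.length => ev (List.ofFn G) (R.toCert.cls.get i).1)
    (fun h h1 h2 => hle (hU h h1 h2)) hz
  have hk' : ∀ x ∈ (List.ofFn G).drop R.r, ∃ c : k, x = algebraMap k F c := by
    intro x hx
    rw [List.mem_drop_iff_getElem] at hx
    obtain ⟨i, hi, rfl⟩ := hx
    rw [List.getElem_ofFn]
    exact hk _ (by simp)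
  have hg : ∀ x ∈ List.ofFn G, x ≠ 0 := by
    intro x hx
    rw [List.mem_ofFn] at hx
    obtain ⟨i, rfl⟩ := hx
    exact hG i
  have h1 := cert_mainM R.toCert hR.ok hG (fun c hc => rho_ok hR.toROk0 hg hk' H c hc) hk' hI hJ H u hκ hc
  exact Submodule.add_mem _ ((Submodule.Quotient.mk_eq_zero _).mp h1) hκ

end

end Pool.Agent.MC
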