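import Pool.Agent.Lib_helper40.MC.G

/-!
# Closed elements from a modular certificate: fast checks
-/

set_option autoImplicit false
set_option linter.unusedSectionVars false
set_option linter.unusedVariables false

open scoped TensorProduct

namespace Pool.Agent.MC

open TN MK4 KC72

/-! ### loops over lists -/

/-- all entries, with their index -/
def allI {α : Type} (f : ℕ → α → Bool) (L : List α) (s : ℕ) : Bool :=
  List.rec (motive := fun _ => ℕ → Bool) (fun _ => true)
    (fun x _ ih s => Bool.and (f s x) (ih (Nat.succ s))) L s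

lemma allI_spec {α : Type} {f : ℕ → α → Bool} {L : List α} {s : ℕ} (h : allI f L s = true) (i : ℕ)
    (hi : i < L.length) : f (s + i) L[i] = true := by
  induction L generalizing s i with
  | nil => simp at hi
  | cons x L ih =>
    have h' : Bool.and (f s x) (allI f L (s + 1)) = true := h
    rw [Bool.and_eq_true] at h'
    cases i with
    | zero => exact h'.1
    | succ i =>
      have := ih h'.2 i (by simpa using hi)
      rw [show s + (i + 1) = s + 1 + i by omega]
      exact this

/-- a block of the loop -/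
def blk {α : Type} (f : ℕ → α → Bool) (L : List α) (len k : ℕ) : Bool :=
  allI f ((L.drop (k * len)).take len) (k * len)

lemma blk_spec {α : Type} {f : ℕ → α → Bool} {L : List α} {len nb : ℕ} (hlen : 0 < len)
    (hcov : L.length ≤ nb * len) (hb : ∀ k < nb, blk f L len k = true) (s : ℕ)
    (hs : s < L.length) : f s L[s] = true := by
  have h1 : s / len < nb := (Nat.div_lt_iff_lt_mul hlen).mpr (lt_of_lt_of_le hs hcov)
  have h2 := hb _ h1
  unfold blk at h2
  have h3 : s % len < len := Nat.mod_lt _ hlen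
  have h4 : s / len * len + s % len = s := by rw [mul_comm]; exact Nat.div_add_mod s len
  have h5 : s % len < ((L.drop (s / len * len)).take len).length := by
    rw [List.length_take, List.length_drop]
    omega
  have h6 := allI_spec h2 (s % len) h5
  rw [List.getElem_take, List.getElem_drop] at h6
  simp only [h4] at h6
  exact h6

/-! ### packed residues of the minors -/

/-- one row -/
noncomputable def prow (p : ℕ) (bi ai : ℤ) (b a : List ℤ) : ℕ :=
  List.rec (motive := fun _ => List ℤ → ℕ) (fun _ => 0)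
    (fun x _ ih a => List.rec (motive := fun _ => ℕ) 0
      (fun y a' _ => Nat.add (red p (Int.sub (Int.mul bi y) (Int.mul ai x))) (Nat.mul 8 (ih a'))) a)
    b a

/-- all rows -/
noncomputable def prows (p n : ℕ) (b a : List ℤ) (bs as : List ℤ) : ℕ :=
  List.rec (motive := fun _ => List ℤ → ℕ) (fun _ => 0)
    (fun x _ ih as => List.rec (motive := fun _ => ℕ) 0
      (fun y as' _ => Nat.add (prow p x y b a) (Nat.mul (Nat.pow 8 n) (ih as'))) as)
    bs as

/-- the packed residues of a class -/
noncomputable def prF (p n r : ℕ) (e : Mo × Mo) : ℕ :=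
  prows p n e.2.2 e.1.2 (e.2.2.take r) (e.1.2.take r)

lemma red_zero {p : ℕ} : red p 0 = 0 := by simp [red]

lemma prow_cons (p : ℕ) (bi ai x y : ℤ) (b a : List ℤ) :
    prow p bi ai (x :: b) (y :: a) = red p (bi * y - ai * x) + 8 * prow p bi ai b a := rfl

lemma prow_spec {p : ℕ} (hp : 0 < p) (hp8 : p ≤ 8) (bi ai : ℤ) (b a : List ℤ)
    (hl : b.length = a.length) : prow p bi ai b a < 8 ^ a.length ∧
      ∀ l, prow p bi ai b a / 8 ^ l % 8 = red p (bi * nth a l - ai * nth b l) := by
  induction b generalizing a with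
  | nil =>
    have : a = [] := List.length_eq_zero_iff.mp hl.symm
    subst this
    refine ⟨by simp [prow], fun l => ?_⟩
    have h1 : prow p bi ai [] [] = 0 := rfl
    rw [h1]
    simp [nth, red_zero]
  | cons x b ih =>
    cases a with
    | nil => simp at hl
    | cons y a =>
      obtain ⟨h1, h2⟩ := ih a (by simpa using hl)
      rw [prow_cons]
      have h3 := red_lt hp (bi * y - ai * x)
      refine ⟨?_, fun l => ?_⟩
      · rw [List.length_cons, pow_succ]
        omega
      · cases l with
        | zero =>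
          rw [pow_zero, Nat.div_one, Nat.add_mul_mod_self_left, Nat.mod_eq_of_lt (by omega)]
          rfl
        | succ l =>
          have h4 : red p (bi * y - ai * x) / 8 = 0 := Nat.div_eq_of_lt (by omega)
          rw [pow_succ', ← Nat.div_div_eq_div_mul, Nat.add_mul_div_left _ _ (by norm_num),
            h4, zero_add, h2 l]
          rfl

lemma prows_cons (p n : ℕ) (b a : List ℤ) (x y : ℤ) (bs as : List ℤ) :
    prows p n b a (x :: bs) (y :: as) = prow p x y b a + 8 ^ n * prows p n b a bs as := rfl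

lemma prows_spec {p n : ℕ} (hp : 0 < p) (hp8 : p ≤ 8) (b a bs as : List ℤ)
    (hb : b.length = n) (ha : a.length = n) (hl : bs.length = as.length) (i l : ℕ) (hln : l < n)
    (hi : i < bs.length) :
    prows p n b a bs as / 8 ^ (i * n + l) % 8 = red p (nth bs i * nth a l - nth as i * nth b l) := by
  induction bs generalizing as i with
  | nil => simp at hi
  | cons x bs ih =>
    cases as with
    | nil => simp at hl
    | cons y as =>
      obtain ⟨h1, h2⟩ := prow_spec hp hp8 x y b a (hb.trans ha.symm)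
      rw [ha] at h1
      rw [prows_cons]
      cases i with
      | zero =>
        rw [Nat.zero_mul, zero_add]
        have e1 : 8 ^ n * prows p n b a bs as = 8 ^ l * (8 ^ (n - l) * prows p n b a bs as) := by
          rw [← mul_assoc, ← pow_add]
          congr 2
          omega
        have e2 : 8 ^ (n - l) * prows p n b a bs as =
            8 * (8 ^ (n - l - 1) * prows p n b a bs as) := by
          rw [← mul_assoc, ← pow_succ']
          congr 2
          omega
        rw [e1, Nat.add_mul_div_left _ _ (by positivity), e2, Nat.add_mul_mod_self_left, h2 l]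
        rfl
      | succ i =>
        have e1 : 8 ^ ((i + 1) * n + l) = 8 ^ n * 8 ^ (i * n + l) := by
          rw [← pow_add]; congr 1; ring
        rw [e1, ← Nat.div_div_eq_div_mul, Nat.add_mul_div_left _ _ (by positivity),
          Nat.div_eq_of_lt h1, zero_add]
        exact ih as (by simpa using hl) i (by simpa using hi)

lemma nth_take (v : List ℤ) {r i : ℕ} (hi : i < r) : nth (v.take r) i = nth v i := by
  induction v generalizing r i with
  | nil => simp
  | cons x v ih =>
    cases r with
    | zero => exact absurd hi (Nat.not_lt_zero _)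
    | succ r =>
      cases i with
      | zero => rfl
      | succ i =>
        rw [List.take_succ_cons]
        exact ih (by omega)

lemma prF_spec {p n r : ℕ} (hp : 0 < p) (hp8 : p ≤ 8) (hrn : r ≤ n) {e : Mo × Mo}
    (ha : e.1.2.length = n) (hb : e.2.2.length = n) (i l : ℕ) (hi : i < r) (hl : l < n) :
    dg (prF p n r e) (8 ^ (i * n + l)) = red p (mn e.2.2 e.1.2 i l) := by
  show prows p n e.2.2 e.1.2 (e.2.2.take r) (e.1.2.take r) / 8 ^ (i * n + l) % 8 = _
  rw [prows_spec hp hp8 _ _ _ _ hb ha (by rw [List.length_take, List.length_take, ha, hb]) i l hl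
    (by rw [List.length_take, hb]; omega), nth_take _ hi, nth_take _ hi]
  rfl

/-! ### the wedge product -/

lemma outer_getD (ρ a : List ℤ) (i l : ℕ) (hl : l < a.length) :
    (outer ρ a).getD (i * a.length + l) 0 = ρ.getD i 0 * a.getD l 0 := by
  induction ρ generalizing i with
  | nil => simp [outer]
  | cons x ρ ih =>
    have h1 : outer (x :: ρ) a = a.map (fun y => x * y) ++ outer ρ a := by simp [outer]
    rw [h1]
    cases i with
    | zero =>
      rw [Nat.zero_mul, zero_add, List.getD_append _ _ _ _ (by simpa using hl), List.getD_cons_zero,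
        List.getD_eq_getElem?_getD, List.getElem?_map, List.getElem?_eq_getElem hl,
        List.getD_eq_getElem?_getD, List.getElem?_eq_getElem hl]
      rfl
    | succ i =>
      rw [List.getD_append_right _ _ _ _ (by rw [List.length_map]; nlinarith), List.length_map,
        List.getD_cons_succ, show (i + 1) * a.length + l - a.length = i * a.length + l by
          rw [add_mul, one_mul]; omega]
      exact ih i

/-- the wedge product -/
def wv (r : ℕ) (e : Mo × Mo) : List ℤ :=
  axpy (-1) (outer (e.1.2.take r) e.2.2) (outer (e.2.2.take r) e.1.2)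

lemma wv_getD {n r : ℕ} {e : Mo × Mo} (ha : e.1.2.length = n) (hb : e.2.2.length = n) {i l : ℕ}
    (hi : i < r) (hl : l < n) : (wv r e).getD (i * n + l) 0 = mn e.2.2 e.1.2 i l := by
  unfold wv
  rw [axpy_getD]
  have h1 := outer_getD (e.1.2.take r) e.2.2 i l (by rw [hb]; exact hl)
  have h2 := outer_getD (e.2.2.take r) e.1.2 i l (by rw [ha]; exact hl)
  rw [hb] at h1
  rw [ha] at h2
  rw [h1, h2, ← nth_eq, ← nth_eq, ← nth_eq, ← nth_eq, nth_take _ hi, nth_take _ hi]
  unfold mn
  ring

/-- a packed vector -/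
noncomputable def pkR (B : ℤ) (v : List ℤ) : ℤ :=
  List.rec (motive := fun _ => ℤ) 0 (fun x _ ih => Int.add x (Int.mul B ih)) v

lemma pkR_eq (B : ℤ) (v : List ℤ) : pkR B v = pk B v := by
  induction v with
  | nil => rfl
  | cons x v ih =>
    show x + B * pkR B v = _
    rw [ih, pk]

/-- the packed wedge product -/
noncomputable def pkw (Z Zn : ℤ) (r : ℕ) (e : Mo × Mo) : ℤ :=
  Int.sub (Int.mul (pkR Zn (e.2.2.take r)) (pkR Z e.1.2))
    (Int.mul (pkR Zn (e.1.2.take r)) (pkR Z e.2.2))

lemma pkw_eq {n r : ℕ} (Z : ℤ) {e : Mo × Mo} (ha : e.1.2.length = n) (hb : e.2.2.length = n) :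
    pkw Z (Z ^ n) r e = pk Z (wv r e) := by
  show (pkR (Z ^ n) (e.2.2.take r) * pkR Z e.1.2) - (pkR (Z ^ n) (e.1.2.take r) * pkR Z e.2.2) = _
  unfold wv
  rw [pk_axpy, pk_outer, pk_outer, pkR_eq, pkR_eq, pkR_eq, pkR_eq, ha, hb]
  ring

lemma bd_take {M : ℤ} {v : List ℤ} (h : bd M v) (r : ℕ) : bd M (v.take r) :=
  fun x hx => h x (List.mem_of_mem_take hx)

lemma wv_bd {MA : ℤ} (hM : 0 ≤ MA) {e : Mo × Mo} (ha : bd MA e.1.2) (hb : bd MA e.2.2) (r : ℕ) :
    bd (2 * MA ^ 2) (wv r e) := by
  have h1 := bd_axpy (mul_nonneg hM hM) (mul_nonneg hM hM) (-1) (bd_outer hM (bd_take ha r) hb)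
    (bd_outer hM (bd_take hb r) ha)
  refine bd_mono ?_ h1
  rw [abs_neg, abs_one]
  linarith [pow_two MA]

/-- the combination of packed vectors -/
noncomputable def dzR (b o : ℕ) (PM : List ℤ) (W : ℕ) : ℤ :=
  List.rec (motive := fun _ => ℕ → ℤ) (fun _ => 0)
    (fun v _ ih W => Int.add (Int.mul (Int.subNatNat (Nat.mod W b) o) v) (ih (Nat.div W b))) PM W

lemma dzR_eq (b o : ℕ) (PM : List ℤ) (W : ℕ) :
    dzR b o PM W = dotZ (decN b o PM.length W) PM := by
  induction PM generalizing W with
  | nil => rfl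
  | cons v PM ih =>
    show Int.subNatNat (W % b) o * v + dzR b o PM (W / b) = _
    rw [ih, List.length_cons, decN, dotZ]

/-! ### the left inverse -/

/-- bounded exponents, and the length -/
def bdE (MA n : ℕ) (v : List ℤ) : Bool :=
  Nat.beq v.length n && v.all (fun x => Nat.ble x.natAbs MA)

lemma bdE_spec {MA n : ℕ} {v : List ℤ} (h : bdE MA n v = true) : v.length = n ∧ bd (MA : ℤ) v := by
  unfold bdE at h
  rw [Bool.and_eq_true] at h
  refine ⟨Nat.eq_of_beq_eq_true h.1, fun x hx => ?_⟩
  have h1 := h.2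
  rw [List.all_eq_true] at h1
  have h2 := h1 x hx
  rw [Nat.ble_eq] at h2
  rw [Int.abs_eq_natAbs]
  exact_mod_cast h2

lemma nth_bd {MA : ℤ} (hM : 0 ≤ MA) {v : List ℤ} (h : bd MA v) (i : ℕ) : |nth v i| ≤ MA := by
  induction v generalizing i with
  | nil => simpa [nth] using hM
  | cons x v ih =>
    cases i with
    | zero => exact h x (by simp)
    | succ i => exact ih (fun y hy => h y (by simp [hy])) i

lemma mn_bd {MA : ℤ} (hM : 0 ≤ MA) {b a : List ℤ} (hb : bd MA b) (ha : bd MA a) (i j : ℕ) :
    |mn b a i j| ≤ 2 * MA ^ 2 := by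
  unfold mn
  have h1 := nth_bd hM hb i
  have h2 := nth_bd hM ha j
  have h3 := nth_bd hM ha i
  have h4 := nth_bd hM hb j
  have e1 : |nth b i * nth a j| ≤ MA ^ 2 := by
    rw [abs_mul, pow_two]
    exact mul_le_mul h1 h2 (abs_nonneg _) hM
  have e2 : |nth a i * nth b j| ≤ MA ^ 2 := by
    rw [abs_mul, pow_two]
    exact mul_le_mul h3 h4 (abs_nonneg _) hM
  have e3 := abs_sub (nth b i * nth a j) (nth a i * nth b j)
  linarith

/-- an entry -/
noncomputable def nz (l : List ℤ) (i : ℕ) : ℤ :=
  List.rec (motive := fun _ => ℕ → ℤ) (fun _ => 0)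
    (fun x _ ih i => Nat.rec (motive := fun _ => ℤ) x (fun i _ => ih i) i) l i

lemma nz_eq (l : List ℤ) (i : ℕ) : nz l i = nth l i := by
  induction l generalizing i with
  | nil => simp [nz, nth]
  | cons x l ih =>
    cases i with
    | zero => rfl
    | succ i => exact ih i

/-- the minor -/
noncomputable def mz (b a : List ℤ) (i j : ℕ) : ℤ :=
  Int.sub (Int.mul (nz b i) (nz a j)) (Int.mul (nz a i) (nz b j))

lemma mz_eq (b a : List ℤ) (i j : ℕ) : mz b a i j = mn b a i j := by
  show nz b i * nz a j - nz a i * nz b j = _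
  simp only [nz_eq]
  rfl

/-- the packed minors of the basis classes -/
noncomputable def pmb (B : ℤ) (i j : ℕ) (bl : List (Mo × Mo)) : ℤ :=
  List.rec (motive := fun _ => ℤ) 0
    (fun e _ ih => Int.add (mz e.2.2 e.1.2 i j) (Int.mul B ih)) bl

lemma pmb_eq (B : ℤ) (i j : ℕ) (bl : List (Mo × Mo)) :
    pmb B i j bl = pk B (bl.map (fun e => mn e.2.2 e.1.2 i j)) := by
  induction bl with
  | nil => rfl
  | cons e bl ih =>
    show mz e.2.2 e.1.2 i j + B * pmb B i j bl = _
    rw [ih, mz_eq, List.map_cons, pk]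

/-- the check of a row of the left inverse -/
def cG (DG : ℤ) (B MA : ℕ) (P2 : List (ℕ × ℕ)) (MB : List ℤ) (c : ℕ) (g : List (ℕ × ℕ × ℤ)) :
    Bool :=
  decide (g.map (fun e => (e.1, e.2.1)) = P2) &&
  decide (dotZ (g.map (fun e => e.2.2)) MB = DG * (B : ℤ) ^ c) &&
  decide (2 * (|-DG| * 1 + sab (g.map (fun e => e.2.2)) * (2 * (MA : ℤ) ^ 2)) < B)

lemma comb_rows (f : ℕ × ℕ → List ℤ) (g : List (ℕ × ℕ × ℤ)) (i : ℕ) :
    (comb (g.map (fun e => e.2.2)) ((g.map (fun e => (e.1, e.2.1))).map f)).getD i 0 =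
      (g.map (fun e => e.2.2 * (f (e.1, e.2.1)).getD i 0)).sum := by
  induction g with
  | nil => simp [comb]
  | cons e g ih =>
    simp only [List.map_cons, List.sum_cons]
    unfold comb
    split_ifs with h
    · rw [ih, h]; simp
    · rw [axpy_getD, ih]

lemma sgl_getD (c i : ℕ) (s : ℤ) : (sgl c s).getD i 0 = if i = c then s else 0 := by
  unfold sgl
  by_cases h1 : i < c
  · rw [List.getD_append _ _ _ _ (by simpa using h1), if_neg (by omega),
      List.getD_eq_getElem?_getD, List.getElem?_replicate, if_pos h1]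
    rfl
  · rw [List.getD_append_right _ _ _ _ (by simpa using h1), List.length_replicate]
    by_cases h2 : i = c
    · subst h2; simp
    · rw [if_neg h2]
      have : i - c = (i - c - 1) + 1 := by omega
      rw [this]
      simp

lemma pk_sgl' (B : ℤ) (c : ℕ) (s : ℤ) : pk B (sgl c s) = B ^ c * s := by
  have h1 : pk B (List.replicate c 0) = 0 := by
    induction c with
    | zero => rfl
    | succ c ih => rw [List.replicate_succ, pk, ih]; ring
  unfold sgl
  rw [pk_append, h1, List.length_replicate]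
  simp [pk]

lemma chk3_of {C : Cert} {bl : List (Mo × Mo)} (hbl : C.bas.map C.cl = bl) {B MA : ℕ}
    (hE : ∀ e ∈ bl, bd (MA : ℤ) e.1.2 ∧ bd (MA : ℤ) e.2.2) {P2 : List (ℕ × ℕ)} {MB : List ℤ}
    (hMB : P2.map (fun x => pk B (bl.map (fun e => mn e.2.2 e.1.2 x.1 x.2))) = MB) {c : ℕ}
    (h : cG C.DG B MA P2 MB c (C.G.getD c []) = true) (c' : ℕ) (hc' : c' < C.bas.length) :
    C.chk3 c c' = true := by
  unfold cG at h
  simp only [Bool.and_eq_true, decide_eq_true_eq] at h
  obtain ⟨⟨h1, h2⟩, h3⟩ := h
  set g := C.G.getD c [] with hg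
  have hM : (0 : ℤ) ≤ (MA : ℤ) := Int.natCast_nonneg _
  have hM2 : (0 : ℤ) ≤ 2 * (MA : ℤ) ^ 2 := by positivity
  have s1 : bd (sab (g.map (fun e => e.2.2)) * (2 * (MA : ℤ) ^ 2))
      (comb (g.map (fun e => e.2.2)) (P2.map (fun x => bl.map (fun e => mn e.2.2 e.1.2 x.1 x.2)))) :=
    bd_comb hM2 _ (by
      intro v hv
      rw [List.mem_map] at hv
      obtain ⟨x, -, rfl⟩ := hv
      intro y hy
      rw [List.mem_map] at hy
      obtain ⟨e, he, rfl⟩ := hy
      exact mn_bd hM (hE e he).2 (hE e he).1 _ _)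
  have s2 := bd_axpy (M := 1) (x := sgl c 1) (by norm_num) (mul_nonneg (sab_nonneg _) hM2) (-C.DG)
    (bd_sgl c 1 (by simp)) s1
  have h4 := isZ_of_pk h3 s2 (by
    rw [pk_axpy, pk_comb, pk_sgl', List.map_map]
    have : P2.map (pk (B : ℤ) ∘ fun x => bl.map (fun e => mn e.2.2 e.1.2 x.1 x.2)) = MB := hMB
    rw [this, h2]
    ring)
  have h5 := isZ_getD h4 c'
  rw [axpy_getD, sgl_getD, ← h1, comb_rows] at h5
  have h6 : ∀ i j : ℕ, (bl.map (fun e => mn e.2.2 e.1.2 i j)).getD c' 0 =
      min2 (C.cl (C.bas.getD c' 0)).2.2 (C.cl (C.bas.getD c' 0)).1.2 i j := by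
    intro i j
    rw [← hbl, List.map_map, List.getD_eq_getElem?_getD, List.getElem?_map,
      List.getElem?_eq_getElem hc', List.getD_eq_getElem?_getD, List.getElem?_eq_getElem hc',
      ← mn_eq]
    rfl
  simp only [h6] at h5
  have h7 : -C.DG * (if c' = c then 1 else 0) + (g.map (fun e => e.2.2 *
      min2 (C.cl (C.bas.getD c' 0)).2.2 (C.cl (C.bas.getD c' 0)).1.2 e.1 e.2.1)).sum = 0 := h5
  have h8 : (g.map (fun e => e.2.2 * min2 (C.cl (C.bas.getD c' 0)).2.2
      (C.cl (C.bas.getD c' 0)).1.2 e.1 e.2.1)).sum = if c = c' then C.DG else 0 := by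
    by_cases hcc : c = c'
    · subst hcc
      rw [if_pos rfl] at h7 ⊢
      linarith
    · rw [if_neg (fun h => hcc h.symm)] at h7
      rw [if_neg hcc]
      linarith
  unfold Cert.chk3
  exact decide_eq_true h8

end Pool.Agent.MC
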