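import Pool.Agent.Lib_helper40.MC.H

/-!
# Closed elements from a modular certificate: all checks
-/

set_option autoImplicit false
set_option linter.unusedSectionVars false
set_option linter.unusedVariables false

open scoped TensorProduct

namespace Pool.Agent.MC

open TN MK4 KC72

/-- bounds and tables -/
structure RTab where
  /-- bound of the exponents -/
  MA : ℕ
  /-- base for the minors -/
  B : ℕ
  /-- base for the wedge products -/
  Z : ℕ
  /-- pairs of indices -/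
  P2 : List (ℕ × ℕ)
  /-- packed minors of the basis classes -/
  MB : List ℤ
  /-- packed wedge products of the basis classes -/
  PM : List ℤ
  /-- packed residues of the basis classes -/
  PR : List ℕ
  /-- number of rows, prime, sizes -/
  S : ℕ
  /-- prime -/
  p : ℕ
  /-- digits -/
  a : ℕ
  /-- size of the quotients -/
  c : ℕ
  /-- size of the residues -/
  d : ℕ
  /-- right inverse -/
  XQ : List (List ℕ)
  /-- number of rows -/
  K : ℕ
  /-- prime -/
  p' : ℕ
  /-- digits -/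
  a' : ℕ
  /-- size of the quotients -/
  c' : ℕ
  /-- size of the residues -/
  d' : ℕ
  /-- right inverse -/
  XT : List (List ℕ)

/-- numerical conditions -/
def Num (R : RCert) (A : RTab) : Prop :=
  R.r ≤ R.n ∧ R.DG ≠ 0 ∧ R.cls.length = R.N ∧ R.m ≤ R.N ∧ R.rels.length + R.m = R.N ∧
  2 * R.o = 2 ^ R.ko ∧ R.ko ≤ R.kb ∧ 10 * R.o < 2 ^ R.kb ∧ 1 ≤ R.o ∧ R.G.length = R.m ∧
  R.Q.length = A.S ∧ R.T.length = A.K ∧ A.S + A.K = R.m * R.n ∧ A.XT.length = R.m ∧
  1 < A.p ∧ A.p ≤ 8 ∧ 0 < A.a ∧ A.c ≤ A.a ∧ A.d ≤ A.a ∧ A.p * 2 ^ A.c < 2 ^ A.a ∧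
  R.m * (3 * (A.p - 1)) * (2 ^ A.d - 1) < 2 ^ A.a ∧
  1 < A.p' ∧ A.p' ≤ 8 ∧ 0 < A.a' ∧ A.c' ≤ A.a' ∧ A.d' ≤ A.a' ∧ A.p' * 2 ^ A.c' < 2 ^ A.a' ∧
  R.m * R.n * ((A.p' - 1) * (A.p' - 1)) * (2 ^ A.d' - 1) < 2 ^ A.a' ∧
  2 * (2 * A.MA ^ 2 + R.m * R.o * (2 * A.MA ^ 2)) < A.Z

instance (R : RCert) (A : RTab) : Decidable (Num R A) := by
  unfold Num
  infer_instance

/-- the basis -/
def cB (R : RCert) : Bool :=
  (List.range R.m).all (fun c => Nat.beq (R.W c)
    (Nat.add (opk (Nat.pow 2 R.kb) R.o R.m) (Nat.pow (Nat.pow 2 R.kb) c)))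

/-- a relation -/
def cR (R : RCert) (s : ℕ) (e : Rel) : Bool :=
  chkR R.r R.cls e && pos (Nat.add R.m s) e &&
    decide (zv (fun c => Int.sub (Int.ofNat (R.W c))
      (Int.ofNat (opk (Nat.pow 2 R.kb) R.o R.m))) e = 0)

/-- a coordinate -/
noncomputable def cQ (R : RCert) (A : RTab) (s : ℕ) (q : ℕ × ℕ × ℕ) : Bool :=
  Nat.blt q.1 q.2.1 && Nat.blt q.2.1 q.2.2 && Nat.blt q.2.1 R.r && Nat.blt q.2.2 R.n &&
    rc A.p A.a A.c A.S s (rQ A.p q.1 q.2.1 q.2.2 (Nat.pow 8 (Nat.add (Nat.mul q.1 R.n) q.2.1))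
      (Nat.pow 8 (Nat.add (Nat.mul q.1 R.n) q.2.2)) (Nat.pow 8 (Nat.add (Nat.mul q.2.1 R.n) q.2.2))
      A.PR A.XQ)

/-- a class -/
def clT (R : RCert) (t : ℕ) : Mo × Mo := R.cls.getD t default

/-- the exponents of a trivial relation -/
def aT (R : RCert) (t : ℕ × Bool) : List ℤ :=
  Bool.rec (motive := fun _ => List ℤ) (clT R t.1).1.2 (clT R t.1).2.2 t.2

/-- a trivial relation -/
noncomputable def cT (R : RCert) (A : RTab) (s : ℕ) (t : ℕ × Bool) : Bool :=
  Nat.blt t.1 R.N &&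
    rc A.p' A.a' A.c' A.K s (rT A.p' (Nat.pow 2 R.kb) (Nat.mul R.o (Nat.sub A.p' 1))
      (pa A.p' (aT R t)) A.XT (R.W t.1)) &&
    decide (dzR (Nat.pow 2 R.kb) R.o A.PM (R.W t.1) =
      pkw (Int.ofNat A.Z) (Int.ofNat (Nat.pow A.Z R.n)) R.r (clT R t.1))

/-- the tables of the basis classes -/
def cK (R : RCert) (A : RTab) : Prop :=
  (R.cls.take R.m).map (prF A.p R.n R.r) = A.PR ∧
  (R.cls.take R.m).map (pkw (Int.ofNat A.Z) (Int.ofNat (Nat.pow A.Z R.n)) R.r) = A.PM ∧
  A.P2.map (fun x => pmb (Int.ofNat A.B) x.1 x.2 (R.cls.take R.m)) = A.MB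

noncomputable instance (R : RCert) (A : RTab) : Decidable (cK R A) := by
  unfold cK
  infer_instance

section

variable {R : RCert} {A : RTab}

lemma bas_map (h : R.m ≤ R.cls.length) :
    R.toCert.bas.map R.toCert.cl = R.cls.take R.m := by
  show (List.range R.m).map (fun c => R.cls.getD c default) = R.cls.take R.m
  refine List.ext_getElem (by simp [h]) fun i h1 h2 => ?_
  have h3 : i < R.m := by simpa using h1
  rw [List.getElem_map, List.getElem_range, List.getElem_take, List.getD_eq_getElem?_getD,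
    List.getElem?_eq_getElem (by omega)]
  rfl

lemma cl_bas (i : Fin R.toCert.bas.length) :
    R.toCert.cl (R.toCert.bas.get i) = R.cls.getD i.val default := by
  show R.cls.getD ((List.range R.m)[i.val]) default = _
  rw [List.getElem_range]

lemma bas_len : R.toCert.bas.length = R.m := by
  show (List.range R.m).length = R.m
  exact List.length_range

lemma cfQ_sum {p i j l n : ℕ} (hij : i < j) (hjl : j < l) (hl : l < n) (hp : 0 < p) (e : Mo × Mo) :
    ∑ x : Fin n, cfQ p i j l e x.val ≤ 3 * (p - 1) := by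
  have h1 : ∀ x : Fin n, cfQ p i j l e x.val ≤ (if x = (⟨l, hl⟩ : Fin n) then (p - 1) else 0) +
      ((if x = (⟨j, by omega⟩ : Fin n) then (p - 1) else 0) +
        (if x = (⟨i, by omega⟩ : Fin n) then (p - 1) else 0)) := by
    intro x
    have r1 := red_lt hp (mn e.2.2 e.1.2 i j)
    have r2 := red_lt hp (-mn e.2.2 e.1.2 i l)
    have r3 := red_lt hp (mn e.2.2 e.1.2 j l)
    unfold cfQ
    simp only [Fin.ext_iff]
    split_ifs <;> omega
  refine (Finset.sum_le_sum fun x _ => h1 x).trans ?_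
  rw [Finset.sum_add_distrib, Finset.sum_add_distrib, Finset.sum_ite_eq', Finset.sum_ite_eq',
    Finset.sum_ite_eq', if_pos (Finset.mem_univ _), if_pos (Finset.mem_univ _),
    if_pos (Finset.mem_univ _)]
  omega

lemma xm_nth {a d N : ℕ} (XL : List (List ℕ)) (h : XL.all (fun X => X.all (xm a d N)) = true)
    (c j : ℕ) : xm a d N (nthN (XL.getD c []) j) = true := by
  have h0 : xm a d N 0 = true := by
    have h1 : 0 < (2 ^ a) ^ N := by positivity
    have h2 : Nat.blt 0 (Nat.pow (Nat.pow 2 a) N) = true := by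
      rw [Nat.blt_eq]
      exact h1
    have h3 : Nat.land 0 (mkc a d N) = 0 := Nat.zero_and _
    unfold xm
    rw [h2, h3]
    rfl
  rw [List.getD_eq_getElem?_getD]
  rcases hX : XL[c]? with _ | X
  · simpa using h0
  · rw [Option.getD_some]
    rw [List.all_eq_true] at h
    have h1 := h X (List.mem_of_getElem? hX)
    rw [List.all_eq_true] at h1
    by_cases hj : j < X.length
    · rw [nthN_getElem hj]
      exact h1 _ (List.getElem_mem hj)
    · have : nthN X j = 0 := by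
        clear h1 hX
        induction X generalizing j with
        | nil => simp
        | cons x X ih =>
          cases j with
          | zero => simp at hj
          | succ j => exact ih j (by simpa using hj)
      rw [this]; exact h0

/-- the coordinates are independent -/
lemma liQ_of (hrn : R.r ≤ R.n) (hS : R.Q.length = A.S) (hp : 1 < A.p) (hp8 : A.p ≤ 8)
    (ha : 0 < A.a) (hca : A.c ≤ A.a) (hda : A.d ≤ A.a) (hpc : A.p * 2 ^ A.c < 2 ^ A.a)
    (hwt : R.m * (3 * (A.p - 1)) * (2 ^ A.d - 1) < 2 ^ A.a) (hm : R.m ≤ R.cls.length)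
    (hE : ∀ e ∈ R.cls, e.1.2.length = R.n ∧ e.2.2.length = R.n)
    (hPR : (R.cls.take R.m).map (prF A.p R.n R.r) = A.PR)
    (hX : A.XQ.all (fun X => X.all (xm A.a A.d A.S)) = true)
    (hq : ∀ s (h : s < R.Q.length), cQ R A s R.Q[s] = true) :
    LinearIndependent ℚ (fun (q : Fin R.Q.length) =>
      fun (x : Fin R.toCert.bas.length × Fin R.toCert.n) =>
      ((cz (R.Q.get q).1 (R.Q.get q).2.1 (R.Q.get q).2.2
        (R.toCert.cl (R.toCert.bas.get x.1)) x.2.val : ℤ) : ℚ)) := by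
  have hq' : ∀ q : Fin R.Q.length, ((R.Q.get q).1 < (R.Q.get q).2.1 ∧
      (R.Q.get q).2.1 < (R.Q.get q).2.2 ∧ (R.Q.get q).2.1 < R.r ∧ (R.Q.get q).2.2 < R.n) ∧
      rc A.p A.a A.c A.S q.val (rQ A.p (R.Q.get q).1 (R.Q.get q).2.1 (R.Q.get q).2.2
        (8 ^ ((R.Q.get q).1 * R.n + (R.Q.get q).2.1))
        (8 ^ ((R.Q.get q).1 * R.n + (R.Q.get q).2.2))
        (8 ^ ((R.Q.get q).2.1 * R.n + (R.Q.get q).2.2)) A.PR A.XQ) = true := by
    intro q
    have h1 := hq q.val q.isLt
    unfold cQ at h1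
    simp only [Bool.and_eq_true, Nat.blt_eq] at h1
    exact ⟨⟨h1.1.1.1.1, h1.1.1.1.2, h1.1.1.2, h1.1.2⟩, h1.2⟩
  rw [← hS] at hX
  refine li_of_mask (p := A.p) (a := A.a) (c := A.c) (d := A.d) ha hp hca hda hpc _
    (fun q x => cfQ A.p (R.Q.get q).1 (R.Q.get q).2.1 (R.Q.get q).2.2
      (R.toCert.cl (R.toCert.bas.get x.1)) x.2.val) ?_
    (fun x => nthN (A.XQ.getD x.1.val []) x.2.val) (fun x => xm_nth _ hX _ _) ?_ ?_
  · intro q x
    show (A.p : ℤ) ∣ cz _ _ _ _ _ - _
    unfold cz cfQ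
    split_ifs
    · exact red_spec (by omega) _
    · exact red_spec (by omega) _
    · exact red_spec (by omega) _
    · simp
  · intro q
    obtain ⟨⟨h1, h2, h3, h4⟩, -⟩ := hq' q
    refine lt_of_le_of_lt (Nat.mul_le_mul_right _ ?_) hwt
    rw [Fintype.sum_prod_type]
    have hs : ∀ c : Fin R.toCert.bas.length, ∑ y : Fin R.toCert.n,
        cfQ A.p (R.Q.get q).1 (R.Q.get q).2.1 (R.Q.get q).2.2
          (R.toCert.cl (R.toCert.bas.get c)) y.val ≤ 3 * (A.p - 1) :=
      fun c => cfQ_sum (n := R.toCert.n) h1 h2 h4 (by omega) _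
    refine (Finset.sum_le_sum fun c _ => hs c).trans ?_
    rw [Finset.sum_const, Finset.card_univ, Fintype.card_fin, smul_eq_mul, bas_len]
  · intro q
    obtain ⟨⟨h1, h2, h3, h4⟩, h5⟩ := hq' q
    have e1 : ∑ x : Fin R.toCert.bas.length × Fin R.toCert.n,
        cfQ A.p (R.Q.get q).1 (R.Q.get q).2.1 (R.Q.get q).2.2
          (R.toCert.cl (R.toCert.bas.get x.1)) x.2.val * nthN (A.XQ.getD x.1.val []) x.2.val =
        rowQ A.p (R.Q.get q).1 (R.Q.get q).2.1 (R.Q.get q).2.2
          (R.toCert.bas.map R.toCert.cl) A.XQ :=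
      (rowQ_eq R.toCert.cl h1 h2 h4 R.toCert.bas A.XQ).symm
    rw [e1, bas_map hm]
    have e3 : rQ A.p (R.Q.get q).1 (R.Q.get q).2.1 (R.Q.get q).2.2
        (8 ^ ((R.Q.get q).1 * R.n + (R.Q.get q).2.1))
        (8 ^ ((R.Q.get q).1 * R.n + (R.Q.get q).2.2))
        (8 ^ ((R.Q.get q).2.1 * R.n + (R.Q.get q).2.2)) A.PR A.XQ =
        rowQ A.p (R.Q.get q).1 (R.Q.get q).2.1 (R.Q.get q).2.2 (R.cls.take R.m) A.XQ := by
      rw [← hPR]
      have key : ∀ (L : List (Mo × Mo)), (∀ e ∈ L, e ∈ R.cls) → ∀ XL : List (List ℕ),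
          rQ A.p (R.Q.get q).1 (R.Q.get q).2.1 (R.Q.get q).2.2
            (8 ^ ((R.Q.get q).1 * R.n + (R.Q.get q).2.1))
            (8 ^ ((R.Q.get q).1 * R.n + (R.Q.get q).2.2))
            (8 ^ ((R.Q.get q).2.1 * R.n + (R.Q.get q).2.2)) (L.map (prF A.p R.n R.r)) XL =
          rowQ A.p (R.Q.get q).1 (R.Q.get q).2.1 (R.Q.get q).2.2 L XL := by
        intro L
        induction L with
        | nil => intro _ XL; rfl
        | cons e L ih =>
          intro hL XL
          cases XL with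
          | nil => rfl
          | cons X XL =>
            have he := hE e (hL e (by simp))
            have s1 := prF_spec (p := A.p) (n := R.n) (r := R.r) (by omega) hp8 hrn (e := e) he.1 he.2
            rw [List.map_cons, rQ_cons, ih (fun e' he' => hL e' (by simp [he'])), rowQ, ms_eq,
              ms_eq, ms_eq, s1 _ _ (by omega) (by omega), s1 _ _ (by omega) h4,
              s1 _ _ h3 h4, red_neg (by omega)]
      exact key _ (fun e he => List.mem_of_mem_take he) _
    rw [← hS] at h5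
    rw [← e3]
    exact h5

/-- the trivial relations are independent -/
lemma liT_of (hK : R.T.length = A.K) (hp : 1 < A.p') (hp8 : A.p' ≤ 8)
    (ha : 0 < A.a') (hca : A.c' ≤ A.a') (hda : A.d' ≤ A.a') (hpc : A.p' * 2 ^ A.c' < 2 ^ A.a')
    (hwt : R.m * R.n * ((A.p' - 1) * (A.p' - 1)) * (2 ^ A.d' - 1) < 2 ^ A.a')
    (hN : R.cls.length = R.N) (hXL : A.XT.length = R.m)
    (hE : ∀ e ∈ R.cls, e.1.2.length = R.n ∧ e.2.2.length = R.n)
    (hX : A.XT.all (fun X => X.all (xm A.a' A.d' A.K)) = true)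
    (hq : ∀ s (h : s < R.T.length), cT R A s R.T[s] = true) :
    LinearIndependent ℚ (fun (t : Fin R.T.length) =>
      fun (x : Fin R.toCert.bas.length × Fin R.toCert.n) =>
      (((rh R.toCert (R.T.get t).1).getD x.1.val 0 * (Ta R.toCert (R.T.get t)).getD x.2.val 0 : ℤ) :
        ℚ)) := by
  have hq' : ∀ t : Fin R.T.length, (R.T.get t).1 < R.N ∧
      rc A.p' A.a' A.c' A.K t.val (rT A.p' (2 ^ R.kb) (R.o * (A.p' - 1))
        (pa A.p' (Ta R.toCert (R.T.get t))) A.XT (R.W (R.T.get t).1)) = true := by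
    intro t
    have h1 := hq t.val t.isLt
    unfold cT at h1
    simp only [Bool.and_eq_true, Nat.blt_eq] at h1
    refine ⟨h1.1.1, ?_⟩
    have h2 := h1.1.2
    have h3 : aT R R.T[t.val] = Ta R.toCert (R.T.get t) := by
      unfold aT Ta clT
      show _ = if (R.T.get t).2 = true then (R.cls.getD (R.T.get t).1 default).2.2 else
        (R.cls.getD (R.T.get t).1 default).1.2
      rw [List.get_eq_getElem]
      cases R.T[t.val].2 <;> rfl
    rw [h3] at h2
    exact h2
  have hρ : ∀ t : Fin R.T.length, rh R.toCert (R.T.get t).1 =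
      decN (2 ^ R.kb) R.o R.m (R.W (R.T.get t).1) := by
    intro t
    have h1 := (hq' t).1
    show (((List.range R.N).map (fun c => ((1 : ℤ), ([] : List ℤ),
      decN (2 ^ R.kb) R.o R.m (R.W c)))).getD (R.T.get t).1 default).2.2 = _
    rw [List.getD_eq_getElem?_getD, List.getElem?_map, List.getElem?_range h1]
    rfl
  have hlen : ∀ t : Fin R.T.length, (Ta R.toCert (R.T.get t)).length = R.n := by
    intro t
    have h1 := (hq' t).1
    have h2 : R.cls.getD (R.T.get t).1 default ∈ R.cls := by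
      rw [List.getD_eq_getElem?_getD, List.getElem?_eq_getElem (by omega)]
      exact List.getElem_mem _
    have h3 := hE _ h2
    unfold Ta
    show List.length (if (R.T.get t).2 = true then (R.cls.getD (R.T.get t).1 default).2.2 else
        (R.cls.getD (R.T.get t).1 default).1.2) = _
    split_ifs
    · exact h3.2
    · exact h3.1
  have hdl : ∀ W, (decN (2 ^ R.kb) R.o R.m W).length = R.m := by
    intro W
    generalize R.m = m
    induction m generalizing W with
    | zero => rfl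
    | succ m ih => rw [decN, List.length_cons, ih]
  rw [← hK] at hX
  refine li_of_mask (p := A.p') (a := A.a') (c := A.c') (d := A.d') ha hp hca hda hpc _
    (fun t x => red A.p' ((rh R.toCert (R.T.get t).1).getD x.1.val 0) *
      red A.p' ((Ta R.toCert (R.T.get t)).getD x.2.val 0)) ?_
    (fun x => nthN (A.XT.getD x.1.val []) x.2.val) (fun x => xm_nth _ hX _ _) ?_ ?_
  · intro t x
    show (A.p' : ℤ) ∣ _ * _ - _
    have h1 := red_spec (show 0 < A.p' by omega) ((rh R.toCert (R.T.get t).1).getD x.1.val 0)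
    have h2 := red_spec (show 0 < A.p' by omega) ((Ta R.toCert (R.T.get t)).getD x.2.val 0)
    set u := (rh R.toCert (R.T.get t).1).getD x.1.val 0
    set v := (Ta R.toCert (R.T.get t)).getD x.2.val 0
    have h3 : u * v - ((red A.p' u * red A.p' v : ℕ) : ℤ) =
        (u - (red A.p' u : ℕ)) * v + (red A.p' u : ℕ) * (v - (red A.p' v : ℕ)) := by
      push_cast; ring
    rw [h3]
    exact dvd_add (Dvd.dvd.mul_right h1 _) (Dvd.dvd.mul_left h2 _)
  · intro t
    refine lt_of_le_of_lt (Nat.mul_le_mul_right _ ?_) hwt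
    have h1 : ∀ x ∈ (Finset.univ : Finset (Fin R.toCert.bas.length × Fin R.toCert.n)),
        red A.p' ((rh R.toCert (R.T.get t).1).getD x.1.val 0) *
          red A.p' ((Ta R.toCert (R.T.get t)).getD x.2.val 0) ≤ (A.p' - 1) * (A.p' - 1) := by
      intro x _
      refine Nat.mul_le_mul ?_ ?_
      · exact Nat.le_sub_one_of_lt (red_lt (by omega) _)
      · exact Nat.le_sub_one_of_lt (red_lt (by omega) _)
    refine (Finset.sum_le_sum h1).trans ?_
    rw [Finset.sum_const, Finset.card_univ, Fintype.card_prod, Fintype.card_fin, Fintype.card_fin,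
      smul_eq_mul, bas_len]
    exact le_refl _
  · intro t
    have e1 := rowT_eq A.p' (m := R.m) (n := R.n) (Ta R.toCert (R.T.get t)) (hlen t)
      (rh R.toCert (R.T.get t).1) (by rw [hρ t]; exact hdl _) A.XT
    have e2 : ∑ x : Fin R.toCert.bas.length × Fin R.toCert.n,
        (red A.p' ((rh R.toCert (R.T.get t).1).getD x.1.val 0) *
        red A.p' ((Ta R.toCert (R.T.get t)).getD x.2.val 0)) * nthN (A.XT.getD x.1.val []) x.2.val =
        rowT A.p' (Ta R.toCert (R.T.get t)) (rh R.toCert (R.T.get t).1) A.XT := by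
      rw [e1, Fintype.sum_prod_type, Fintype.sum_prod_type]
      exact Fintype.sum_equiv (finCongr bas_len) _ _ (fun x => rfl)
    rw [e2, hρ t]
    have e3 := rT_eq (p := A.p') (b := 2 ^ R.kb) (o := R.o) (by omega) hp8
      (Ta R.toCert (R.T.get t)) A.XT (R.W (R.T.get t).1)
    rw [hXL] at e3
    rw [← e3]
    have e4 := (hq' t).2
    rw [← hK] at e4
    exact e4

lemma sab_le {o : ℤ} (v : List ℤ) (h : ∀ x ∈ v, |x| ≤ o) : sab v ≤ v.length * o := by
  induction v with
  | nil => simp [sab]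
  | cons x v ih =>
    have h1 := h x (by simp)
    have h2 := ih (fun y hy => h y (by simp [hy]))
    rw [sab, List.length_cons]
    push_cast
    linarith

/-- the trivial relations vanish -/
lemma td_of (h3 : R.cls.length = R.N) (h4 : R.m ≤ R.N) (h6 : 2 * R.o = 2 ^ R.ko)
    (h7 : R.ko ≤ R.kb) (h8 : 10 * R.o < 2 ^ R.kb) (h9 : 1 ≤ R.o)
    (h29 : 2 * (2 * A.MA ^ 2 + R.m * R.o * (2 * A.MA ^ 2)) < A.Z)
    (hom : xm R.kb R.ko (R.m * R.N) R.Om = true)
    (hE : ∀ e ∈ R.cls, (e.1.2.length = R.n ∧ bd (A.MA : ℤ) e.1.2) ∧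
      (e.2.2.length = R.n ∧ bd (A.MA : ℤ) e.2.2))
    (hPM : (R.cls.take R.m).map (pkw (Int.ofNat A.Z) (Int.ofNat (Nat.pow A.Z R.n)) R.r) = A.PM)
    (hq : ∀ s (h : s < R.T.length), cT R A s R.T[s] = true) :
    ∀ t ∈ R.T, ∀ i l, i < R.toCert.r → l < R.toCert.n →
      ∑ c : Fin R.toCert.bas.length, (rh R.toCert t.1).getD c.val 0 *
        mn (R.toCert.cl (R.toCert.bas.get c)).2.2 (R.toCert.cl (R.toCert.bas.get c)).1.2 i l =
      (R.toCert.rho.getD t.1 default).1 * mn (R.toCert.cl t.1).2.2 (R.toCert.cl t.1).1.2 i l := by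
  intro t ht i l hi hl
  obtain ⟨s, hs, hst⟩ := List.getElem_of_mem ht
  have g1 := hq s hs
  rw [hst] at g1
  unfold cT at g1
  simp only [Bool.and_eq_true, Nat.blt_eq, decide_eq_true_eq] at g1
  obtain ⟨⟨g2, -⟩, g3⟩ := g1
  have hml : R.m ≤ R.cls.length := by omega
  have hct : R.cls.getD t.1 default ∈ R.cls := by
    rw [List.getD_eq_getElem?_getD, List.getElem?_eq_getElem (by omega)]
    exact List.getElem_mem _
  have hrho : R.toCert.rho.getD t.1 default = (1, [], decN (2 ^ R.kb) R.o R.m (R.W t.1)) := by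
    show ((List.range R.N).map (fun c => ((1 : ℤ), ([] : List ℤ),
      decN (2 ^ R.kb) R.o R.m (R.W c)))).getD t.1 default = _
    rw [List.getD_eq_getElem?_getD, List.getElem?_map, List.getElem?_range g2]
    rfl
  have hrh : rh R.toCert t.1 = decN (2 ^ R.kb) R.o R.m (R.W t.1) := by
    unfold rh; rw [hrho]
  have hPMl : A.PM.length = R.m := by
    rw [← hPM, List.length_map, List.length_take]
    omega
  have e1 : dzR (Nat.pow 2 R.kb) R.o A.PM (R.W t.1) =
      dotZ (decN (2 ^ R.kb) R.o R.m (R.W t.1)) A.PM := by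
    rw [dzR_eq, hPMl]
    rfl
  have hZ : (Int.ofNat (Nat.pow A.Z R.n) : ℤ) = (A.Z : ℤ) ^ R.n := by
    show ((A.Z ^ R.n : ℕ) : ℤ) = _
    push_cast
    rfl
  have e2 : ∀ e ∈ R.cls, pkw (Int.ofNat A.Z) (Int.ofNat (Nat.pow A.Z R.n)) R.r e =
      pk (A.Z : ℤ) (wv R.r e) := by
    intro e he
    rw [hZ]
    exact pkw_eq (n := R.n) (A.Z : ℤ) (hE e he).1.1 (hE e he).2.1
  have e3 : A.PM = (R.toCert.bas.map (fun i => wv R.r (R.toCert.cl i))).map (pk (A.Z : ℤ)) := by
    have h0 : R.toCert.bas.map (fun i => wv R.r (R.toCert.cl i)) =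
        (R.toCert.bas.map R.toCert.cl).map (wv R.r) := by rw [List.map_map]; rfl
    rw [h0, bas_map hml, ← hPM, List.map_map]
    exact List.map_congr_left fun e he => e2 e (List.mem_of_mem_take he)
  have hM : (0 : ℤ) ≤ (A.MA : ℤ) := Int.natCast_nonneg _
  have hM2 : (0 : ℤ) ≤ 2 * (A.MA : ℤ) ^ 2 := by positivity
  set ρ := decN (2 ^ R.kb) R.o R.m (R.W t.1) with hρ
  have hρl : ρ.length = R.m := by
    rw [hρ]
    generalize R.W t.1 = W
    generalize R.m = m
    induction m generalizing W with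
    | zero => rfl
    | succ m ih => rw [decN, List.length_cons, ih]
  have hρb : ∀ x ∈ ρ, |x| ≤ (R.o : ℤ) := by
    intro x hx
    obtain ⟨i, hi, rfl⟩ := List.getElem_of_mem hx
    have hi' : i < R.m := by omega
    have f1 : ρ[i] = ρ.getD i 0 := by
      rw [List.getD_eq_getElem?_getD, List.getElem?_eq_getElem hi]
      rfl
    rw [f1, hρ, decN_getD _ _ _ _ _ hi']
    have hkb : 0 < R.kb := by
      by_contra h0
      have h1 : R.kb = 0 := by omega
      rw [h1] at h8
      omega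
    obtain ⟨x1, x2⟩ := xm_spec hkb h7 hom
    have h3 : R.W t.1 / (2 ^ R.kb) ^ i % 2 ^ R.kb =
        R.Om / (2 ^ R.kb) ^ (R.m * t.1 + i) % 2 ^ R.kb := by
      show (R.Om / ((2 ^ R.kb) ^ R.m) ^ t.1 % (2 ^ R.kb) ^ R.m) / (2 ^ R.kb) ^ i % 2 ^ R.kb = _
      rw [mod_digit (by positivity) hi', Nat.div_div_eq_div_mul, ← pow_mul, ← pow_add]
    have h4 : R.Om / (2 ^ R.kb) ^ (R.m * t.1 + i) % 2 ^ R.kb < 2 ^ R.ko := by
      refine x2 _ ?_
      calc R.m * t.1 + i < R.m * t.1 + R.m := by omega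
        _ = R.m * (t.1 + 1) := by ring
        _ ≤ R.m * R.N := Nat.mul_le_mul_left _ g2
    rw [h3, abs_le]
    constructor <;> omega
  have s1 : bd (sab ρ * (2 * (A.MA : ℤ) ^ 2))
      (comb ρ (R.toCert.bas.map (fun i => wv R.r (R.toCert.cl i)))) :=
    bd_comb hM2 _ (by
      intro v hv
      rw [List.mem_map] at hv
      obtain ⟨x, hx, rfl⟩ := hv
      have : R.toCert.cl x ∈ R.cls := by
        have h0 : R.toCert.cl x ∈ R.toCert.bas.map R.toCert.cl := List.mem_map_of_mem hx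
        rw [bas_map hml] at h0
        exact List.mem_of_mem_take h0
      exact wv_bd hM (hE _ this).1.2 (hE _ this).2.2 _)
  have s2 := bd_axpy hM2 (mul_nonneg (sab_nonneg _) hM2) (-1)
    (wv_bd hM (hE _ hct).1.2 (hE _ hct).2.2 R.r) s1
  have s3 := sab_le ρ hρb
  rw [hρl] at s3
  have s4 : 2 * (|(-1 : ℤ)| * (2 * (A.MA : ℤ) ^ 2) + sab ρ * (2 * (A.MA : ℤ) ^ 2)) < (A.Z : ℤ) := by
    have h0 : (2 : ℤ) * (2 * (A.MA : ℤ) ^ 2 + R.m * R.o * (2 * (A.MA : ℤ) ^ 2)) < A.Z := by
      exact_mod_cast h29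
    rw [abs_neg, abs_one, one_mul]
    have := mul_le_mul_of_nonneg_right s3 hM2
    linarith
  have e4 := isZ_of_pk s4 s2 (by
    rw [pk_axpy, pk_comb, ← e3, ← e1, g3]
    have : clT R t.1 = R.cls.getD t.1 default := rfl
    rw [this, e2 _ hct]
    ring)
  have e5 := isZ_getD e4 (i * R.n + l)
  rw [axpy_getD, comb_getD ρ R.toCert.bas (fun i => wv R.r (R.toCert.cl i)) _ rfl,
    wv_getD (r := R.r) (hE _ hct).1.1 (hE _ hct).2.1 hi hl] at e5
  rw [hrho, hrh]
  show _ = (1 : ℤ) * mn (R.cls.getD t.1 default).2.2 (R.cls.getD t.1 default).1.2 i l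
  have e6 : ∀ c : Fin R.toCert.bas.length,
      (wv R.r (R.toCert.cl (R.toCert.bas.get c))).getD (i * R.n + l) 0 =
      mn (R.toCert.cl (R.toCert.bas.get c)).2.2 (R.toCert.cl (R.toCert.bas.get c)).1.2 i l := by
    intro c
    have : R.toCert.cl (R.toCert.bas.get c) ∈ R.cls := by
      have h0 : R.toCert.cl (R.toCert.bas.get c) ∈ R.toCert.bas.map R.toCert.cl :=
        List.mem_map_of_mem (List.get_mem _ _)
      rw [bas_map hml] at h0
      exact List.mem_of_mem_take h0
    exact wv_getD (hE _ this).1.1 (hE _ this).2.1 hi hl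
  simp only [e6] at e5
  linarith

/-- **all checks** -/
theorem rOk_of (h0 : Num R A) (h2 : xm R.kb R.ko (R.m * R.N) R.Om = true) (h3 : cB R = true)
    {l4 n4 : ℕ} (hl4 : 0 < l4) (hc4 : R.rels.length ≤ n4 * l4)
    (h4 : ∀ k < n4, blk (cR R) R.rels l4 k = true)
    (h5 : allI (fun c g => cG R.DG A.B A.MA A.P2 A.MB c g) R.G 0 = true)
    (h6 : R.toCert.chk3' = true) (hK : cK R A)
    (h7 : R.cls.all (fun e => bdE A.MA R.n e.1.2 && bdE A.MA R.n e.2.2) = true)
    (h8 : A.XQ.all (fun X => X.all (xm A.a A.d A.S)) = true)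
    (h9 : A.XT.all (fun X => X.all (xm A.a' A.d' A.K)) = true)
    {lQ nQ : ℕ} (hlQ : 0 < lQ) (hcQ : R.Q.length ≤ nQ * lQ)
    (hQ : ∀ k < nQ, blk (cQ R A) R.Q lQ k = true)
    {lT nT : ℕ} (hlT : 0 < lT) (hcT : R.T.length ≤ nT * lT)
    (hT : ∀ k < nT, blk (cT R A) R.T lT k = true) : ROk R := by
  obtain ⟨n1, n2, n3, n4', n5, n6, n7, n8, n9, n10, n11, n12, n13, n14, n15, n16, n17, n18, n19,
    n20, n21, n22, n23, n24, n25, n26, n27, n28, n29⟩ := h0
  have hE : ∀ e ∈ R.cls, (e.1.2.length = R.n ∧ bd (A.MA : ℤ) e.1.2) ∧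
      (e.2.2.length = R.n ∧ bd (A.MA : ℤ) e.2.2) := by
    intro e he
    rw [List.all_eq_true] at h7
    have := h7 e he
    rw [Bool.and_eq_true] at this
    exact ⟨bdE_spec this.1, bdE_spec this.2⟩
  have hE' : ∀ e ∈ R.cls, e.1.2.length = R.n ∧ e.2.2.length = R.n :=
    fun e he => ⟨(hE e he).1.1, (hE e he).2.1⟩
  have hR : ∀ s (hs : s < R.rels.length), cR R s R.rels[s] = true := blk_spec hl4 hc4 h4
  have hR' : ∀ s (hs : s < R.rels.length), chkR R.r R.cls R.rels[s] = true ∧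
      pos (R.m + s) R.rels[s] = true ∧
      zv (fun c => (R.W c : ℤ) - (opk (2 ^ R.kb) R.o R.m : ℕ)) R.rels[s] = 0 := by
    intro s hs
    have := hR s hs
    unfold cR at this
    simp only [Bool.and_eq_true, decide_eq_true_eq] at this
    exact ⟨this.1.1, this.1.2, this.2⟩
  have hml : R.m ≤ R.cls.length := by omega
  obtain ⟨k1, k2, k3⟩ := hK
  have k3' : A.P2.map (fun x => pk (A.B : ℤ)
      ((R.cls.take R.m).map (fun e => mn e.2.2 e.1.2 x.1 x.2))) = A.MB := by
    rw [← k3]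
    exact List.map_congr_left fun x _ => (pmb_eq _ _ _ _).symm
  have hQ' := blk_spec hlQ hcQ hQ
  have hT' := blk_spec hlT hcT hT
  refine ⟨⟨n3, n4', n5, n6, n7, n8, n9, ?_, h2, ?_, fun s hs => (hR' s hs).2⟩, ?_⟩
  · rw [List.all_eq_true]
    intro e he
    obtain ⟨s, hs, rfl⟩ := List.getElem_of_mem he
    exact (hR' s hs).1
  · intro c hc
    unfold cB at h3
    rw [List.all_eq_true] at h3
    exact Nat.eq_of_beq_eq_true (h3 c (List.mem_range.mpr hc))
  · refine ⟨n1, n2, ?_, h6, ?_, ?_, ?_, ?_, ?_, ?_, ?_⟩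
    · intro c hc c' hc'
      rw [bas_len] at hc
      refine chk3_of (bas_map hml) (B := A.B) (MA := A.MA) (fun e he => ?_) k3' ?_ c' hc'
      · have := hE e (List.mem_of_mem_take he)
        exact ⟨this.1.2, this.2.2⟩
      · have := allI_spec h5 c (by omega)
        rw [zero_add] at this
        show cG R.DG A.B A.MA A.P2 A.MB c (R.G.getD c []) = true
        rw [List.getD_eq_getElem?_getD, List.getElem?_eq_getElem (by omega)]
        exact this
    · unfold Cert.chk7
      rw [List.all_eq_true]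
      intro i hi
      have hi' : i < R.m := List.mem_range.mp hi
      have h1 : R.toCert.cl i ∈ R.cls := by
        show R.cls.getD i default ∈ R.cls
        rw [List.getD_eq_getElem?_getD, List.getElem?_eq_getElem (by omega)]
        exact List.getElem_mem _
      have h2 := hE' _ h1
      simp only [Bool.and_eq_true, decide_eq_true_eq]
      exact ⟨⟨lt_of_lt_of_le hi' hml, h2.1⟩, h2.2⟩
    · rw [bas_len, n11, n12]
      exact n13
    · intro q hq
      obtain ⟨s, hs, rfl⟩ := List.getElem_of_mem hq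
      have h1 := hQ' s hs
      unfold cQ at h1
      simp only [Bool.and_eq_true, Nat.blt_eq] at h1
      exact ⟨h1.1.1.1.1, h1.1.1.1.2, h1.1.1.2, h1.1.2⟩
    · intro t ht
      obtain ⟨s, hs, rfl⟩ := List.getElem_of_mem ht
      have h1 := hT' s hs
      unfold cT at h1
      simp only [Bool.and_eq_true, Nat.blt_eq] at h1
      show _ < R.cls.length
      rw [n3]
      exact h1.1.1
    · exact liQ_of n1 n11 n15 n16 n17 n18 n19 n20 n21 hml hE' k1 h8 hQ'
    · exact liT_of n12 n22 n23 n24 n25 n26 n27 n28 n3 n14 hE' h9 hT'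
    · exact td_of n3 n4' n6 n7 n8 n9 n29 h2 hE k2 hT'

end

end Pool.Agent.MC
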