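import Pool.Agent.Lib_helper40.MC.I

/-!
# Closed elements from a modular certificate: classes in another order
-/

set_option autoImplicit false
set_option linter.unusedSectionVars false
set_option linter.unusedVariables false

open scoped TensorProduct

namespace Pool.Agent.MC

open TN MK4 KC72

/-- the same classes -/
def sameC (L M : List (Mo × Mo)) : Bool :=
  L.all (fun p => decide (p ∈ M)) && M.all (fun p => decide (p ∈ L))

variable {R : RCert} {k : Type*} [Field k] {F : Type*} [Field F] [Algebra k F]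

/-- **closed elements from a modular certificate**, for the same classes in another order -/
theorem closed_of_rcertP [CharZero F] (hR : ROk R) {n r : ℕ} (hn : R.n = n) (hr : R.r = r)
    {cls : List (Mo × Mo)} (hcl : sameC R.cls cls = true) {G : Fin n → F}
    (hG : ∀ i, G i ≠ 0) (hk : ∀ i : Fin n, r ≤ i.val → ∃ c : k, G i = algebraMap k F c)
    (hI : ∀ q : Fin n → ℚ, ∑ i, q i • lg (G i) ∈ V0 k F → ∀ i : Fin n, i.val < r → q i = 0)
    (hJ : LinearIndependent ℚ (fun i => lg (G i)))
    (H : Sols (List.ofFn G) cls) (U : F → Prop)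
    (hU : ∀ h, U h → U (1 - h) → sy h ∈ SC k F ⊔
      Submodule.span ℚ {a : B2 F | ∃ p ∈ cls, a = sy (ev (List.ofFn G) p.1)})
    {z : HK F} (hz : z ∈ Submodule.span ℚ {z : HK F | ∃ (f : F) (u : FT F),
      U f ∧ U (1 - f) ∧ z = MK4.hk (sy f) u}) (hc : Closed z) : z ∈ KC k F := by
  unfold sameC at hcl
  rw [Bool.and_eq_true, List.all_eq_true, List.all_eq_true] at hcl
  have h1 : ∀ p ∈ R.cls, p ∈ cls := fun p hp => of_decide_eq_true (hcl.1 p hp)
  have h2 : ∀ p ∈ cls, p ∈ R.cls := fun p hp => of_decide_eq_true (hcl.2 p hp)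
  refine closed_of_rcertX hR hn hr rfl hG hk hI hJ (fun p hp => H p (h1 p hp)) U ?_ hz hc
  intro h a b
  have hle : SC k F ⊔ Submodule.span ℚ {a : B2 F | ∃ p ∈ cls, a = sy (ev (List.ofFn G) p.1)} ≤
      SC k F ⊔ Submodule.span ℚ {a : B2 F | ∃ p ∈ R.cls, a = sy (ev (List.ofFn G) p.1)} := by
    refine sup_le_sup_left (Submodule.span_mono ?_) _
    rintro x ⟨p, hp, rfl⟩
    exact ⟨p, h2 p hp, rfl⟩
  exact hle (hU h a b)

end Pool.Agent.MC
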