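import Pool.Agent.Lib_helper40.MC.J
import Pool.Agent.Lib_helper24.FAM.LK

/-!
# Closed elements from a modular certificate: one class
-/

set_option autoImplicit false
set_option linter.unusedSectionVars false
set_option linter.unusedVariables false

open scoped TensorProduct

namespace Pool.Agent.MC

open TN MK4 KC72

/-- the coordinates are independent -/
structure OkA (C : Cert) (Q : List (ℕ × ℕ × ℕ)) : Prop where
  rn : C.r ≤ C.n
  DG : C.DG ≠ 0
  c3 : ∀ c < C.bas.length, ∀ c' < C.bas.length, C.chk3 c c' = true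
  c3' : C.chk3' = true
  c7 : C.chk7 = true
  q0 : ∀ q ∈ Q, q.1 < q.2.1 ∧ q.2.1 < q.2.2 ∧ q.2.1 < C.r ∧ q.2.2 < C.n
  liQ : LinearIndependent ℚ (fun (q : Fin Q.length) => fun (x : Fin C.bas.length × Fin C.n) =>
    ((cz (Q.get q).1 (Q.get q).2.1 (Q.get q).2.2 (C.cl (C.bas.get x.1)) x.2.val : ℤ) : ℚ))

section

variable {k : Type*} [Field k] {F : Type*} [Field F] [Algebra k F]

/-- **closed elements from a certificate**, general form -/
theorem cert_abs [CharZero F] (C : Cert) {Q : List (ℕ × ℕ × ℕ)}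
    (hC : OkA C Q) {G : Fin C.n → F} (hG : ∀ i, G i ≠ 0)
    (hρ : ∀ c < C.cls.length, (C.rho.getD c default).1 ≠ 0 ∧
      ((C.rho.getD c default).1 : ℚ) • (EW k (List.ofFn G) C.cls).getD c 0 =
        pl (Bl C k (List.ofFn G)) (C.rho.getD c default).2.2)
    (hk : ∀ x ∈ (List.ofFn G).drop C.r, ∃ c : k, x = algebraMap k F c)
    (hI : ∀ q : Fin C.n → ℚ, ∑ i, q i • lg (G i) ∈ V0 k F → ∀ i : Fin C.n, i.val < C.r → q i = 0)
    (hJ : LinearIndependent ℚ (fun i => lg (G i)))
    (H : Sols (List.ofFn G) C.cls) (u : Fin C.cls.length → FT F) {κ : HK F} (hκ : κ ∈ KC k F)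
    (hc : Closed (∑ c, MK4.hk (sy (ev (List.ofFn G) (C.cls.get c).1)) (u c) + κ))
    {K : ℕ} (N : Submodule ℚ (HK F ⧸ KC k F)) (τ : Fin K → Fin C.bas.length × Fin C.n → ℤ)
    (hτN : ∀ t, ∑ x : Fin C.bas.length × Fin C.n, ((τ t x : ℤ) : ℚ) •
      TT F k (sy (ev (List.ofFn G) (C.cl (C.bas.get x.1)).1)) (lg (G x.2)) ∈ N)
    (hτΦ : ∀ t, ∀ q : Fin Q.length, ∑ x : Fin C.bas.length × Fin C.n,
      cz (Q.get q).1 (Q.get q).2.1 (Q.get q).2.2 (C.cl (C.bas.get x.1)) x.2.val * τ t x = 0)
    (hcard : Q.length + K = C.bas.length * C.n)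
    (hτ : LinearIndependent ℚ (fun (t : Fin K) => fun (x : Fin C.bas.length × Fin C.n) =>
      ((τ t x : ℤ) : ℚ))) :
    (KC k F).mkQ (∑ c, MK4.hk (sy (ev (List.ofFn G) (C.cls.get c).1)) (u c)) ∈ N := by
  classical
  set g := List.ofFn G with hgdef
  have hg : ∀ x ∈ g, x ≠ 0 := by
    intro x hx
    rw [hgdef, List.mem_ofFn] at hx
    obtain ⟨i, rfl⟩ := hx
    exact hG i
  -- the basis classes
  have h7 := hC.c7
  unfold Cert.chk7 at h7
  rw [List.all_eq_true] at h7
  have h7' : ∀ i : Fin C.bas.length, C.bas.get i < C.cls.length ∧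
      (C.cl (C.bas.get i)).1.2.length = C.n ∧ (C.cl (C.bas.get i)).2.2.length = C.n := by
    intro i
    have := h7 (C.bas.get i) (List.get_mem _ _)
    simp only [Bool.and_eq_true, decide_eq_true_eq] at this
    exact ⟨this.1.1, this.1.2, this.2⟩
  set B : Fin C.bas.length → FT F →ₗ[ℚ] (HK F ⧸ KC k F) :=
    fun i => TT F k (sy (ev g (C.cl (C.bas.get i)).1)) with hB
  have hBl : Bl C k g = List.ofFn B := by
    unfold Bl
    refine List.ext_getElem (by simp) fun i h1 h2 => ?_
    rw [List.getElem_map, List.getElem_ofFn]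
    have h3 : i < C.bas.length := by simpa using h1
    exact EW_getD (k := k) (g := g) (h7' ⟨i, h3⟩).1
  -- expansion of the classes
  have hexp : ∀ (c : Fin C.cls.length) (x : FT F),
      TT F k (sy (ev g (C.cls.get c).1)) x = ∑ i, B i
        ((((C.rho.getD c.val default).2.2.getD i.val 0 : ℤ) : ℚ) •
          (((C.rho.getD c.val default).1 : ℚ)⁻¹ • x)) := by
    intro c x
    obtain ⟨h1, h2⟩ := hρ c.val c.isLt
    rw [EW_getD c.isLt, hBl, pl_ofFn] at h2
    have h3 : (C.cls.getD c.val default) = C.cls.get c := by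
      rw [List.getD_eq_getElem?_getD, List.getElem?_eq_getElem c.isLt]
      rfl
    rw [h3] at h2
    have h4 : ((C.rho.getD c.val default).1 : ℚ) ≠ 0 := by exact_mod_cast h1
    have h5 : TT F k (sy (ev g (C.cls.get c).1)) =
        ((C.rho.getD c.val default).1 : ℚ)⁻¹ • ∑ i, (((C.rho.getD c.val default).2.2.getD i.val 0
          : ℤ) : ℚ) • B i := by
      rw [← h2, smul_smul, inv_mul_cancel₀ h4, one_smul]
    rw [h5, LinearMap.smul_apply, LinearMap.sum_apply, Finset.smul_sum]
    refine Finset.sum_congr rfl fun i _ => ?_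
    rw [LinearMap.smul_apply, map_smul, map_smul, smul_comm]
  set u' : Fin C.bas.length → FT F := fun i => ∑ c, (((C.rho.getD c.val default).2.2.getD i.val 0
    : ℤ) : ℚ) • (((C.rho.getD c.val default).1 : ℚ)⁻¹ • u c) with hu'
  have e1 : (KC k F).mkQ (∑ c, MK4.hk (sy (ev g (C.cls.get c).1)) (u c)) = ∑ i, B i (u' i) := by
    rw [map_sum]
    have : ∀ c, (KC k F).mkQ (MK4.hk (sy (ev g (C.cls.get c).1)) (u c)) =
        TT F k (sy (ev g (C.cls.get c).1)) (u c) := fun c => rfl
    simp only [this, hexp]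
    rw [Finset.sum_comm]
    refine Finset.sum_congr rfl fun i _ => ?_
    rw [hu', map_sum]
  -- the element of `KC`
  set z' : HK F := ∑ i, MK4.hk (sy (ev g (C.cl (C.bas.get i)).1)) (u' i) with hz'
  have e2 : (KC k F).mkQ z' = ∑ i, B i (u' i) := by
    rw [hz', map_sum]; rfl
  set κ' : HK F := (∑ c, MK4.hk (sy (ev g (C.cls.get c).1)) (u c)) + κ - z' with hκ'
  have hκm : κ' ∈ KC k F := by
    rw [← Submodule.ker_mkQ (KC k F), LinearMap.mem_ker, hκ', map_sub, map_add, e1, e2,
      (Submodule.Quotient.mk_eq_zero _).mpr hκ |> fun h => (show (KC k F).mkQ κ = 0 from h)]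
    abel
  have hc' : Closed (z' + κ') := by
    rw [hκ', add_sub_cancel]
    exact hc
  rw [closed_dE, map_add, hz', map_sum] at hc'
  -- logarithms
  have hl : ∀ (i : Fin C.bas.length), lg (ev g (C.cl (C.bas.get i)).1) =
      ∑ j : Fin C.n, (((C.cl (C.bas.get i)).1.2.getD j.val 0 : ℤ) : ℚ) • lg (G j) := by
    intro i
    rw [lg_ev hg, hgdef, List.map_ofFn, pl_ofFn]
    rfl
  have hl' : ∀ (i : Fin C.bas.length), lg (1 - ev g (C.cl (C.bas.get i)).1) =
      ∑ j : Fin C.n, (((C.cl (C.bas.get i)).2.2.getD j.val 0 : ℤ) : ℚ) • lg (G j) := by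
    intro i
    have hS := H.getD (h7' i).1
    have e : 1 - ev g (C.cl (C.bas.get i)).1 = ev g (C.cl (C.bas.get i)).2 := by
      unfold Cert.cl
      linear_combination -hS
    rw [e, lg_ev hg, hgdef, List.map_ofFn, pl_ofFn]
    rfl
  simp only [dE_sy, hl, hl'] at hc'
  -- functionals
  obtain ⟨φ₀, hφ₀, hd₀⟩ := exists_dual (n := C.r) (V0 k F)
    (fun i => lg (G (Fin.castLE hC.rn i))) (by
      intro q hq
      have h1 : ∑ i : Fin C.r, q i • lg (G (Fin.castLE hC.rn i)) =
          ∑ j : Fin C.n, (if h : j.val < C.r then q ⟨j.val, h⟩ else 0) • lg (G j) := by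
        rw [← Finset.sum_subset (Finset.subset_univ
          (Finset.univ.map (Fin.castLEEmb hC.rn)))]
        · rw [Finset.sum_map]
          refine Finset.sum_congr rfl fun i _ => ?_
          have : (Fin.castLEEmb hC.rn i).val < C.r := by
            simp
          rw [dif_pos this]
          rfl
        · intro j _ hj
          have : ¬ j.val < C.r := by
            intro h
            apply hj
            rw [Finset.mem_map]
            exact ⟨⟨j.val, h⟩, Finset.mem_univ _, Fin.ext rfl⟩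
          rw [dif_neg this, zero_smul]
      rw [h1] at hq
      funext i
      have := hI _ hq (Fin.castLE hC.rn i) (by simp)
      simpa using this)
  set φ : Fin C.n → FT F →ₗ[ℚ] ℚ := fun j => if h : j.val < C.r then φ₀ ⟨j.val, h⟩ else 0 with hφd
  have hφ0 : ∀ (j : Fin C.n) (w : FT F), w ∈ V0 k F → φ j w = 0 := by
    intro j w hw
    rw [hφd]
    by_cases h : j.val < C.r
    · simp only [dif_pos h]; exact hφ₀ _ _ hw
    · simp only [dif_neg h]; rfl
  have hφ : ∀ i j : Fin C.n, i.val < C.r → φ i (lg (G j)) = if i = j then 1 else 0 := by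
    intro i j hi
    by_cases hj : j.val < C.r
    · have h1 := hd₀ ⟨i.val, hi⟩ ⟨j.val, hj⟩
      rw [hφd]
      simp only [dif_pos hi]
      have e : Fin.castLE hC.rn ⟨j.val, hj⟩ = j := Fin.ext rfl
      rw [e] at h1
      rw [h1]
      by_cases hij : i = j
      · subst hij; simp
      · rw [if_neg, if_neg hij]
        intro h
        apply hij
        rw [Fin.mk.injEq] at h
        exact Fin.ext h
    · rw [if_neg (by rintro rfl; exact hj hi)]
      apply hφ0
      obtain ⟨c, hc1⟩ := hk (G j) (by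
        rw [hgdef, List.mem_drop_iff_getElem]
        refine ⟨j.val - C.r, by simp; omega, ?_⟩
        rw [List.getElem_ofFn]
        congr 1
        apply Fin.ext
        simp only
        omega)
      rw [hc1]
      exact lg_mem_V0 c
  -- coordinates
  have h3' := hC.c3'
  unfold Cert.chk3' at h3'
  simp only [List.all_eq_true, Bool.and_eq_true, decide_eq_true_eq] at h3'
  have rn := hC.rn
  have q0 : ∀ q : Fin Q.length, (Q.get q).1 < (Q.get q).2.1 ∧
      (Q.get q).2.1 < (Q.get q).2.2 ∧ (Q.get q).2.1 < C.r ∧ (Q.get q).2.2 < C.n :=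
    fun q => hC.q0 _ (List.get_mem _ _)
  have hfin := abs_closedM (n := C.n) (m := C.bas.length) (S := Q.length) (K := K) C.r
    (fun i => lg (G i)) hJ φ hφ
    (fun i j => (C.cl (C.bas.get i)).1.2.getD j.val 0)
    (fun i j => (C.cl (C.bas.get i)).2.2.getD j.val 0) B C.DG hC.DG
    (fun c i j => ((C.G.getD c.val []).map (fun e => if e.1 = i.val ∧ e.2.1 = j.val then e.2.2
      else 0)).sum)
    (by
      intro c i j hne
      by_contra hcon
      apply hne
      apply List.sum_eq_zero
      intro x hx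
      rw [List.mem_map] at hx
      obtain ⟨e, he, rfl⟩ := hx
      rw [if_neg]
      rintro ⟨h1, h2⟩
      apply hcon
      have hmem : C.G.getD c.val [] ∈ C.G := by
        rw [List.getD_eq_getElem?_getD] at he ⊢
        rcases hgo : C.G[c.val]? with _ | l
        · rw [hgo] at he; simp at he
        · simpa using List.mem_of_getElem? hgo
      have := h3' _ hmem e he
      rw [← h1, ← h2]
      exact this)
    (by
      intro c c'
      have h1 := hC.c3 c.val c.isLt c'.val c'.isLt
      unfold Cert.chk3 at h1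
      rw [decide_eq_true_eq] at h1
      have h2 : C.bas.getD c'.val 0 = C.bas.get c' := by
        rw [List.getD_eq_getElem?_getD, List.getElem?_eq_getElem c'.isLt]; rfl
      rw [h2] at h1
      have h3 : (if c = c' then C.DG else 0) = if c.val = c'.val then C.DG else 0 := by
        simp only [Fin.ext_iff]
      rw [h3, ← h1]
      have hmem : ∀ e ∈ C.G.getD c.val [], e.1 < C.r ∧ e.2.1 < C.r := by
        intro e he
        have hmem : C.G.getD c.val [] ∈ C.G := by
          rw [List.getD_eq_getElem?_getD] at he ⊢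
          rcases hgo : C.G[c.val]? with _ | l
          · rw [hgo] at he; simp at he
          · simpa using List.mem_of_getElem? hgo
        exact h3' _ hmem e he
      have gen : ∀ (X : ℕ → ℕ → ℤ) (L : List (ℕ × ℕ × ℤ)), (∀ e ∈ L, e.1 < C.r ∧ e.2.1 < C.r) →
          ∑ i : Fin C.n, ∑ j : Fin C.n, (L.map (fun e => if e.1 = i.val ∧ e.2.1 = j.val then e.2.2
            else 0)).sum * X i.val j.val = (L.map (fun e => e.2.2 * X e.1 e.2.1)).sum := by
        intro X L hL
        induction L with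
        | nil => simp
        | cons e L ih =>
          rw [List.map_cons, List.sum_cons, ← ih fun e' he' => hL e' (by simp [he'])]
          obtain ⟨l1, l2⟩ := hL e (by simp)
          have h5 : e.2.2 * X e.1 e.2.1 = ∑ i : Fin C.n, ∑ j : Fin C.n,
              (if e.1 = i.val ∧ e.2.1 = j.val then e.2.2 else 0) * X i.val j.val := by
            rw [Finset.sum_eq_single ⟨e.1, by omega⟩]
            · rw [Finset.sum_eq_single ⟨e.2.1, by omega⟩]
              · simp
              · intro j _ hj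
                rw [if_neg, zero_mul]
                rintro ⟨-, h6⟩
                exact hj (Fin.ext h6.symm)
              · intro h; exact absurd (Finset.mem_univ _) h
            · intro i _ hi
              refine Finset.sum_eq_zero fun j _ => ?_
              rw [if_neg, zero_mul]
              rintro ⟨h6, -⟩
              exact hi (Fin.ext h6.symm)
            · intro h; exact absurd (Finset.mem_univ _) h
          rw [h5, ← Finset.sum_add_distrib]
          refine Finset.sum_congr rfl fun i _ => ?_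
          rw [← Finset.sum_add_distrib]
          refine Finset.sum_congr rfl fun j _ => ?_
          rw [List.map_cons, List.sum_cons, add_mul]
      exact gen (fun i j => min2 (C.cl (C.bas.get c')).2.2 (C.cl (C.bas.get c')).1.2 i j) _ hmem)
    N (fun q => (⟨(Q.get q).1, by have := q0 q; omega⟩,
      ⟨(Q.get q).2.1, by have := q0 q; omega⟩, ⟨(Q.get q).2.2, (q0 q).2.2.2⟩))
    (fun q => ⟨(q0 q).1.trans (q0 q).2.2.1, (q0 q).2.2.1⟩)
    τ hτN
    (by
      intro t q
      refine Eq.trans ?_ (hτΦ t q)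
      refine Finset.sum_congr rfl fun x _ => ?_
      congr 1
      exact det3_cz (q0 q).1 (q0 q).2.1 (q0 q).2.2.2 (C.cl (C.bas.get x.1)) x.2)
    hcard
    (by
      have e : (fun (q : Fin Q.length) => fun (x : Fin C.bas.length × Fin C.n) =>
          ((det3 (fun j : Fin C.n => (C.cl (C.bas.get x.1)).2.2.getD j.val 0)
            (fun j : Fin C.n => (C.cl (C.bas.get x.1)).1.2.getD j.val 0) (Pi.single x.2 1)
            (⟨(Q.get q).1, by have := q0 q; omega⟩, ⟨(Q.get q).2.1, by have := q0 q; omega⟩,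
              ⟨(Q.get q).2.2, (q0 q).2.2.2⟩) : ℤ) : ℚ)) =
          fun (q : Fin Q.length) => fun (x : Fin C.bas.length × Fin C.n) =>
          ((cz (Q.get q).1 (Q.get q).2.1 (Q.get q).2.2 (C.cl (C.bas.get x.1)) x.2.val : ℤ) : ℚ) := by
        funext q x
        exact congrArg (Int.cast : ℤ → ℚ) (det3_cz (q0 q).1 (q0 q).2.1 (q0 q).2.2.2
          (C.cl (C.bas.get x.1)) x.2)
      rw [e]
      exact hC.liQ)
    hτ
    u' (dE F κ') (fun i j _ _ => ct_KC (hφ0 i) (hφ0 j) hκm) hc'
  rw [e1]
  exact hfin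

/-- the trivial relations vanish -/
lemma triv_zero [CharZero F] (C : Cert) {G : Fin C.n → F} (hG : ∀ i, G i ≠ 0)
    (h7' : ∀ i : Fin C.bas.length, C.bas.get i < C.cls.length)
    (H : Sols (List.ofFn G) C.cls) {t : ℕ × Bool} (ht : t.1 < C.cls.length)
    (hD0 : ((C.rho.getD t.1 default).1 : ℚ) • (EW k (List.ofFn G) C.cls).getD t.1 0 =
        pl (Bl C k (List.ofFn G)) (C.rho.getD t.1 default).2.2) :
    ∑ x : Fin C.bas.length × Fin C.n,
      (((rh C t.1).getD x.1.val 0 * (Ta C t).getD x.2.val 0 : ℤ) : ℚ) •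
        TT F k (sy (ev (List.ofFn G) (C.cl (C.bas.get x.1)).1)) (lg (G x.2)) = 0 := by
  set g := List.ofFn G with hgdef
  have hg : ∀ x ∈ g, x ≠ 0 := by
    intro x hx
    rw [hgdef, List.mem_ofFn] at hx
    obtain ⟨i, rfl⟩ := hx
    exact hG i
  set B : Fin C.bas.length → FT F →ₗ[ℚ] (HK F ⧸ KC k F) :=
    fun i => TT F k (sy (ev g (C.cl (C.bas.get i)).1)) with hB
  have hBl : Bl C k g = List.ofFn B := by
    unfold Bl
    refine List.ext_getElem (by simp) fun i h1 h2 => ?_
    rw [List.getElem_map, List.getElem_ofFn]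
    have h3 : i < C.bas.length := by simpa using h1
    exact EW_getD (k := k) (g := g) (h7' ⟨i, h3⟩)
  set ρ := rh C t.1 with hρ'
  set α := Ta C t with hα
  rw [EW_getD ht, hBl, pl_ofFn] at hD0
  have e1 : ∑ x : Fin C.bas.length × Fin C.n,
      (((ρ.getD x.1.val 0 * α.getD x.2.val 0 : ℤ)) : ℚ) • B x.1 (lg (G x.2)) =
      (∑ i : Fin C.bas.length, ((ρ.getD i.val 0 : ℤ) : ℚ) • B i)
        (∑ j : Fin C.n, ((α.getD j.val 0 : ℤ) : ℚ) • lg (G j)) := by
    rw [Fintype.sum_prod_type, LinearMap.sum_apply]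
    refine Finset.sum_congr rfl fun i _ => ?_
    rw [LinearMap.smul_apply, map_sum, Finset.smul_sum]
    refine Finset.sum_congr rfl fun j _ => ?_
    rw [map_smul, smul_smul]
    push_cast
    rfl
  show ∑ x : Fin C.bas.length × Fin C.n,
      (((ρ.getD x.1.val 0 * α.getD x.2.val 0 : ℤ)) : ℚ) • B x.1 (lg (G x.2)) = 0
  rw [e1]
  have e2 : (∑ i : Fin C.bas.length, ((ρ.getD i.val 0 : ℤ) : ℚ) • B i) =
      ((C.rho.getD t.1 default).1 : ℚ) •
        TT F k (sy (ev (List.ofFn G) (C.cls.getD t.1 default).1)) := hD0.symm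
  rw [e2, LinearMap.smul_apply]
  have hS := H.getD ht
  set f := ev (List.ofFn G) (C.cls.getD t.1 default).1 with hf
  have f0 : f ≠ 0 := ev_ne hg _
  have f1 : f ≠ 1 := by
    intro h
    apply ev_ne hg (C.cls.getD t.1 default).2
    linear_combination hS - h
  have z : TT F k (sy f) (∑ j : Fin C.n, ((α.getD j.val 0 : ℤ) : ℚ) • lg (G j)) = 0 := by
    rw [TT_apply]
    have e3 : ∑ j : Fin C.n, ((α.getD j.val 0 : ℤ) : ℚ) • lg (G j) =
        pl ((List.ofFn G).map lg) α := by
      rw [List.map_ofFn, pl_ofFn]; rfl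
    by_cases hb : t.2 = true
    · have e4 : pl ((List.ofFn G).map lg) α = lg (1 - f) := by
        have e2 : (1 - f) = ev (List.ofFn G) (C.cls.getD t.1 default).2 := by
          linear_combination -hS
        rw [e2, lg_ev hg, hα]
        unfold Ta
        rw [if_pos hb]
        rfl
      rw [e3, e4, hk_compl f0 f1, map_zero]
    · have e4 : pl ((List.ofFn G).map lg) α = lg f := by
        rw [hf, lg_ev hg, hα]
        unfold Ta
        rw [if_neg hb]
        rfl
      rw [e3, e4, hk_self f0 f1, map_zero]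
  rw [z, smul_zero]

/-- a row against an exponent vector -/
lemma cz_sum {n : ℕ} {i j l : ℕ} (hij : i < j) (hjl : j < l) (hl : l < n) (e : Mo × Mo)
    (α : ℕ → ℤ) : ∑ x : Fin n, cz i j l e x.val * α x.val =
      mn e.2.2 e.1.2 i j * α l - mn e.2.2 e.1.2 i l * α j + mn e.2.2 e.1.2 j l * α i := by
  have h1 : ∀ x : Fin n, cz i j l e x.val * α x.val =
      (if x = (⟨l, hl⟩ : Fin n) then mn e.2.2 e.1.2 i j * α l else 0) +
      ((if x = (⟨j, by omega⟩ : Fin n) then -(mn e.2.2 e.1.2 i l * α j) else 0) +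
        (if x = (⟨i, by omega⟩ : Fin n) then mn e.2.2 e.1.2 j l * α i else 0)) := by
    intro x
    unfold cz
    simp only [Fin.ext_iff]
    by_cases h1 : x.val = l
    · have h2 : ¬ x.val = j := by omega
      have h3 : ¬ x.val = i := by omega
      rw [if_pos h1, if_pos h1, if_neg h2, if_neg h3, h1]; ring
    · rw [if_neg h1, if_neg h1]
      by_cases h2 : x.val = j
      · have h3 : ¬ x.val = i := by omega
        rw [if_pos h2, if_pos h2, if_neg h3, h2]; ring
      · rw [if_neg h2, if_neg h2]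
        by_cases h3 : x.val = i
        · rw [if_pos h3, if_pos h3, h3]; ring
        · rw [if_neg h3, if_neg h3]; ring
  simp only [h1]
  rw [Finset.sum_add_distrib, Finset.sum_add_distrib, Finset.sum_ite_eq', Finset.sum_ite_eq',
    Finset.sum_ite_eq', if_pos (Finset.mem_univ _), if_pos (Finset.mem_univ _),
    if_pos (Finset.mem_univ _)]
  ring

/-- the trivial relations are closed -/
lemma triv_phi (C : Cert) {t : ℕ × Bool}
    (hd : ∀ i l, i < C.r → l < C.n →
      ∑ c : Fin C.bas.length, (rh C t.1).getD c.val 0 * mn (C.cl (C.bas.get c)).2.2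
        (C.cl (C.bas.get c)).1.2 i l =
      (C.rho.getD t.1 default).1 * mn (C.cl t.1).2.2 (C.cl t.1).1.2 i l)
    {i j l : ℕ} (hij : i < j) (hjl : j < l) (hj : j < C.r) (hl : l < C.n) :
    ∑ x : Fin C.bas.length × Fin C.n, cz i j l (C.cl (C.bas.get x.1)) x.2.val *
      ((rh C t.1).getD x.1.val 0 * (Ta C t).getD x.2.val 0) = 0 := by
  have d1 := hd i j (by omega) (by omega)
  have d2 := hd i l (by omega) hl
  have d3 := hd j l hj hl
  rw [Fintype.sum_prod_type]
  have e1 : ∀ c : Fin C.bas.length, ∑ x : Fin C.n, cz i j l (C.cl (C.bas.get c)) x.val *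
      ((rh C t.1).getD c.val 0 * (Ta C t).getD x.val 0) =
      (rh C t.1).getD c.val 0 *
        (mn (C.cl (C.bas.get c)).2.2 (C.cl (C.bas.get c)).1.2 i j * (Ta C t).getD l 0 -
        mn (C.cl (C.bas.get c)).2.2 (C.cl (C.bas.get c)).1.2 i l * (Ta C t).getD j 0 +
        mn (C.cl (C.bas.get c)).2.2 (C.cl (C.bas.get c)).1.2 j l * (Ta C t).getD i 0) := by
    intro c
    rw [← cz_sum hij hjl hl (C.cl (C.bas.get c)) (fun x => (Ta C t).getD x 0), Finset.mul_sum]
    exact Finset.sum_congr rfl fun x _ => by ring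
  simp only [e1]
  have e2 : ∀ (X Y Z : Fin C.bas.length → ℤ) (x y z : ℤ),
      ∑ c : Fin C.bas.length, (rh C t.1).getD c.val 0 *
        (X c * x - Y c * y + Z c * z) =
      (∑ c : Fin C.bas.length, (rh C t.1).getD c.val 0 * X c) * x -
      (∑ c : Fin C.bas.length, (rh C t.1).getD c.val 0 * Y c) * y +
      (∑ c : Fin C.bas.length, (rh C t.1).getD c.val 0 * Z c) * z := by
    intro X Y Z x y z
    rw [Finset.sum_mul, Finset.sum_mul, Finset.sum_mul, ← Finset.sum_sub_distrib,
      ← Finset.sum_add_distrib]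
    exact Finset.sum_congr rfl fun c _ => by ring
  rw [e2, d1, d2, d3]
  unfold Ta mn
  simp only [nth_eq]
  split_ifs <;> ring

/-! ### explicit classes -/

/-- a coordinate of an explicit element -/
def xf (C : Cert) (c j : ℕ) : List Tm → ℤ
  | [] => 0
  | t :: L => sg6 t.s * ((rh C t.c).getD c 0 * t.u.getD j 0) + xf C c j L

/-- the coordinates of an explicit element -/
lemma zt_xf [CharZero F] (C : Cert) {G : Fin C.n → F} (hG : ∀ i, G i ≠ 0)
    (h7' : ∀ i : Fin C.bas.length, C.bas.get i < C.cls.length)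
    (hρ : ∀ c < C.cls.length, (C.rho.getD c default).1 = 1 ∧
      ((C.rho.getD c default).1 : ℚ) • (EW k (List.ofFn G) C.cls).getD c 0 =
        pl (Bl C k (List.ofFn G)) (C.rho.getD c default).2.2)
    (H : Sols (List.ofFn G) C.cls) {L : List Tm} (hL : okT C.n C.cls L = true) :
    (KC k F).mkQ (KC72.zt (List.ofFn G) C.cls L) = ∑ x : Fin C.bas.length × Fin C.n,
      ((xf C x.1.val x.2.val L : ℤ) : ℚ) •
        TT F k (sy (ev (List.ofFn G) (C.cl (C.bas.get x.1)).1)) (lg (G x.2)) := by
  have hg : ∀ x ∈ List.ofFn G, x ≠ 0 := by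
    intro x hx
    rw [List.mem_ofFn] at hx
    obtain ⟨i, rfl⟩ := hx
    exact hG i
  set B : Fin C.bas.length → FT F →ₗ[ℚ] (HK F ⧸ KC k F) :=
    fun i => TT F k (sy (ev (List.ofFn G) (C.cl (C.bas.get i)).1)) with hB
  have hBl : Bl C k (List.ofFn G) = List.ofFn B := by
    unfold Bl
    refine List.ext_getElem (by simp) fun i h1 h2 => ?_
    rw [List.getElem_map, List.getElem_ofFn]
    have h3 : i < C.bas.length := by simpa using h1
    exact EW_getD (k := k) (h7' ⟨i, h3⟩)
  induction L with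
  | nil => simp [KC72.zt, xf]
  | cons t L ih =>
    unfold okT at hL
    rw [List.all_cons, Bool.and_eq_true, Bool.and_eq_true] at hL
    obtain ⟨⟨hc, hu⟩, h3⟩ := hL
    have hc' := of_decide_eq_true hc
    have hu' := of_decide_eq_true hu
    obtain ⟨r1, r2⟩ := hρ _ hc'
    rw [EW_getD hc', hBl, pl_ofFn, r1, Int.cast_one, one_smul] at r2
    have e2 : sy (ev (List.ofFn G) (oo C.cls (t.c, t.s))) =
        (sg6 t.s : ℚ) • sy (ev (List.ofFn G) (C.cls.getD t.c default).1) :=
      orb6_sy hg (H.getD hc') t.s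
    have e3 : pl ((List.ofFn G).map lg) t.u =
        ∑ j : Fin C.n, ((t.u.getD j.val 0 : ℤ) : ℚ) • lg (G j) := by
      rw [List.map_ofFn, pl_ofFn]; rfl
    have e4 : TT F k (sy (ev (List.ofFn G) (C.cls.getD t.c default).1)) (lg (evl (List.ofFn G) t.u)) =
        ∑ x : Fin C.bas.length × Fin C.n,
          (((rh C t.c).getD x.1.val 0 * t.u.getD x.2.val 0 : ℤ) : ℚ) • B x.1 (lg (G x.2)) := by
      rw [lg_evl hg, e3, r2, Fintype.sum_prod_type, LinearMap.sum_apply]
      refine Finset.sum_congr rfl fun i _ => ?_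
      rw [LinearMap.smul_apply, map_sum, Finset.smul_sum]
      refine Finset.sum_congr rfl fun j _ => ?_
      rw [map_smul, smul_smul]
      push_cast
      rfl
    have e5 : (KC k F).mkQ (hk (sy (ev (List.ofFn G) (oo C.cls (t.c, t.s))))
        (lg (evl (List.ofFn G) t.u))) = (sg6 t.s : ℚ) •
        TT F k (sy (ev (List.ofFn G) (C.cls.getD t.c default).1)) (lg (evl (List.ofFn G) t.u)) := by
      rw [e2, ← TT_apply (k := k), map_smul, LinearMap.smul_apply]
    rw [KC72.zt, map_add, ih h3, e5, e4, Finset.smul_sum, ← Finset.sum_add_distrib]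
    refine Finset.sum_congr rfl fun x _ => ?_
    rw [smul_smul, ← add_smul]
    congr 1
    rw [xf]
    push_cast
    ring

end

end Pool.Agent.MC
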