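import Pool.Agent.Lib_helper40.MC.K

/-!
# Closed elements from a modular certificate: explicit classes
-/

set_option autoImplicit false
set_option linter.unusedSectionVars false
set_option linter.unusedVariables false

open scoped TensorProduct

namespace Pool.Agent.MC

open TN MK4 KC72

/-- the rows: trivial relations, then explicit classes -/
def tx (C : Cert) (T : List (ℕ × Bool)) (LL : List (List Tm)) (t : ℕ) (c j : ℕ) : ℤ :=
  if t < T.length then
    (rh C (T.getD t default).1).getD c 0 * (Ta C (T.getD t default)).getD j 0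
  else xf C c j (LL.getD (t - T.length) [])

/-- the ranks, with explicit classes -/
structure OkX (C : Cert) (Q : List (ℕ × ℕ × ℕ)) (T : List (ℕ × Bool)) (LL : List (List Tm)) : Prop
    extends OkA C Q where
  card : Q.length + (T.length + LL.length) = C.bas.length * C.n
  t0 : ∀ t ∈ T, t.1 < C.cls.length
  liT : LinearIndependent ℚ (fun (t : Fin (T.length + LL.length)) =>
    fun (x : Fin C.bas.length × Fin C.n) => ((tx C T LL t.val x.1.val x.2.val : ℤ) : ℚ))
  td : ∀ t ∈ T, ∀ i l, i < C.r → l < C.n →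
    ∑ c : Fin C.bas.length, (rh C t.1).getD c.val 0 * mn (C.cl (C.bas.get c)).2.2
      (C.cl (C.bas.get c)).1.2 i l = (C.rho.getD t.1 default).1 * mn (C.cl t.1).2.2 (C.cl t.1).1.2 i l
  ll : ∀ L ∈ LL, okT C.n C.cls L = true
  xd : ∀ L ∈ LL, ∀ q ∈ Q, ∑ x : Fin C.bas.length × Fin C.n,
    cz q.1 q.2.1 q.2.2 (C.cl (C.bas.get x.1)) x.2.val * xf C x.1.val x.2.val L = 0

section

variable {k : Type*} [Field k] {F : Type*} [Field F] [Algebra k F]

/-- **closed elements from a certificate with explicit classes** -/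
theorem cert_mainX [CharZero F] (C : Cert) {Q : List (ℕ × ℕ × ℕ)} {T : List (ℕ × Bool)}
    {LL : List (List Tm)} (hC : OkX C Q T LL) {G : Fin C.n → F} (hG : ∀ i, G i ≠ 0)
    (hρ : ∀ c < C.cls.length, (C.rho.getD c default).1 = 1 ∧
      ((C.rho.getD c default).1 : ℚ) • (EW k (List.ofFn G) C.cls).getD c 0 =
        pl (Bl C k (List.ofFn G)) (C.rho.getD c default).2.2)
    (hk : ∀ x ∈ (List.ofFn G).drop C.r, ∃ c : k, x = algebraMap k F c)
    (hI : ∀ q : Fin C.n → ℚ, ∑ i, q i • lg (G i) ∈ V0 k F → ∀ i : Fin C.n, i.val < C.r → q i = 0)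
    (hJ : LinearIndependent ℚ (fun i => lg (G i)))
    (H : Sols (List.ofFn G) C.cls) (u : Fin C.cls.length → FT F) {κ : HK F} (hκ : κ ∈ KC k F)
    (hc : Closed (∑ c, MK4.hk (sy (ev (List.ofFn G) (C.cls.get c).1)) (u c) + κ)) :
    (KC k F).mkQ (∑ c, MK4.hk (sy (ev (List.ofFn G) (C.cls.get c).1)) (u c)) ∈
      Submodule.span ℚ {a | ∃ L ∈ LL, a = (KC k F).mkQ (KC72.zt (List.ofFn G) C.cls L)} := by
  have h7 := hC.c7
  unfold Cert.chk7 at h7
  rw [List.all_eq_true] at h7
  have h7' : ∀ i : Fin C.bas.length, C.bas.get i < C.cls.length := by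
    intro i
    have := h7 (C.bas.get i) (List.get_mem _ _)
    simp only [Bool.and_eq_true, decide_eq_true_eq] at this
    exact this.1.1
  have hρ' : ∀ c < C.cls.length, (C.rho.getD c default).1 ≠ 0 ∧
      ((C.rho.getD c default).1 : ℚ) • (EW k (List.ofFn G) C.cls).getD c 0 =
        pl (Bl C k (List.ofFn G)) (C.rho.getD c default).2.2 := by
    intro c hc
    obtain ⟨h1, h2⟩ := hρ c hc
    exact ⟨by rw [h1]; exact one_ne_zero, h2⟩
  have hT : ∀ t : ℕ, t < T.length → T.getD t default ∈ T := by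
    intro t ht
    rw [List.getD_eq_getElem?_getD, List.getElem?_eq_getElem ht]
    exact List.getElem_mem _
  have hL : ∀ t : ℕ, t < LL.length → LL.getD t [] ∈ LL := by
    intro t ht
    rw [List.getD_eq_getElem?_getD, List.getElem?_eq_getElem ht]
    exact List.getElem_mem _
  refine cert_abs C hC.toOkA hG hρ' hk hI hJ H u hκ hc _
    (fun (t : Fin (T.length + LL.length)) x => tx C T LL t.val x.1.val x.2.val) ?_ ?_ hC.card hC.liT
  · intro t
    by_cases h : t.val < T.length
    · have h1 := triv_zero C hG h7' H (hC.t0 _ (hT _ h)) (hρ' _ (hC.t0 _ (hT _ h))).2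
      have h2 : ∀ x : Fin C.bas.length × Fin C.n, tx C T LL t.val x.1.val x.2.val =
          (rh C (T.getD t.val default).1).getD x.1.val 0 *
            (Ta C (T.getD t.val default)).getD x.2.val 0 := by
        intro x
        unfold tx
        rw [if_pos h]
      simp only [h2]
      rw [h1]
      exact Submodule.zero_mem _
    · have hlt : t.val - T.length < LL.length := by
        have := t.isLt
        omega
      have h1 := zt_xf (k := k) C hG h7' hρ H (hC.ll _ (hL _ hlt))
      have h2 : ∀ x : Fin C.bas.length × Fin C.n, tx C T LL t.val x.1.val x.2.val =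
          xf C x.1.val x.2.val (LL.getD (t.val - T.length) []) := by
        intro x
        unfold tx
        rw [if_neg h]
      simp only [h2]
      rw [← h1]
      exact Submodule.subset_span ⟨_, hL _ hlt, rfl⟩
  · intro t q
    obtain ⟨q1, q2, q3, q4⟩ := hC.q0 _ (List.get_mem Q q)
    by_cases h : t.val < T.length
    · have h2 : ∀ x : Fin C.bas.length × Fin C.n, tx C T LL t.val x.1.val x.2.val =
          (rh C (T.getD t.val default).1).getD x.1.val 0 *
            (Ta C (T.getD t.val default)).getD x.2.val 0 := by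
        intro x
        unfold tx
        rw [if_pos h]
      simp only [h2]
      exact triv_phi C (hC.td _ (hT _ h)) q1 q2 q3 q4
    · have hlt : t.val - T.length < LL.length := by
        have := t.isLt
        omega
      have h2 : ∀ x : Fin C.bas.length × Fin C.n, tx C T LL t.val x.1.val x.2.val =
          xf C x.1.val x.2.val (LL.getD (t.val - T.length) []) := by
        intro x
        unfold tx
        rw [if_neg h]
      simp only [h2]
      exact hC.xd _ (hL _ hlt) _ (List.get_mem Q q)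

lemma mem_sup_of_mkQ {M : Type*} [AddCommGroup M] [Module ℚ M] {N S : Submodule ℚ M} {A κ : M}
    (hκ : κ ∈ N) (h : N.mkQ A ∈ S.map N.mkQ) : A + κ ∈ N ⊔ S := by
  obtain ⟨y, hy, hyz⟩ := h
  have h3 : A - y ∈ N := by
    rw [← Submodule.ker_mkQ N, LinearMap.mem_ker, map_sub, hyz, sub_self]
  have h4 : A + κ = (A - y + κ) + y := by abel
  rw [h4]
  exact Submodule.add_mem_sup (Submodule.add_mem _ h3 hκ) hy

/-- all checks, with explicit classes -/
structure ROkX (R : RCert) (LL : List (List Tm)) : Prop extends ROk0 R where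
  ok : OkX R.toCert R.Q R.T LL

/-- **closed elements from a modular certificate with explicit classes** -/
theorem closed_of_rcertL [CharZero F] {R : RCert} {LL : List (List Tm)} (hR : ROkX R LL) {n r : ℕ}
    (hn : R.n = n) (hr : R.r = r) {cls : List (Mo × Mo)} (hcl : R.cls = cls) {G : Fin n → F}
    (hG : ∀ i, G i ≠ 0) (hk : ∀ i : Fin n, r ≤ i.val → ∃ c : k, G i = algebraMap k F c)
    (hI : ∀ q : Fin n → ℚ, ∑ i, q i • lg (G i) ∈ V0 k F → ∀ i : Fin n, i.val < r → q i = 0)
    (hJ : LinearIndependent ℚ (fun i => lg (G i)))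
    (H : Sols (List.ofFn G) cls) (U : F → Prop)
    (hU : ∀ h, U h → U (1 - h) → sy h ∈ SC k F ⊔
      Submodule.span ℚ {a : B2 F | ∃ p ∈ cls, a = sy (ev (List.ofFn G) p.1)})
    {z : HK F} (hz : z ∈ Submodule.span ℚ {z : HK F | ∃ (f : F) (u : FT F),
      U f ∧ U (1 - f) ∧ z = MK4.hk (sy f) u}) (hc : Closed z) :
    z ∈ KC k F ⊔ Submodule.span ℚ {a | ∃ L ∈ LL, a = KC72.zt (List.ofFn G) cls L} := by
  subst hn hr hcl
  have hset : {a : B2 F | ∃ p ∈ R.cls, a = sy (ev (List.ofFn G) p.1)} ⊆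
      Set.range fun i : Fin R.toCert.cls.length =>
        sy (ev (List.ofFn G) (R.toCert.cls.get i).1) := by
    rintro a ⟨p, hp, rfl⟩
    obtain ⟨i, hi, rfl⟩ := List.getElem_of_mem hp
    exact ⟨⟨i, hi⟩, rfl⟩
  have hle : SC k F ⊔ Submodule.span ℚ {a : B2 F | ∃ p ∈ R.cls, a = sy (ev (List.ofFn G) p.1)} ≤
      SC k F ⊔ Submodule.span ℚ (Set.range fun i : Fin R.toCert.cls.length =>
        sy (ev (List.ofFn G) (R.toCert.cls.get i).1)) := sup_le_sup_left (Submodule.span_mono hset) _
  obtain ⟨u, κ, hκ, rfl⟩ := decompX (k := k) U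
    (fun i : Fin R.toCert.cls.length => ev (List.ofFn G) (R.toCert.cls.get i).1)
    (fun h h1 h2 => hle (hU h h1 h2)) hz
  have hk' : ∀ x ∈ (List.ofFn G).drop R.r, ∃ c : k, x = algebraMap k F c := by
    intro x hx
    rw [List.mem_drop_iff_getElem] at hx
    obtain ⟨i, hi, rfl⟩ := hx
    rw [List.getElem_ofFn]
    exact hk _ (by simp)
  have hg : ∀ x ∈ List.ofFn G, x ≠ 0 := by
    intro x hx
    rw [List.mem_ofFn] at hx
    obtain ⟨i, rfl⟩ := hx
    exact hG i
  have h1 := cert_mainX R.toCert hR.ok hG (fun c hc => by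
    have h2 := rho_ok hR.toROk0 hg hk' H c hc
    refine ⟨?_, h2.2⟩
    rw [rho_get hR.toROk0 (by rw [← hR.nN]; exact hc)]) hk' hI hJ H u hκ hc
  have h2 : (Submodule.span ℚ {a | ∃ L ∈ LL, a = (KC k F).mkQ
      (KC72.zt (List.ofFn G) R.toCert.cls L)}) ≤
      (Submodule.span ℚ {a | ∃ L ∈ LL, a = KC72.zt (List.ofFn G) R.cls L}).map (KC k F).mkQ := by
    rw [Submodule.span_le]
    rintro a ⟨L, hL, rfl⟩
    exact Submodule.mem_map_of_mem (Submodule.subset_span ⟨L, hL, rfl⟩)
  exact mem_sup_of_mkQ hκ (h2 h1)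

/-- the same classes in another order -/
theorem closed_of_rcertLP [CharZero F] {R : RCert} {LL : List (List Tm)} (hR : ROkX R LL) {n r : ℕ}
    (hn : R.n = n) (hr : R.r = r) {cls : List (Mo × Mo)} (hcl : sameC R.cls cls = true)
    {G : Fin n → F} (hG : ∀ i, G i ≠ 0)
    (hk : ∀ i : Fin n, r ≤ i.val → ∃ c : k, G i = algebraMap k F c)
    (hI : ∀ q : Fin n → ℚ, ∑ i, q i • lg (G i) ∈ V0 k F → ∀ i : Fin n, i.val < r → q i = 0)
    (hJ : LinearIndependent ℚ (fun i => lg (G i)))
    (H : Sols (List.ofFn G) cls) (U : F → Prop)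
    (hU : ∀ h, U h → U (1 - h) → sy h ∈ SC k F ⊔
      Submodule.span ℚ {a : B2 F | ∃ p ∈ cls, a = sy (ev (List.ofFn G) p.1)})
    {z : HK F} (hz : z ∈ Submodule.span ℚ {z : HK F | ∃ (f : F) (u : FT F),
      U f ∧ U (1 - f) ∧ z = MK4.hk (sy f) u}) (hc : Closed z) :
    z ∈ KC k F ⊔ Submodule.span ℚ {a | ∃ L ∈ LL, a = KC72.zt (List.ofFn G) R.cls L} := by
  unfold sameC at hcl
  rw [Bool.and_eq_true, List.all_eq_true, List.all_eq_true] at hcl
  have h1 : ∀ p ∈ R.cls, p ∈ cls := fun p hp => of_decide_eq_true (hcl.1 p hp)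
  have h2 : ∀ p ∈ cls, p ∈ R.cls := fun p hp => of_decide_eq_true (hcl.2 p hp)
  refine closed_of_rcertL hR hn hr rfl hG hk hI hJ (fun p hp => H p (h1 p hp)) U ?_ hz hc
  intro h a b
  have hle : SC k F ⊔ Submodule.span ℚ {a : B2 F | ∃ p ∈ cls, a = sy (ev (List.ofFn G) p.1)} ≤
      SC k F ⊔ Submodule.span ℚ {a : B2 F | ∃ p ∈ R.cls, a = sy (ev (List.ofFn G) p.1)} := by
    refine sup_le_sup_left (Submodule.span_mono ?_) _
    rintro x ⟨p, hp, rfl⟩
    exact ⟨p, h2 p hp, rfl⟩
  exact hle (hU h a b)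

/-- one class -/
theorem one_class {cls : List (Mo × Mo)} {g : List F} {L : List Tm} {z : HK F}
    (h : z ∈ KC k F ⊔ Submodule.span ℚ {a | ∃ L' ∈ [L], a = KC72.zt g cls L'}) :
    ∃ β : ℚ, (KC k F).mkQ z = β • (KC k F).mkQ (KC72.zt g cls L) := by
  obtain ⟨a, ha, b, hb, rfl⟩ := Submodule.mem_sup.mp h
  have h1 : {a | ∃ L' ∈ [L], a = KC72.zt g cls L'} = {KC72.zt g cls L} := by
    ext x
    simp
  rw [h1, Submodule.mem_span_singleton] at hb
  obtain ⟨β, rfl⟩ := hb
  refine ⟨β, ?_⟩
  rw [map_add, map_smul, (show (KC k F).mkQ a = 0 from (Submodule.Quotient.mk_eq_zero _).mpr ha),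
    zero_add]

/-- explicit elements for classes in another order -/
lemma zt_perm {cls cls' : List (Mo × Mo)} {L L' : List Tm}
    (h : L.map (fun t => (oo cls (t.c, t.s), t.u)) = L'.map (fun t => (oo cls' (t.c, t.s), t.u)))
    (g : List F) : KC72.zt g cls L = KC72.zt g cls' L' := by
  induction L generalizing L' with
  | nil =>
    cases L' with
    | nil => rfl
    | cons t' L' => simp at h
  | cons t L ih =>
    cases L' with
    | nil => simp at h
    | cons t' L' =>
      rw [List.map_cons, List.map_cons, List.cons.injEq, Prod.mk.injEq] at h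
      rw [KC72.zt, KC72.zt, ih h.2, h.1.1, h.1.2]

end

end Pool.Agent.MC
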