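import Pool.Agent.Lib_helper40.MC.L

/-!
# Closed elements from a modular certificate: checks for explicit classes
-/

set_option autoImplicit false
set_option linter.unusedSectionVars false
set_option linter.unusedVariables false

open scoped TensorProduct

namespace Pool.Agent.MC

open TN MK4 KC72

/-- numerical conditions, `d` explicit classes -/
def NumX (R : RCert) (A : RTab) (d : ℕ) : Prop :=
  R.r ≤ R.n ∧ R.DG ≠ 0 ∧ R.cls.length = R.N ∧ R.m ≤ R.N ∧ R.rels.length + R.m = R.N ∧
  2 * R.o = 2 ^ R.ko ∧ R.ko ≤ R.kb ∧ 10 * R.o < 2 ^ R.kb ∧ 1 ≤ R.o ∧ R.G.length = R.m ∧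
  R.Q.length = A.S ∧ R.T.length + d = A.K ∧ A.S + A.K = R.m * R.n ∧ A.XT.length = R.m ∧
  1 < A.p ∧ A.p ≤ 8 ∧ 0 < A.a ∧ A.c ≤ A.a ∧ A.d ≤ A.a ∧ A.p * 2 ^ A.c < 2 ^ A.a ∧
  R.m * (3 * (A.p - 1)) * (2 ^ A.d - 1) < 2 ^ A.a ∧
  1 < A.p' ∧ A.p' ≤ 8 ∧ 0 < A.a' ∧ A.c' ≤ A.a' ∧ A.d' ≤ A.a' ∧ A.p' * 2 ^ A.c' < 2 ^ A.a' ∧
  R.m * R.n * ((A.p' - 1) * (A.p' - 1)) * (2 ^ A.d' - 1) < 2 ^ A.a' ∧
  2 * (2 * A.MA ^ 2 + R.m * R.o * (2 * A.MA ^ 2)) < A.Z

instance (R : RCert) (A : RTab) (d : ℕ) : Decidable (NumX R A d) := by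
  unfold NumX
  infer_instance

/-- a row of exponents -/
def rX (p : ℕ) : List (List ℤ) → List (List ℕ) → ℕ
  | v :: V, X :: XL => dotA p v X + rX p V XL
  | _, _ => 0

/-- a coordinate of the differential -/
noncomputable def phx (i j l : ℕ) (bl : List (Mo × Mo)) (V : List (List ℤ)) : ℤ :=
  List.rec (motive := fun _ => List (List ℤ) → ℤ) (fun _ => 0)
    (fun e _ ih V => List.rec (motive := fun _ => ℤ) 0
      (fun v V' _ => Int.add (Int.add (Int.sub (Int.mul (nz v l) (mz e.2.2 e.1.2 i j))
        (Int.mul (nz v j) (mz e.2.2 e.1.2 i l))) (Int.mul (nz v i) (mz e.2.2 e.1.2 j l))) (ih V')) V)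
    bl V

/-- the differential of an explicit class -/
noncomputable def cD (R : RCert) (V : List (List ℤ)) (s : ℕ) (q : ℕ × ℕ × ℕ) : Bool :=
  decide (phx q.1 q.2.1 q.2.2 (R.cls.take R.m) V = 0)

/-- an explicit class -/
def cL (R : RCert) (A : RTab) (V : List (List ℤ)) (s : ℕ) (L : List Tm) : Bool :=
  okT R.n R.cls L && decide (V.length = R.m) && V.all (fun v => decide (v.length = R.n)) &&
    isZ (axpy (-1) V.flatten (xiv R.toCert L)) &&
    rc A.p' A.a' A.c' A.K (R.T.length + s) (rX A.p' V A.XT)

section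

variable {R : RCert} {A : RTab}

lemma rX_sum (p : ℕ) {n : ℕ} (V : List (List ℤ)) (hV : ∀ v ∈ V, v.length = n)
    (XL : List (List ℕ)) : rX p V XL = ∑ c : Fin V.length, ∑ j : Fin n,
      red p ((V.getD c.val []).getD j.val 0) * nthN (XL.getD c.val []) j.val := by
  induction V generalizing XL with
  | nil => simp [rX]
  | cons v V ih =>
    cases XL with
    | nil =>
      have h0 : ∀ j : ℕ, nthN [] j = 0 := nthN_nil
      simp [rX, h0]
    | cons X XL =>
      rw [rX, dotA_sum p v (hV v (by simp)), ih (fun w hw => hV w (by simp [hw]))]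
      refine Eq.trans ?_ (Fin.sum_univ_succ _).symm
      simp only [Fin.val_zero, Fin.val_succ, List.getD_cons_zero, List.getD_cons_succ]

lemma phx_sum {n : ℕ} {i j l : ℕ} (hij : i < j) (hjl : j < l) (hl : l < n)
    (bl : List (Mo × Mo)) (V : List (List ℤ)) (hV : V.length = bl.length) :
    phx i j l bl V = ∑ c : Fin bl.length, ∑ x : Fin n,
      cz i j l (bl.get c) x.val * (V.getD c.val []).getD x.val 0 := by
  induction bl generalizing V with
  | nil => rfl
  | cons e bl ih =>
    cases V with
    | nil => simp at hV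
    | cons v V =>
      refine Eq.trans ?_ (Fin.sum_univ_succ _).symm
      have h1 : phx i j l (e :: bl) (v :: V) = nz v l * mz e.2.2 e.1.2 i j -
          nz v j * mz e.2.2 e.1.2 i l + nz v i * mz e.2.2 e.1.2 j l + phx i j l bl V := rfl
      rw [h1, ih V (by simpa using hV)]
      have h2 := cz_sum (n := n) hij hjl hl e (fun x => v.getD x 0)
      simp only [List.get_eq_getElem, List.length_cons, Fin.val_zero, Fin.val_succ,
        List.getElem_cons_zero, List.getElem_cons_succ, List.getD_cons_zero,
        List.getD_cons_succ] at h2 ⊢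
      rw [h2, mz_eq, mz_eq, mz_eq, nz_eq, nz_eq, nz_eq, nth_eq, nth_eq, nth_eq]
      ring

lemma flatten_getD {n : ℕ} (V : List (List ℤ)) (hV : ∀ v ∈ V, v.length = n) (c : ℕ) {j : ℕ}
    (hj : j < n) : V.flatten.getD (c * n + j) 0 = (V.getD c []).getD j 0 := by
  induction V generalizing c with
  | nil => simp
  | cons v V ih =>
    have hv : v.length = n := hV v (by simp)
    rw [List.flatten_cons]
    cases c with
    | zero =>
      rw [Nat.zero_mul, zero_add, List.getD_append _ _ _ _ (by rw [hv]; exact hj),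
        List.getD_cons_zero]
    | succ c =>
      rw [List.getD_append_right _ _ _ _ (by rw [hv]; nlinarith), List.getD_cons_succ, hv,
        show (c + 1) * n + j - n = c * n + j by rw [add_mul, one_mul]; omega]
      exact ih (fun w hw => hV w (by simp [hw])) c

lemma xiv_getD (C : Cert) {L : List Tm} (hL : okT C.n C.cls L = true) (c : ℕ) {j : ℕ}
    (hj : j < C.n) : (xiv C L).getD (c * C.n + j) 0 = xf C c j L := by
  induction L with
  | nil => simp [xiv, xf]
  | cons t L ih =>
    unfold okT at hL
    rw [List.all_cons, Bool.and_eq_true, Bool.and_eq_true] at hL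
    obtain ⟨⟨hc, hu⟩, h3⟩ := hL
    have hu' : t.u.length = C.n := of_decide_eq_true hu
    have h1 := outer_getD (C.rho.getD t.c default).2.2 t.u c j (by rw [hu']; exact hj)
    rw [hu'] at h1
    rw [xiv, axpy_getD, ih h3, h1, xf]
    rfl

/-- the coordinates of an explicit class -/
lemma xf_eq {V : List (List ℤ)} {L : List Tm} (hL : okT R.n R.cls L = true)
    (hV : ∀ v ∈ V, v.length = R.n)
    (hz : isZ (axpy (-1) V.flatten (xiv R.toCert L)) = true) (c : ℕ) {j : ℕ} (hj : j < R.n) :
    xf R.toCert c j L = (V.getD c []).getD j 0 := by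
  have h1 := isZ_getD hz (c * R.n + j)
  rw [axpy_getD, flatten_getD V hV c hj] at h1
  have h2 : (xiv R.toCert L).getD (c * R.n + j) 0 = xf R.toCert c j L :=
    xiv_getD R.toCert (L := L) hL c hj
  rw [h2] at h1
  linarith

/-- the trivial relations and the explicit classes are independent -/
lemma liX_of {LL : List (List Tm)} {VL : List (List (List ℤ))} (hVL : VL.length = LL.length)
    (hK : R.T.length + LL.length = A.K) (hp : 1 < A.p') (hp8 : A.p' ≤ 8)
    (ha : 0 < A.a') (hca : A.c' ≤ A.a') (hda : A.d' ≤ A.a') (hpc : A.p' * 2 ^ A.c' < 2 ^ A.a')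
    (hwt : R.m * R.n * ((A.p' - 1) * (A.p' - 1)) * (2 ^ A.d' - 1) < 2 ^ A.a')
    (hN : R.cls.length = R.N) (hXL : A.XT.length = R.m)
    (hE : ∀ e ∈ R.cls, e.1.2.length = R.n ∧ e.2.2.length = R.n)
    (hX : A.XT.all (fun X => X.all (xm A.a' A.d' A.K)) = true)
    (hq : ∀ s (h : s < R.T.length), cT R A s R.T[s] = true)
    (hl : ∀ s (h : s < LL.length), cL R A (VL.getD s []) s LL[s] = true) :
    LinearIndependent ℚ (fun (t : Fin (R.T.length + LL.length)) =>
      fun (x : Fin R.toCert.bas.length × Fin R.toCert.n) =>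
      ((tx R.toCert R.T LL t.val x.1.val x.2.val : ℤ) : ℚ)) := by
  have hq' : ∀ t, t < R.T.length → (R.T.getD t default).1 < R.N ∧
      rc A.p' A.a' A.c' A.K t (rT A.p' (2 ^ R.kb) (R.o * (A.p' - 1))
        (pa A.p' (Ta R.toCert (R.T.getD t default))) A.XT (R.W (R.T.getD t default).1)) = true := by
    intro t ht
    have h1 := hq t ht
    have h0 : R.T[t] = R.T.getD t default := by
      rw [List.getD_eq_getElem?_getD, List.getElem?_eq_getElem ht]
      rfl
    rw [h0] at h1
    unfold cT at h1
    simp only [Bool.and_eq_true, Nat.blt_eq] at h1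
    refine ⟨h1.1.1, ?_⟩
    have h2 := h1.1.2
    have h3 : aT R (R.T.getD t default) = Ta R.toCert (R.T.getD t default) := by
      unfold aT Ta clT
      show _ = if (R.T.getD t default).2 = true then (R.cls.getD (R.T.getD t default).1 default).2.2
        else (R.cls.getD (R.T.getD t default).1 default).1.2
      cases (R.T.getD t default).2 <;> rfl
    rw [h3] at h2
    exact h2
  have hρ : ∀ t, t < R.T.length → rh R.toCert (R.T.getD t default).1 =
      decN (2 ^ R.kb) R.o R.m (R.W (R.T.getD t default).1) := by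
    intro t ht
    have h1 := (hq' t ht).1
    show (((List.range R.N).map (fun c => ((1 : ℤ), ([] : List ℤ),
      decN (2 ^ R.kb) R.o R.m (R.W c)))).getD (R.T.getD t default).1 default).2.2 = _
    rw [List.getD_eq_getElem?_getD, List.getElem?_map, List.getElem?_range h1]
    rfl
  have hlen : ∀ t, t < R.T.length → (Ta R.toCert (R.T.getD t default)).length = R.n := by
    intro t ht
    have h1 := (hq' t ht).1
    have h2 : R.cls.getD (R.T.getD t default).1 default ∈ R.cls := by
      rw [List.getD_eq_getElem?_getD, List.getElem?_eq_getElem (by omega)]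
      exact List.getElem_mem _
    have h3 := hE _ h2
    unfold Ta
    show List.length (if (R.T.getD t default).2 = true then
      (R.cls.getD (R.T.getD t default).1 default).2.2 else
        (R.cls.getD (R.T.getD t default).1 default).1.2) = _
    split_ifs
    · exact h3.2
    · exact h3.1
  have hdl : ∀ W, (decN (2 ^ R.kb) R.o R.m W).length = R.m := by
    intro W
    generalize R.m = m
    induction m generalizing W with
    | zero => rfl
    | succ m ih => rw [decN, List.length_cons, ih]
  have hl' : ∀ s, s < LL.length → okT R.n R.cls (LL.getD s []) = true ∧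
      (VL.getD s []).length = R.m ∧ (∀ v ∈ VL.getD s [], v.length = R.n) ∧
      isZ (axpy (-1) (VL.getD s []).flatten (xiv R.toCert (LL.getD s []))) = true ∧
      rc A.p' A.a' A.c' A.K (R.T.length + s) (rX A.p' (VL.getD s []) A.XT) = true := by
    intro s hs
    have h1 := hl s hs
    have h0 : LL[s] = LL.getD s [] := by
      rw [List.getD_eq_getElem?_getD, List.getElem?_eq_getElem hs]
      rfl
    rw [h0] at h1
    unfold cL at h1
    simp only [Bool.and_eq_true, decide_eq_true_eq, List.all_eq_true] at h1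
    exact ⟨h1.1.1.1.1, h1.1.1.1.2, h1.1.1.2, h1.1.2, h1.2⟩
  rw [← hK] at hX
  refine li_of_mask (p := A.p') (a := A.a') (c := A.c') (d := A.d') ha hp hca hda hpc _
    (fun t x => if t.val < R.T.length then
      red A.p' ((rh R.toCert (R.T.getD t.val default).1).getD x.1.val 0) *
      red A.p' ((Ta R.toCert (R.T.getD t.val default)).getD x.2.val 0) else
      red A.p' (((VL.getD (t.val - R.T.length) []).getD x.1.val []).getD x.2.val 0)) ?_
    (fun x => nthN (A.XT.getD x.1.val []) x.2.val) (fun x => xm_nth _ hX _ _) ?_ ?_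
  · intro t x
    by_cases h : t.val < R.T.length
    · simp only [if_pos h]
      have h0 : tx R.toCert R.T LL t.val x.1.val x.2.val =
          (rh R.toCert (R.T.getD t.val default).1).getD x.1.val 0 *
            (Ta R.toCert (R.T.getD t.val default)).getD x.2.val 0 := by
        unfold tx
        rw [if_pos h]
      rw [h0]
      have h1 := red_spec (show 0 < A.p' by omega)
        ((rh R.toCert (R.T.getD t.val default).1).getD x.1.val 0)
      have h2 := red_spec (show 0 < A.p' by omega)
        ((Ta R.toCert (R.T.getD t.val default)).getD x.2.val 0)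
      set u := (rh R.toCert (R.T.getD t.val default).1).getD x.1.val 0
      set v := (Ta R.toCert (R.T.getD t.val default)).getD x.2.val 0
      have h3 : u * v - ((red A.p' u * red A.p' v : ℕ) : ℤ) =
          (u - (red A.p' u : ℕ)) * v + (red A.p' u : ℕ) * (v - (red A.p' v : ℕ)) := by
        push_cast; ring
      rw [h3]
      exact dvd_add (Dvd.dvd.mul_right h1 _) (Dvd.dvd.mul_left h2 _)
    · have hlt : t.val - R.T.length < LL.length := by
        have := t.isLt
        omega
      obtain ⟨a1, a2, a3, a4, a5⟩ := hl' _ hlt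
      simp only [if_neg h]
      have h0 : tx R.toCert R.T LL t.val x.1.val x.2.val =
          ((VL.getD (t.val - R.T.length) []).getD x.1.val []).getD x.2.val 0 := by
        unfold tx
        rw [if_neg h]
        exact xf_eq a1 a3 a4 x.1.val x.2.isLt
      rw [h0]
      exact red_spec (by omega) _
  · intro t
    refine lt_of_le_of_lt (Nat.mul_le_mul_right _ ?_) hwt
    have hpp : A.p' - 1 ≤ (A.p' - 1) * (A.p' - 1) := by
      have : 1 ≤ A.p' - 1 := by omega
      nlinarith
    have h1 : ∀ x ∈ (Finset.univ : Finset (Fin R.toCert.bas.length × Fin R.toCert.n)),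
        (if t.val < R.T.length then
          red A.p' ((rh R.toCert (R.T.getD t.val default).1).getD x.1.val 0) *
          red A.p' ((Ta R.toCert (R.T.getD t.val default)).getD x.2.val 0) else
          red A.p' (((VL.getD (t.val - R.T.length) []).getD x.1.val []).getD x.2.val 0)) ≤
          (A.p' - 1) * (A.p' - 1) := by
      intro x _
      split_ifs
      · refine Nat.mul_le_mul ?_ ?_
        · exact Nat.le_sub_one_of_lt (red_lt (by omega) _)
        · exact Nat.le_sub_one_of_lt (red_lt (by omega) _)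
      · exact (Nat.le_sub_one_of_lt (red_lt (by omega) _)).trans hpp
    refine (Finset.sum_le_sum h1).trans ?_
    rw [Finset.sum_const, Finset.card_univ, Fintype.card_prod, Fintype.card_fin, Fintype.card_fin,
      smul_eq_mul, bas_len]
    exact le_refl _
  · intro t
    by_cases h : t.val < R.T.length
    · simp only [if_pos h]
      have e1 := rowT_eq A.p' (m := R.m) (n := R.n) (Ta R.toCert (R.T.getD t.val default))
        (hlen _ h) (rh R.toCert (R.T.getD t.val default).1) (by rw [hρ _ h]; exact hdl _) A.XT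
      have e2 : ∑ x : Fin R.toCert.bas.length × Fin R.toCert.n,
          (red A.p' ((rh R.toCert (R.T.getD t.val default).1).getD x.1.val 0) *
          red A.p' ((Ta R.toCert (R.T.getD t.val default)).getD x.2.val 0)) *
            nthN (A.XT.getD x.1.val []) x.2.val =
          rowT A.p' (Ta R.toCert (R.T.getD t.val default))
            (rh R.toCert (R.T.getD t.val default).1) A.XT := by
        rw [e1, Fintype.sum_prod_type, Fintype.sum_prod_type]
        exact Fintype.sum_equiv (finCongr bas_len) _ _ (fun x => rfl)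
      rw [e2, hρ _ h]
      have e3 := rT_eq (p := A.p') (b := 2 ^ R.kb) (o := R.o) (by omega) hp8
        (Ta R.toCert (R.T.getD t.val default)) A.XT (R.W (R.T.getD t.val default).1)
      rw [hXL] at e3
      rw [← e3]
      have e4 := (hq' _ h).2
      rw [← hK] at e4
      exact e4
    · have hlt : t.val - R.T.length < LL.length := by
        have := t.isLt
        omega
      obtain ⟨a1, a2, a3, a4, a5⟩ := hl' _ hlt
      simp only [if_neg h]
      have e1 := rX_sum A.p' (n := R.n) (VL.getD (t.val - R.T.length) []) a3 A.XT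
      have e2 : ∑ x : Fin R.toCert.bas.length × Fin R.toCert.n,
          red A.p' (((VL.getD (t.val - R.T.length) []).getD x.1.val []).getD x.2.val 0) *
            nthN (A.XT.getD x.1.val []) x.2.val = rX A.p' (VL.getD (t.val - R.T.length) []) A.XT := by
        rw [e1, Fintype.sum_prod_type]
        exact Fintype.sum_equiv (finCongr (bas_len.trans a2.symm)) _ _ (fun x => rfl)
      rw [e2]
      rw [← hK] at a5
      have e3 : R.T.length + (t.val - R.T.length) = t.val := by omega
      rw [e3] at a5
      exact a5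

/-- **all checks, with explicit classes** -/
theorem rOkX_of {LL : List (List Tm)} {VL : List (List (List ℤ))} (hVL : VL.length = LL.length)
    (h0 : NumX R A LL.length) (h2 : xm R.kb R.ko (R.m * R.N) R.Om = true) (h3 : cB R = true)
    {l4 n4 : ℕ} (hl4 : 0 < l4) (hc4 : R.rels.length ≤ n4 * l4)
    (h4 : ∀ k < n4, blk (cR R) R.rels l4 k = true)
    (h5 : allI (fun c g => cG R.DG A.B A.MA A.P2 A.MB c g) R.G 0 = true)
    (h6 : R.toCert.chk3' = true) (hK : cK R A)
    (h7 : R.cls.all (fun e => bdE A.MA R.n e.1.2 && bdE A.MA R.n e.2.2) = true)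
    (h8 : A.XQ.all (fun X => X.all (xm A.a A.d A.S)) = true)
    (h9 : A.XT.all (fun X => X.all (xm A.a' A.d' A.K)) = true)
    {lQ nQ : ℕ} (hlQ : 0 < lQ) (hcQ : R.Q.length ≤ nQ * lQ)
    (hQ : ∀ k < nQ, blk (cQ R A) R.Q lQ k = true)
    {lT nT : ℕ} (hlT : 0 < lT) (hcT : R.T.length ≤ nT * lT)
    (hT : ∀ k < nT, blk (cT R A) R.T lT k = true)
    (hL : allI (fun s L => cL R A (VL.getD s []) s L) LL 0 = true)
    (hD : ∀ V ∈ VL, ∀ k < nQ, blk (cD R V) R.Q lQ k = true) : ROkX R LL := by
  obtain ⟨n1, n2, n3, n4', n5, n6, n7, n8, n9, n10, n11, n12, n13, n14, n15, n16, n17, n18, n19,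
    n20, n21, n22, n23, n24, n25, n26, n27, n28, n29⟩ := h0
  have hE : ∀ e ∈ R.cls, (e.1.2.length = R.n ∧ bd (A.MA : ℤ) e.1.2) ∧
      (e.2.2.length = R.n ∧ bd (A.MA : ℤ) e.2.2) := by
    intro e he
    rw [List.all_eq_true] at h7
    have := h7 e he
    rw [Bool.and_eq_true] at this
    exact ⟨bdE_spec this.1, bdE_spec this.2⟩
  have hE' : ∀ e ∈ R.cls, e.1.2.length = R.n ∧ e.2.2.length = R.n :=
    fun e he => ⟨(hE e he).1.1, (hE e he).2.1⟩
  have hR : ∀ s (hs : s < R.rels.length), cR R s R.rels[s] = true := blk_spec hl4 hc4 h4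
  have hR' : ∀ s (hs : s < R.rels.length), chkR R.r R.cls R.rels[s] = true ∧
      pos (R.m + s) R.rels[s] = true ∧
      zv (fun c => (R.W c : ℤ) - (opk (2 ^ R.kb) R.o R.m : ℕ)) R.rels[s] = 0 := by
    intro s hs
    have := hR s hs
    unfold cR at this
    simp only [Bool.and_eq_true, decide_eq_true_eq] at this
    exact ⟨this.1.1, this.1.2, this.2⟩
  have hml : R.m ≤ R.cls.length := by omega
  obtain ⟨k1, k2, k3⟩ := hK
  have k3' : A.P2.map (fun x => pk (A.B : ℤ)
      ((R.cls.take R.m).map (fun e => mn e.2.2 e.1.2 x.1 x.2))) = A.MB := by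
    rw [← k3]
    exact List.map_congr_left fun x _ => (pmb_eq _ _ _ _).symm
  have hQ' := blk_spec hlQ hcQ hQ
  have hT' := blk_spec hlT hcT hT
  have q0 : ∀ q ∈ R.Q, q.1 < q.2.1 ∧ q.2.1 < q.2.2 ∧ q.2.1 < R.r ∧ q.2.2 < R.n := by
    intro q hq
    obtain ⟨s, hs, rfl⟩ := List.getElem_of_mem hq
    have h1 := hQ' s hs
    unfold cQ at h1
    simp only [Bool.and_eq_true, Nat.blt_eq] at h1
    exact ⟨h1.1.1.1.1, h1.1.1.1.2, h1.1.1.2, h1.1.2⟩
  have hLs : ∀ s (hs : s < LL.length), cL R A (VL.getD s []) s LL[s] = true := by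
    intro s hs
    have := allI_spec hL s hs
    rwa [zero_add] at this
  refine ⟨⟨n3, n4', n5, n6, n7, n8, n9, ?_, h2, ?_, fun s hs => (hR' s hs).2⟩, ?_⟩
  · rw [List.all_eq_true]
    intro e he
    obtain ⟨s, hs, rfl⟩ := List.getElem_of_mem he
    exact (hR' s hs).1
  · intro c hc
    unfold cB at h3
    rw [List.all_eq_true] at h3
    exact Nat.eq_of_beq_eq_true (h3 c (List.mem_range.mpr hc))
  · refine ⟨⟨n1, n2, ?_, h6, ?_, q0, ?_⟩, ?_, ?_, ?_, ?_, ?_, ?_⟩
    · intro c hc c' hc'
      rw [bas_len] at hc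
      refine chk3_of (bas_map hml) (B := A.B) (MA := A.MA) (fun e he => ?_) k3' ?_ c' hc'
      · have := hE e (List.mem_of_mem_take he)
        exact ⟨this.1.2, this.2.2⟩
      · have := allI_spec h5 c (by omega)
        rw [zero_add] at this
        show cG R.DG A.B A.MA A.P2 A.MB c (R.G.getD c []) = true
        rw [List.getD_eq_getElem?_getD, List.getElem?_eq_getElem (by omega)]
        exact this
    · unfold Cert.chk7
      rw [List.all_eq_true]
      intro i hi
      have hi' : i < R.m := List.mem_range.mp hi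
      have h1 : R.toCert.cl i ∈ R.cls := by
        show R.cls.getD i default ∈ R.cls
        rw [List.getD_eq_getElem?_getD, List.getElem?_eq_getElem (by omega)]
        exact List.getElem_mem _
      have h2 := hE' _ h1
      simp only [Bool.and_eq_true, decide_eq_true_eq]
      exact ⟨⟨lt_of_lt_of_le hi' hml, h2.1⟩, h2.2⟩
    · exact liQ_of n1 n11 n15 n16 n17 n18 n19 n20 n21 hml hE' k1 h8 hQ'
    · rw [bas_len, n11, n12]
      exact n13
    · intro t ht
      obtain ⟨s, hs, rfl⟩ := List.getElem_of_mem ht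
      have h1 := hT' s hs
      unfold cT at h1
      simp only [Bool.and_eq_true, Nat.blt_eq] at h1
      show _ < R.cls.length
      rw [n3]
      exact h1.1.1
    · exact liX_of hVL n12 n22 n23 n24 n25 n26 n27 n28 n3 n14 hE' h9 hT' hLs
    · exact td_of n3 n4' n6 n7 n8 n9 n29 h2 hE k2 hT'
    · intro L hLm
      obtain ⟨s, hs, rfl⟩ := List.getElem_of_mem hLm
      have h1 := hLs s hs
      unfold cL at h1
      simp only [Bool.and_eq_true] at h1
      exact h1.1.1.1.1
    · intro L hLm q hq
      obtain ⟨s, hs, rfl⟩ := List.getElem_of_mem hLm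
      obtain ⟨q1, q2, q3, q4⟩ := q0 q hq
      have h1 := hLs s hs
      unfold cL at h1
      simp only [Bool.and_eq_true, decide_eq_true_eq, List.all_eq_true] at h1
      obtain ⟨⟨⟨⟨a1, a2⟩, a3⟩, a4⟩, -⟩ := h1
      have hsV : s < VL.length := by omega
      have hVm : VL.getD s [] ∈ VL := by
        rw [List.getD_eq_getElem?_getD, List.getElem?_eq_getElem hsV]
        exact List.getElem_mem _
      have hD' := blk_spec hlQ hcQ (hD _ hVm)
      obtain ⟨s', hs', rfl⟩ := List.getElem_of_mem hq
      have h2 := hD' s' hs'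
      unfold cD at h2
      rw [decide_eq_true_eq] at h2
      have hbl : (VL.getD s []).length = (R.cls.take R.m).length := by
        rw [a2, List.length_take]
        omega
      rw [phx_sum (n := R.n) q1 q2 q4 _ _ hbl] at h2
      refine Eq.trans ?_ h2
      rw [Fintype.sum_prod_type]
      have hlen : R.toCert.bas.length = (R.cls.take R.m).length := by
        rw [bas_len, List.length_take]
        omega
      refine Fintype.sum_equiv (finCongr hlen) _ _ (fun c => ?_)
      refine Finset.sum_congr rfl fun x _ => ?_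
      rw [xf_eq a1 a3 a4 c.val x.isLt]
      have e1 : R.toCert.cl (R.toCert.bas.get c) = (R.cls.take R.m).get (finCongr hlen c) := by
        rw [cl_bas]
        have hc : c.val < R.m := lt_of_lt_of_eq c.isLt bas_len
        rw [List.getD_eq_getElem?_getD, List.getElem?_eq_getElem (by omega), List.get_eq_getElem,
          List.getElem_take]
        rfl
      rw [e1]
      rfl

end

end Pool.Agent.MC
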