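import Pool.Agent.Lib_helper40.MC.M
import Pool.Agent.Lib_helper24.FAM.LC

/-!
# The clauses of the final theorem from a modular certificate with explicit classes
-/

set_option autoImplicit false
set_option linter.unusedSectionVars false
set_option linter.unusedVariables false

open scoped TensorProduct WithZero

namespace Pool.Agent.MC

open Pool.Agent.MK4 Pool.Agent.TN Pool.Agent.KC72

/-- the symbols of the solutions -/
lemma sy_mem_orb {k : Type*} [Field k] {F : Type*} [Field F] [Algebra k F] [CharZero F]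
    {g : List F} (hg : ∀ x ∈ g, x ≠ 0) {cls : List (Mo × Mo)} (hS : Sols g cls) {h : F}
    (h1 : (∃ c : k, h = algebraMap k F c) ∨ ∃ p ∈ cls, Orb (ev g p.1) h) :
    sy h ∈ SC k F ⊔ Submodule.span ℚ {a : B2 F | ∃ p ∈ cls, a = sy (ev g p.1)} := by
  rcases h1 with ⟨c, rfl⟩ | ⟨p, hp, h2⟩
  · exact Submodule.mem_sup_left (Submodule.subset_span ⟨c, rfl⟩)
  · refine Submodule.mem_sup_right ?_
    have hne : ev g p.1 ≠ 1 := by
      intro h
      have h3 := hS p hp
      apply ev_ne hg p.2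
      linear_combination h3 - h
    have h4 : sy (ev g p.1) ∈ Submodule.span ℚ {a : B2 F | ∃ p ∈ cls, a = sy (ev g p.1)} :=
      Submodule.subset_span ⟨p, hp, rfl⟩
    rcases sy_orb hne h2 with h5 | h5
    · rw [h5]; exact h4
    · rw [h5]; exact Submodule.neg_mem _ h4

end Pool.Agent.MC

namespace Pool.Agent.FK4

open Pool.Agent.MK4 WeierstrassCurve.Affine Pool.Agent.KC72 Pool.Agent.MC

section

variable {k : Type*} [Field k] [DecidableEq k] {W W' : WeierstrassCurve.Affine k} {F : Type*}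
  [Field F] [Algebra k F] {X Y x y : F} {H : AddSubgroup W.Point} {H' : AddSubgroup W'.Point}
  [CharZero k]

/-- the closed elements from the unit equation and a modular certificate with explicit classes -/
theorem closed_rcertL {R : RCert} {LL : List (List Tm)} (hR : ROkX R LL) {n r : ℕ} (hn : R.n = n)
    (hr : R.r = r) {cls : List (Mo × Mo)} (hcl : sameC R.cls cls = true) {G : Fin n → F}
    (hrn : r ≤ n) (hsupp : ∀ i, Supp H' x y (G i))
    (hk : ∀ i : Fin n, r ≤ i.val → ∃ c : k, G i = algebraMap k F c)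
    (hM : ∀ (e : Fin r → ℤ) (c : k), c ≠ 0 →
      ∏ i, G (Fin.castLE hrn i) ^ e i = algebraMap k F c → e = 0)
    (hc : ∀ e : Fin n → ℤ, (∀ i : Fin n, i.val < r → e i = 0) → ∏ i, G i ^ e i = 1 → e = 0)
    (hs : Sols (List.ofFn G) cls)
    (hU : ∀ f, Supp H' x y f → Supp H' x y (1 - f) → (∃ c : k, f = algebraMap k F c) ∨
      ∃ p ∈ cls, TN.Orb (ev (List.ofFn G) p.1) f) {z : HK F} (hz : z ∈ Sp H' x y)
    (hcz : Closed z) :
    z ∈ TN.KC k F ⊔ Submodule.span ℚ {a | ∃ L ∈ LL, a = KC72.zt (List.ofFn G) R.cls L} := by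
  have : CharZero F := charZero_of_injective_algebraMap (algebraMap k F).injective
  have hG : ∀ i, G i ≠ 0 := fun i => (hsupp i).1
  have hg : ∀ z ∈ List.ofFn G, z ≠ 0 := by
    intro z hz
    rw [List.mem_ofFn] at hz
    obtain ⟨i, rfl⟩ := hz
    exact hG i
  have hI := hI_of (k := k) hrn G hG hk hM
  have hJ := hJ_of (k := k) hrn G hG hI hc
  rw [sp_eq (U := Supp H' x y) (fun f => Iff.rfl)] at hz
  exact closed_of_rcertLP hR hn hr hcl hG hk hI hJ hs (Supp H' x y)
    (fun h h1 h2 => sy_mem_orb hg hs (hU h h1 h2)) hz hcz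

/-- the clause `Line` from a modular certificate -/
theorem line_rcert (hg : Generic W X Y) {P : W.Point}
    (hS : Same (AddSubgroup.zmultiples P) X Y H' x y)
    {R : RCert} {L' : List Tm} (hR : ROkX R [L']) {n r : ℕ} (hn : R.n = n) (hr : R.r = r)
    {cls : List (Mo × Mo)} (hcl : sameC R.cls cls = true) {G : Fin n → F} (hrn : r ≤ n)
    (hsupp : ∀ i, Supp H' x y (G i))
    (hk : ∀ i : Fin n, r ≤ i.val → ∃ c : k, G i = algebraMap k F c)
    (hM : ∀ (e : Fin r → ℤ) (c : k), c ≠ 0 →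
      ∏ i, G (Fin.castLE hrn i) ^ e i = algebraMap k F c → e = 0)
    (hc : ∀ e : Fin n → ℤ, (∀ i : Fin n, i.val < r → e i = 0) → ∏ i, G i ^ e i = 1 → e = 0)
    (hs : Sols (List.ofFn G) cls)
    (hU : ∀ f, Supp H' x y f → Supp H' x y (1 - f) → (∃ c : k, f = algebraMap k F c) ∨
      ∃ p ∈ cls, TN.Orb (ev (List.ofFn G) p.1) f)
    {L : List Tm} (hL : okT n cls L = true) (hD : chkD n cls L = true)
    (hLL : L.map (fun t => (oo cls (t.c, t.s), t.u)) = L'.map (fun t => (oo R.cls (t.c, t.s), t.u)))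
    {ξ : HK F} (hξ : ξ = KC72.zt (List.ofFn G) cls L)
    (hun : Unram k ξ) (hnz : RegNonZero k X Y ξ) : Line P X Y := by
  have : CharZero F := charZero_of_injective_algebraMap (algebraMap k F).injective
  have hG : ∀ i, G i ≠ 0 := fun i => (hsupp i).1
  have hgl : ∀ z ∈ List.ofFn G, Supp H' x y z := by
    intro z hz
    rw [List.mem_ofFn] at hz
    obtain ⟨i, rfl⟩ := hz
    exact hsupp i
  refine ⟨ξ, ⟨?_, ?_, hun⟩, closedIn_line hg hun ?_, hnz⟩
  · rw [hS.sp, hξ]
    exact zt_mem' hgl hs hL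
  · rw [hξ]
    exact zt_closed hG hs hL hD
  · intro z hz hcz
    rw [hS.sp] at hz
    have h1 := closed_rcertL hR hn hr hcl hrn hsupp hk hM hc hs hU hz hcz
    obtain ⟨β, hβ⟩ := one_class h1
    rw [← zt_perm hLL (List.ofFn G), ← hξ] at hβ
    refine ⟨β, ?_⟩
    rw [← TN.KC_eq, ← Submodule.ker_mkQ (TN.KC k F), LinearMap.mem_ker, map_sub, map_smul, hβ,
      sub_self]

/-- the closed elements from a modular certificate with several explicit classes -/
theorem closedIn_rcert (hg : Generic W X Y) {P : W.Point}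
    (hS : Same (AddSubgroup.zmultiples P) X Y H' x y)
    {R : RCert} {LL : List (List Tm)} (hR : ROkX R LL) {n r : ℕ} (hn : R.n = n) (hr : R.r = r)
    {cls : List (Mo × Mo)} (hcl : sameC R.cls cls = true) {G : Fin n → F} (hrn : r ≤ n)
    (hsupp : ∀ i, Supp H' x y (G i))
    (hk : ∀ i : Fin n, r ≤ i.val → ∃ c : k, G i = algebraMap k F c)
    (hM : ∀ (e : Fin r → ℤ) (c : k), c ≠ 0 →
      ∏ i, G (Fin.castLE hrn i) ^ e i = algebraMap k F c → e = 0)
    (hc : ∀ e : Fin n → ℤ, (∀ i : Fin n, i.val < r → e i = 0) → ∏ i, G i ^ e i = 1 → e = 0)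
    (hs : Sols (List.ofFn G) cls)
    (hU : ∀ f, Supp H' x y f → Supp H' x y (1 - f) → (∃ c : k, f = algebraMap k F c) ∨
      ∃ p ∈ cls, TN.Orb (ev (List.ofFn G) p.1) f)
    {S : Set (HK F)} (hξ : ∀ L ∈ LL, KC72.zt (List.ofFn G) R.cls L ∈ S)
    (hun : ∀ ξ ∈ S, Unram k ξ) :
    ClosedIn (AddSubgroup.zmultiples P) X Y (Submodule.span ℚ S) := by
  refine closedIn_of hg (fun l hl => unram_span (fun z hz => hun z hz) hl) fun z hz hcz => ?_
  rw [hS.sp] at hz
  have h1 := closed_rcertL hR hn hr hcl hrn hsupp hk hM hc hs hU hz hcz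
  obtain ⟨a, ha, b, hb, rfl⟩ := Submodule.mem_sup.mp h1
  refine ⟨b, ?_, ?_⟩
  · refine Submodule.span_mono ?_ hb
    rintro c ⟨L, hL, rfl⟩
    exact hξ L hL
  · rw [add_sub_cancel_right, ← TN.KC_eq]
    exact ha

end

end Pool.Agent.FK4
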