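import Pool.Agent.Lib_helper40.MC.P

/-!
# The clauses of the final theorem from a modular certificate: no class, one class
-/

set_option autoImplicit false
set_option linter.unusedSectionVars false
set_option linter.unusedVariables false

open scoped TensorProduct WithZero

namespace Pool.Agent.MC

open Pool.Agent.KC72

/-- the members of `L` are members of `M`, with their positions -/
def posC (L M : List (Mo × Mo)) (a : List ℕ) : Bool :=
  decide (L = a.map (fun i => M.getD i default)) && a.all (fun i => decide (i < M.length))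

lemma posC_mem {L M : List (Mo × Mo)} {a : List ℕ} (h : posC L M a = true) : ∀ p ∈ L, p ∈ M := by
  unfold posC at h
  rw [Bool.and_eq_true, decide_eq_true_eq, List.all_eq_true] at h
  obtain ⟨h1, h2⟩ := h
  intro p hp
  rw [h1, List.mem_map] at hp
  obtain ⟨i, hi, rfl⟩ := hp
  have h3 : i < M.length := of_decide_eq_true (h2 i hi)
  rw [List.getD_eq_getElem?_getD, List.getElem?_eq_getElem h3, Option.getD_some]
  exact List.getElem_mem h3

/-- the same classes, from two lists of positions -/
theorem sameC_of_pos {L M : List (Mo × Mo)} {a b : List ℕ} (h1 : posC L M a = true)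
    (h2 : posC M L b = true) : sameC L M = true := by
  unfold sameC
  rw [Bool.and_eq_true, List.all_eq_true, List.all_eq_true]
  exact ⟨fun p hp => decide_eq_true (posC_mem h1 p hp), fun p hp => decide_eq_true (posC_mem h2 p hp)⟩

end Pool.Agent.MC

namespace Pool.Agent.FK4

open Pool.Agent.MK4 WeierstrassCurve.Affine Pool.Agent.KC72 Pool.Agent.MC

section

variable {k : Type*} [Field k] [DecidableEq k] {W W' : WeierstrassCurve.Affine k} {F : Type*}
  [Field F] [Algebra k F] {X Y x y : F} {H : AddSubgroup W.Point} {H' : AddSubgroup W'.Point}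
  [CharZero k]

/-- only constant closed elements, from a modular certificate -/
theorem only_rcert {R : RCert} (hR : ROk R) {n r : ℕ} (hn : R.n = n)
    (hr : R.r = r) {cls : List (Mo × Mo)} (hcl : sameC R.cls cls = true) {G : Fin n → F}
    (hrn : r ≤ n) (hsupp : ∀ i, Supp H' x y (G i))
    (hk : ∀ i : Fin n, r ≤ i.val → ∃ c : k, G i = algebraMap k F c)
    (hM : ∀ (e : Fin r → ℤ) (c : k), c ≠ 0 →
      ∏ i, G (Fin.castLE hrn i) ^ e i = algebraMap k F c → e = 0)
    (hc : ∀ e : Fin n → ℤ, (∀ i : Fin n, i.val < r → e i = 0) → ∏ i, G i ^ e i = 1 → e = 0)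
    (hs : Sols (List.ofFn G) cls)
    (hU : ∀ f, Supp H' x y f → Supp H' x y (1 - f) → (∃ c : k, f = algebraMap k F c) ∨
      ∃ p ∈ cls, TN.Orb (ev (List.ofFn G) p.1) f) : OnlyConst H' x y := by
  intro z hz hcz
  have : CharZero F := charZero_of_injective_algebraMap (algebraMap k F).injective
  have hG : ∀ i, G i ≠ 0 := fun i => (hsupp i).1
  have hg : ∀ z ∈ List.ofFn G, z ≠ 0 := by
    intro z hz
    rw [List.mem_ofFn] at hz
    obtain ⟨i, rfl⟩ := hz
    exact hG i
  have hI := hI_of (k := k) hrn G hG hk hM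
  have hJ := hJ_of (k := k) hrn G hG hI hc
  rw [sp_eq (U := Supp H' x y) (fun f => Iff.rfl)] at hz
  rw [← TN.KC_eq]
  exact closed_of_rcertP hR hn hr hcl hG hk hI hJ hs (Supp H' x y)
    (fun h h1 h2 => sy_mem_orb hg hs (hU h h1 h2)) hz hcz

/-- the class and the closed elements from a modular certificate -/
theorem cls_rcert (hg : Generic W X Y) {P : W.Point}
    (hS : Same (AddSubgroup.zmultiples P) X Y H' x y)
    {R : RCert} {L' : List Tm} (hR : ROkX R [L']) {n r : ℕ} (hn : R.n = n) (hr : R.r = r)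
    {cls : List (Mo × Mo)} (hcl : sameC R.cls cls = true) {G : Fin n → F} (hrn : r ≤ n)
    (hsupp : ∀ i, Supp H' x y (G i))
    (hk : ∀ i : Fin n, r ≤ i.val → ∃ c : k, G i = algebraMap k F c)
    (hM : ∀ (e : Fin r → ℤ) (c : k), c ≠ 0 →
      ∏ i, G (Fin.castLE hrn i) ^ e i = algebraMap k F c → e = 0)
    (hc : ∀ e : Fin n → ℤ, (∀ i : Fin n, i.val < r → e i = 0) → ∏ i, G i ^ e i = 1 → e = 0)
    (hs : Sols (List.ofFn G) cls)
    (hU : ∀ f, Supp H' x y f → Supp H' x y (1 - f) → (∃ c : k, f = algebraMap k F c) ∨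
      ∃ p ∈ cls, TN.Orb (ev (List.ofFn G) p.1) f)
    {L : List Tm} (hL : okT n cls L = true) (hD : chkD n cls L = true)
    (hLL : L.map (fun t => (oo cls (t.c, t.s), t.u)) = L'.map (fun t => (oo R.cls (t.c, t.s), t.u)))
    {ξ : HK F} (hξ : ξ = KC72.zt (List.ofFn G) cls L) (hun : Unram k ξ) :
    IsCls (AddSubgroup.zmultiples P) X Y ξ ∧
      ClosedIn (AddSubgroup.zmultiples P) X Y (Submodule.span ℚ {ξ}) := by
  have : CharZero F := charZero_of_injective_algebraMap (algebraMap k F).injective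
  have hG : ∀ i, G i ≠ 0 := fun i => (hsupp i).1
  have hgl : ∀ z ∈ List.ofFn G, Supp H' x y z := by
    intro z hz
    rw [List.mem_ofFn] at hz
    obtain ⟨i, rfl⟩ := hz
    exact hsupp i
  refine ⟨⟨?_, ?_, hun⟩, closedIn_line hg hun ?_⟩
  · rw [hS.sp, hξ]
    exact zt_mem' hgl hs hL
  · rw [hξ]
    exact zt_closed hG hs hL hD
  · intro z hz hcz
    rw [hS.sp] at hz
    have h1 := closed_rcertL hR hn hr hcl hrn hsupp hk hM hc hs hU hz hcz
    obtain ⟨β, hβ⟩ := one_class h1
    rw [← zt_perm hLL (List.ofFn G), ← hξ] at hβ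
    refine ⟨β, ?_⟩
    rw [← TN.KC_eq, ← Submodule.ker_mkQ (TN.KC k F), LinearMap.mem_ker, map_sub, map_smul, hβ,
      sub_self]

end

end Pool.Agent.FK4
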